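import Mathlib

/-!
MP_fb225e_nt, module B1 (power-saving ideal count): shared definitions and statements.
-/

namespace Pool.Agent.MPfb225e.Cone

open NumberField NumberField.InfinitePlace NumberField.mixedEmbedding
  NumberField.mixedEmbedding.fundamentalCone NumberField.Units NumberField.Units.dirichletUnitTheorem
  MeasureTheory

universe u

variable (K : Type u) [Field K] [NumberField K]

/-- The parameter box. -/
def box (lo hi δ : ℝ) : Set (realSpace K) :=
  {c | c w₀ ∈ Set.Ioc (lo - δ) (hi + δ) ∧ ∀ w, w ≠ w₀ → c w ∈ Set.Ico (-δ) (1 + δ)}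

/-- The corresponding subset of the mixed space. -/
noncomputable def ann (lo hi δ : ℝ) : Set (mixedSpace K) :=
  normAtAllPlaces ⁻¹' (expMapBasis '' box K lo hi δ)

open scoped Classical in
/-- (V) helper52: the volume of `ann`. -/
def VolumeFormula : Prop :=
  ∃ V : ℝ, 0 < V ∧ ∃ r : ℕ, ∀ lo hi δ : ℝ, lo - δ ≤ hi + δ → -(1 / 4) ≤ δ →
    MeasurableSet (ann K lo hi δ) ∧ volume (ann K lo hi δ) ≠ ⊤ ∧
    (volume (ann K lo hi δ)).toReal = V * (1 + 2 * δ) ^ r *
      (Real.exp (Module.finrank ℚ K * (hi + δ)) - Real.exp (Module.finrank ℚ K * (lo - δ)))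

/-- (F) helper52: for `δ = 0` the set is the part of the fundamental cone with norm in
`(exp (n lo), exp (n hi)]`. -/
def ConeDescription : Prop :=
  ∀ (lo hi : ℝ) (x : mixedSpace K), x ∈ ann K lo hi 0 ↔ x ∈ fundamentalCone K ∧
    Real.exp (Module.finrank ℚ K * lo) < mixedEmbedding.norm x ∧
    mixedEmbedding.norm x ≤ Real.exp (Module.finrank ℚ K * hi)

open scoped Classical in
/-- (G) helper60: small translations move the parameters by a small amount. -/
def Perturbation : Prop :=
  ∃ C : ℝ, 0 < C ∧ ∀ (lo : ℝ) (x p : mixedSpace K) (c : realSpace K), lo ≤ c w₀ →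
    (∀ w, w ≠ w₀ → c w ∈ Set.Icc (-1 : ℝ) 2) → normAtAllPlaces x = expMapBasis c →
    C * ‖p‖ * Real.exp (-lo) ≤ 1 →
    ∃ c' : realSpace K, normAtAllPlaces (x + p) = expMapBasis c' ∧
      ∀ w, |c' w - c w| ≤ C * ‖p‖ * Real.exp (-lo)

end Pool.Agent.MPfb225e.Cone
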