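import Mathlib
import Pool.Agent.Lib.MP_fb225e_nt.ConeDefs

/-!
MP_fb225e_nt, module B1: description of the annulus (`ConeDescription`).
-/

namespace Pool.Agent.MPfb225e.Cone

open NumberField NumberField.InfinitePlace NumberField.mixedEmbedding
  NumberField.mixedEmbedding.fundamentalCone NumberField.Units NumberField.Units.dirichletUnitTheorem
  MeasureTheory

universe u

variable (K : Type u) [Field K] [NumberField K]

theorem coneDescription : ConeDescription K := by
  classical
  intro lo hi x
  have key : ∀ c : realSpace K, normAtAllPlaces x = expMapBasis c →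
      ((c ∈ box K lo hi 0) ↔ x ∈ fundamentalCone K ∧
        Real.exp (Module.finrank ℚ K * lo) < mixedEmbedding.norm x ∧
        mixedEmbedding.norm x ≤ Real.exp (Module.finrank ℚ K * hi)) := by
    intro c hc
    have hn : mixedEmbedding.norm x = Real.exp (Module.finrank ℚ K * c w₀) := by
      rw [← norm_normAtAllPlaces, hc, norm_expMapBasis, ← Real.exp_nat_mul]
    have hpos : (0 : ℝ) < Module.finrank ℚ K := Nat.cast_pos.mpr Module.finrank_pos
    have hcone : x ∈ fundamentalCone K ↔ ∀ w, w ≠ w₀ → c w ∈ Set.Ico 0 1 := by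
      rw [← normAtAllPlaces_mem_fundamentalCone_iff, hc, fundamentalCone, Set.mem_sdiff,
        Set.mem_preimage, logMap_expMapBasis]
      constructor
      · exact fun h => h.1
      · exact fun h => ⟨h, norm_expMapBasis_ne_zero c⟩
    rw [hcone, hn, Real.exp_lt_exp, Real.exp_le_exp, mul_lt_mul_iff_right₀ hpos,
      mul_le_mul_iff_right₀ hpos]
    simp only [box, sub_zero, add_zero, neg_zero, Set.mem_ofPred_eq, Set.mem_Ioc]
    constructor
    · rintro ⟨h1, h2⟩
      exact ⟨h2, h1⟩
    · rintro ⟨h2, h1⟩
      exact ⟨h1, h2⟩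
  constructor
  · rintro ⟨c, hc, hcx⟩
    exact (key c hcx.symm).1 hc
  · intro h
    have hx : ∀ w, 0 < normAtAllPlaces x w := fun w => normAtPlace_pos_of_mem h.1 w
    have h1 : expMapBasis (expMapBasis.symm (normAtAllPlaces x)) = normAtAllPlaces x :=
      expMapBasis.right_inv (Set.mem_univ_pi.mpr hx)
    exact ⟨_, (key _ h1.symm).2 h, h1⟩

end Pool.Agent.MPfb225e.Cone
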