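import Mathlib
import Pool.Agent.Lib.MP_fb225e_nt.ConeDefs

/-!
MP_fb225e_nt, module B1: volume of the annulus (`VolumeFormula`).
-/

namespace Pool.Agent.MPfb225e.Cone

open NumberField NumberField.InfinitePlace NumberField.mixedEmbedding
  NumberField.mixedEmbedding.fundamentalCone NumberField.Units NumberField.Units.dirichletUnitTheorem
  MeasureTheory ENNReal

universe u

variable (K : Type u) [Field K] [NumberField K]

open scoped Classical in
theorem box_eq (lo hi δ : ℝ) : box K lo hi δ =
    Set.univ.pi fun w => if w = w₀ then Set.Ioc (lo - δ) (hi + δ) else Set.Ico (-δ) (1 + δ) := by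
  ext c
  simp only [box, Set.mem_ofPred_eq, Set.mem_univ_pi]
  constructor
  · rintro ⟨h1, h2⟩ w
    split_ifs with h
    · rw [h]; exact h1
    · exact h2 w h
  · intro h
    refine ⟨?_, fun w hw => ?_⟩
    · have := h w₀
      rwa [if_pos rfl] at this
    · have := h w
      rwa [if_neg hw] at this

theorem measurableSet_box (lo hi δ : ℝ) : MeasurableSet (box K lo hi δ) := by
  classical
  rw [box_eq]
  refine MeasurableSet.univ_pi fun _ ↦ ?_
  split_ifs
  · exact measurableSet_Ioc
  · exact measurableSet_Ico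

theorem measurableSet_ann (lo hi δ : ℝ) : MeasurableSet (ann K lo hi δ) := by
  refine MeasurableSet.preimage ?_ (continuous_normAtAllPlaces K).measurable
  refine MeasurableSet.image_of_continuousOn_injOn ?_ (continuous_expMapBasis K).continuousOn
    (injective_expMapBasis K).injOn
  exact measurableSet_box K lo hi δ

open scoped Classical in
theorem setLIntegral_box {n : ℕ} (hn : 0 < n) {lo hi δ : ℝ} (h : lo - δ ≤ hi + δ)
    (hδ : -(1 / 4) ≤ δ) :
    ∫⁻ (x : realSpace K) in box K lo hi δ, .ofReal (Real.exp (x w₀ * n)) =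
      ENNReal.ofReal ((1 + 2 * δ) ^ (Finset.univ.erase (w₀ : InfinitePlace K)).card *
        ((Real.exp (n * (hi + δ)) - Real.exp (n * (lo - δ))) / n)) := by
  have hn' : (n : ℝ) ≠ 0 := (Nat.cast_pos.mpr hn).ne'
  have h1 : ∫⁻ t in Set.Ioc (lo - δ) (hi + δ), ENNReal.ofReal (Real.exp (t * n)) =
      ENNReal.ofReal ((Real.exp (n * (hi + δ)) - Real.exp (n * (lo - δ))) / n) := by
    rw [← ofReal_integral_eq_lintegral_ofReal]
    · rw [← intervalIntegral.integral_of_le h,
        intervalIntegral.integral_comp_mul_right (fun t => Real.exp t) hn', integral_exp,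
        smul_eq_mul, mul_comm (hi + δ), mul_comm (lo - δ)]
      congr 1
      field_simp
    · apply Continuous.integrableOn_Ioc
      fun_prop
    · filter_upwards with _ using Real.exp_nonneg _
  rw [volume_pi, box_eq, Measure.restrict_pi_pi, lintegral_eq_lmarginal_univ 0,
    lmarginal_erase' _ (by fun_prop) (Finset.mem_univ w₀), if_pos rfl]
  simp_rw [Function.update_self, h1, lmarginal, lintegral_const, Measure.pi_univ, if_neg
    (Finset.ne_of_mem_erase (Subtype.prop _)), Measure.restrict_apply_univ, Real.volume_Ico,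
    Finset.prod_const]
  have h2 : 1 + δ - -δ = 1 + 2 * δ := by ring
  rw [h2, ← ofReal_pow (by linarith), mul_comm, ← ofReal_mul (by
    apply pow_nonneg; linarith)]
  simp

theorem volumeFormula : VolumeFormula K := by
  classical
  have hR : 0 < regulator K := regulator_pos K
  refine ⟨2 ^ nrRealPlaces K * Real.pi ^ nrComplexPlaces K * regulator K, by positivity,
    (Finset.univ.erase (w₀ : InfinitePlace K)).card, fun lo hi δ h hδ => ?_⟩
  refine ⟨measurableSet_ann K lo hi δ, ?_⟩
  have hn : 0 < Module.finrank ℚ K := Module.finrank_pos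
  have hn' : (Module.finrank ℚ K : ℝ) ≠ 0 := (Nat.cast_pos.mpr hn).ne'
  have hexp : 0 ≤ (Real.exp (Module.finrank ℚ K * (hi + δ)) -
      Real.exp (Module.finrank ℚ K * (lo - δ))) := by
    rw [sub_nonneg, Real.exp_le_exp]
    exact mul_le_mul_of_nonneg_left h (by positivity)
  have h12 : 0 ≤ 1 + 2 * δ := by linarith
  have key : volume (ann K lo hi δ) = ENNReal.ofReal (2 ^ nrRealPlaces K * Real.pi ^ nrComplexPlaces K *
      regulator K * (1 + 2 * δ) ^ (Finset.univ.erase (w₀ : InfinitePlace K)).card *
      (Real.exp (Module.finrank ℚ K * (hi + δ)) - Real.exp (Module.finrank ℚ K * (lo - δ)))) := by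
    have hm := measurableSet_ann K lo hi δ
    unfold ann at hm ⊢
    rw [volume_eq_two_pow_mul_two_pi_pow_mul_integral Set.preimage_image_preimage hm]
    rw [normAtAllPlaces_image_preimage_expMapBasis,
      setLIntegral_expMapBasis_image (measurableSet_box K lo hi δ) (by fun_prop)]
    simp_rw [ENNReal.inv_mul_cancel_right
      (Finset.prod_ne_zero_iff.mpr fun _ _ ↦ ofReal_ne_zero_iff.mpr (expMapBasis_pos _ _))
      (prod_ne_top fun _ _ ↦ ofReal_ne_top)]
    rw [setLIntegral_box K hn h hδ]
    have e2 : (2 : ℝ≥0∞)⁻¹ = ENNReal.ofReal 2⁻¹ := by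
      rw [ofReal_inv_of_pos zero_lt_two, ofReal_ofNat]
    have e3 : (2 : ℝ≥0∞) = ENNReal.ofReal 2 := by rw [ofReal_ofNat]
    rw [e2, e3, ← ofReal_natCast (Module.finrank ℚ K), ← ofReal_pow (by positivity),
      ← ofReal_pow (by positivity), ← ofReal_pow (by positivity), ← ofReal_mul (by positivity),
      ← ofReal_mul (by positivity), ← ofReal_mul (by positivity), ← ofReal_mul (by positivity),
      ← ofReal_mul (by positivity)]
    congr 1
    field_simp
    rw [mul_pow]
    have e4 : (2 : ℝ) ^ nrComplexPlaces K * (1 / 2) ^ nrComplexPlaces K = 1 := by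
      rw [← mul_pow]; norm_num
    linear_combination (Real.pi ^ nrComplexPlaces K *
      ((1 + 2 * δ) ^ (Finset.univ.erase (w₀ : InfinitePlace K)).card *
      (Real.exp (Module.finrank ℚ K * (hi + δ)) - Real.exp (Module.finrank ℚ K * (lo - δ))))) * e4
  rw [key]
  refine ⟨ofReal_ne_top, ?_⟩
  rw [toReal_ofReal (by positivity)]

end Pool.Agent.MPfb225e.Cone
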