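import Mathlib

/-!
MP_fb225e_nt, module B1: dyadic summation and an elementary estimate.
-/

namespace Pool.Agent.MPfb225e.Dyadic

open Filter Topology

theorem dyadic {f : ℝ → ℝ} {κ C η : ℝ} (hκ : 0 ≤ κ) (hη1 : η < 1) (hC : 0 ≤ C)
    (hf : ∀ x, x < 1 → f x = 0)
    (h : ∀ x, 1 ≤ x → |f x - f (x / 2) - κ * x / 2| ≤ C * x ^ (1 - η)) :
    ∃ C' : ℝ, ∀ x, 1 ≤ x → |f x - κ * x| ≤ C' * x ^ (1 - η) := by
  set q : ℝ := (1 / 2 : ℝ) ^ (1 - η) with hq
  have hq1 : q < 1 := Real.rpow_lt_one (by norm_num) (by norm_num) (by linarith)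
  have hq0 : 0 < q := Real.rpow_pos_of_pos (by norm_num) _
  set C' : ℝ := (C + κ) / (1 - q) with hC'
  have hC1 : C + κ ≤ C' := by
    rw [hC', le_div_iff₀ (by linarith)]
    nlinarith
  have hC2 : C + C' * q ≤ C' := by
    have : C' * (1 - q) = C + κ := by rw [hC', div_mul_cancel₀ _ (by linarith)]
    nlinarith
  have hC0 : 0 ≤ C' := by linarith
  refine ⟨C', fun x hx => ?_⟩
  obtain ⟨n, hn⟩ := pow_unbounded_of_one_lt x (by norm_num : (1 : ℝ) < 2)
  induction n generalizing x with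
  | zero => rw [pow_zero] at hn; linarith
  | succ n ih =>
    have h1 := h x hx
    have hx1 : 1 ≤ x ^ (1 - η) := Real.one_le_rpow hx (by linarith)
    by_cases h2 : x / 2 < 1
    · rw [hf _ h2, sub_zero] at h1
      have h3 : |f x - κ * x| ≤ |f x - κ * x / 2| + |κ * x / 2| := by
        have e : f x - κ * x = (f x - κ * x / 2) - κ * x / 2 := by ring
        rw [e]
        exact abs_sub _ _
      have h4 : |κ * x / 2| ≤ κ := by
        rw [abs_of_nonneg (by positivity)]
        nlinarith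
      nlinarith
    · push Not at h2
      have h3 := ih (x / 2) h2 (by rw [pow_succ] at hn; linarith)
      have h4 : |f x - κ * x| ≤ |f x - f (x / 2) - κ * x / 2| + |f (x / 2) - κ * (x / 2)| := by
        have e : f x - κ * x = (f x - f (x / 2) - κ * x / 2) + (f (x / 2) - κ * (x / 2)) := by ring
        rw [e]
        exact abs_add_le _ _
      have h5 : (x / 2) ^ (1 - η) = q * x ^ (1 - η) := by
        rw [hq, ← Real.mul_rpow (by norm_num) (by linarith)]
        congr 1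
        ring
      rw [h5] at h3
      calc |f x - κ * x| ≤ C * x ^ (1 - η) + C' * (q * x ^ (1 - η)) := by linarith
        _ = (C + C' * q) * x ^ (1 - η) := by ring
        _ ≤ C' * x ^ (1 - η) := mul_le_mul_of_nonneg_right hC2 (by linarith)

/-- The volume profile. -/
noncomputable def phi (r n : ℕ) (δ : ℝ) : ℝ :=
  (1 + 2 * δ) ^ r * (Real.exp (n * δ) - Real.exp (-(n * δ)) / 2)

theorem phi_zero (r n : ℕ) : phi r n 0 = 1 / 2 := by
  simp [phi]; norm_num

theorem exists_phi (r n : ℕ) : ∃ M δ₁ : ℝ, 0 < M ∧ 0 < δ₁ ∧ ∀ δ : ℝ, |δ| ≤ δ₁ →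
    |phi r n δ - 1 / 2| ≤ M * |δ| := by
  have hd : DifferentiableAt ℝ (phi r n) 0 := by
    unfold phi
    fun_prop
  have h1 := hd.hasDerivAt.isBigO_sub
  rw [phi_zero] at h1
  obtain ⟨M, hM, hMb⟩ := h1.exists_pos
  rw [Asymptotics.isBigOWith_iff, Metric.eventually_nhds_iff] at hMb
  obtain ⟨ε, hε, hb⟩ := hMb
  refine ⟨M, ε / 2, hM, by positivity, fun δ hδ => ?_⟩
  have h2 := hb (y := δ) (by rw [Real.dist_eq, sub_zero]; linarith)
  simpa using h2

end Pool.Agent.MPfb225e.Dyadic
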