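import Mathlib

/-!
MP_fb225e_nt, module B1 (L): counting lattice points by comparing volumes.
-/

namespace Pool.Agent.MPfb225e.Lattice

open MeasureTheory Module ZSpan Submodule

variable {E : Type*} [NormedAddCommGroup E] [NormedSpace ℝ E] [FiniteDimensional ℝ E]
  [MeasurableSpace E] [BorelSpace E]

theorem count (μ : Measure E) [μ.IsAddHaarMeasure] (L : Submodule ℤ E) [DiscreteTopology L]
    [IsZLattice ℝ L] :
    ∃ R : ℝ, 0 < R ∧ ∀ Sm S Sp : Set E, Bornology.IsBounded S → μ Sp ≠ ⊤ →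
      (∀ x ∈ S, ∀ p, ‖p‖ ≤ R → x + p ∈ Sp) → (∀ x ∈ Sm, ∀ p, ‖p‖ ≤ R → x + p ∈ S) →
      (μ Sm).toReal ≤ (S ∩ L).ncard * ZLattice.covolume L μ ∧
      (S ∩ L).ncard * ZLattice.covolume L μ ≤ (μ Sp).toReal := by
  classical
  set b := (Free.chooseBasis ℤ L).ofZLatticeBasis ℝ with hb
  have hspan : span ℤ (Set.range b) = L := (Free.chooseBasis ℤ L).ofZLatticeBasis_span ℝ
  set Fd := fundamentalDomain b with hFd
  have hFb : Bornology.IsBounded Fd := fundamentalDomain_isBounded b
  have hFm : MeasurableSet Fd := fundamentalDomain_measurableSet b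
  have hcov : ZLattice.covolume L μ = (μ Fd).toReal :=
    ZLattice.covolume_eq_measure_fundamentalDomain L μ
      (ZLattice.isAddFundamentalDomain (Free.chooseBasis ℤ L) μ)
  have hFfin : μ Fd ≠ ⊤ := hFb.measure_lt_top.ne
  obtain ⟨R, hR⟩ := hFb.exists_norm_le
  have hun : ∀ x : E, ∃ v : E, v ∈ L ∧ x - v ∈ Fd := by
    intro x
    refine ⟨floor b x, ?_, ?_⟩
    · exact hspan.le (floor b x).2
    · exact fract_mem_fundamentalDomain b x
  have huniq : ∀ x v w : E, v ∈ L → w ∈ L → x - v ∈ Fd → x - w ∈ Fd → v = w := by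
    intro x v w hv hw h1 h2
    obtain ⟨u, -, hu⟩ := exist_unique_vadd_mem_fundamentalDomain b x
    rw [← hspan] at hv hw
    have e1 := hu (-⟨v, hv⟩) (by
      show -v + x ∈ _
      rw [neg_add_eq_sub]; exact h1)
    have e2 := hu (-⟨w, hw⟩) (by
      show -w + x ∈ _
      rw [neg_add_eq_sub]; exact h2)
    have e3 := e1.trans e2.symm
    rw [neg_inj] at e3
    exact congrArg Subtype.val e3
  refine ⟨max R 1, by positivity, fun Sm S Sp hS hSp h1 h2 => ?_⟩
  have hfin : (S ∩ L).Finite := by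
    have := setFinite_inter b hS
    rwa [hspan] at this
  set N : Finset E := hfin.toFinset with hN
  set f : E → Set E := fun v => (fun x => x + (-v)) ⁻¹' Fd with hf
  have hfm : ∀ v, MeasurableSet (f v) := fun v => hFm.preimage (measurable_add_const (-v))
  have hfμ : ∀ v, μ (f v) = μ Fd := fun v => measure_preimage_add_right μ (-v) Fd
  have hmem : ∀ v, v ∈ N ↔ v ∈ S ∧ v ∈ L := by
    intro v
    rw [hN, Set.Finite.mem_toFinset]
    rfl
  have hcard : ((S ∩ L).ncard : ℝ) * ZLattice.covolume L μ = ∑ v ∈ N, (μ (f v)).toReal := by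
    rw [Finset.sum_congr rfl fun v _ => by rw [hfμ v], Finset.sum_const, hcov, nsmul_eq_mul,
      Set.ncard_eq_toFinset_card _ hfin]
  have hsum : ∑ v ∈ N, (μ (f v)).toReal = (∑ v ∈ N, μ (f v)).toReal := by
    rw [ENNReal.toReal_sum]
    intro v _
    rw [hfμ v]
    exact hFfin
  have hsumfin : ∑ v ∈ N, μ (f v) ≠ ⊤ := by
    rw [ENNReal.sum_ne_top]
    intro v _
    rw [hfμ v]
    exact hFfin
  rw [hcard, hsum]
  constructor
  · refine ENNReal.toReal_mono hsumfin ?_
    refine (measure_mono ?_).trans (measure_biUnion_finset_le N f)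
    intro x hx
    obtain ⟨v, hv, hxv⟩ := hun x
    simp only [Set.mem_iUnion]
    refine ⟨v, (hmem v).mpr ⟨?_, hv⟩, ?_⟩
    · have h3 := h2 x hx (-(x - v)) (by rw [norm_neg]; exact (hR _ hxv).trans (le_max_left _ _))
      have e : x + -(x - v) = v := by abel
      rwa [e] at h3
    · show x + (-v) ∈ Fd
      rwa [← sub_eq_add_neg]
  · refine ENNReal.toReal_mono hSp ?_
    rw [← measure_biUnion_finset]
    · refine measure_mono ?_
      intro x hx
      simp only [Set.mem_iUnion] at hx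
      obtain ⟨v, hv, hxv⟩ := hx
      have hxv' : x + (-v) ∈ Fd := hxv
      rw [← sub_eq_add_neg] at hxv'
      have h3 := h1 v ((hmem v).mp hv).1 (x - v) ((hR _ hxv').trans (le_max_left _ _))
      rwa [add_sub_cancel] at h3
    · intro v hv w hw hvw
      rw [Function.onFun, Set.disjoint_left]
      intro x hx1 hx2
      apply hvw
      have hx1' : x + (-v) ∈ Fd := hx1
      have hx2' : x + (-w) ∈ Fd := hx2
      rw [← sub_eq_add_neg] at hx1' hx2'
      exact huniq x v w ((hmem v).mp hv).2 ((hmem w).mp hw).2 hx1' hx2'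
    · intro v _
      exact hfm v

end Pool.Agent.MPfb225e.Lattice
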