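import Mathlib
import Pool.Agent.Lib.MP_fb225e_nt.ConeDefs
import Pool.Agent.Lib.MP_fb225e_nt.LatticeCount
import Pool.Agent.Lib.MP_fb225e_nt.Dyadic

/-!
MP_fb225e_nt, module B1: lattice points in the shells of the fundamental cone.
-/

namespace Pool.Agent.MPfb225e.Cone

open NumberField NumberField.InfinitePlace NumberField.mixedEmbedding
  NumberField.mixedEmbedding.fundamentalCone NumberField.Units NumberField.Units.dirichletUnitTheorem
  MeasureTheory Module

universe u

variable (K : Type u) [Field K] [NumberField K]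

theorem isBounded_ann (lo hi : ℝ) : Bornology.IsBounded (ann K lo hi 0) := by
  classical
  set Q : Set (realSpace K) :=
    Set.univ.pi fun w => if w = w₀ then Set.Icc lo hi else Set.Icc 0 1 with hQ
  have hQc : IsCompact Q := by
    refine isCompact_univ_pi fun w => ?_
    split_ifs
    · exact isCompact_Icc
    · exact isCompact_Icc
  have hb : Bornology.IsBounded (expMapBasis '' Q : Set (realSpace K)) :=
    (hQc.image (continuous_expMapBasis K)).isBounded
  obtain ⟨C, hC⟩ := isBounded_iff_forall_norm_le.mp hb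
  refine isBounded_iff_forall_norm_le.mpr ⟨C, fun x hx => ?_⟩
  obtain ⟨c, hc, hcx⟩ := hx
  have hcQ : c ∈ Q := by
    intro w _
    by_cases hw : w = w₀
    · subst hw
      simp only [if_pos]
      have := hc.1
      rw [sub_zero, add_zero] at this
      exact ⟨this.1.le, this.2⟩
    · simp only [if_neg hw]
      have := hc.2 w hw
      rw [neg_zero, add_zero] at this
      exact ⟨this.1, this.2.le⟩
  have h1 := hC _ ⟨c, hcQ, hcx⟩
  rw [norm_eq_sup'_normAtPlace]
  refine Finset.sup'_le _ _ fun w _ => ?_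
  have h2 := (pi_norm_le_iff_of_nonempty _).mp h1 w
  rw [normAtAllPlaces_apply, Real.norm_of_nonneg (normAtPlace_nonneg w x)] at h2
  exact h2

open scoped Classical in
theorem shell_count (hV : VolumeFormula K) (hG : Perturbation K)
    (L : Submodule ℤ (mixedSpace K)) [DiscreteTopology L] [IsZLattice ℝ L] :
    ∃ κ : ℝ, 0 < κ ∧ ∃ y₀ : ℝ, 1 ≤ y₀ ∧ ∃ C : ℝ, 0 ≤ C ∧ ∀ y : ℝ, y₀ ≤ y →
      |((ann K (Real.log (y / 2) / finrank ℚ K) (Real.log y / finrank ℚ K) 0 ∩
        (L : Set (mixedSpace K))).ncard : ℝ) - κ * y / 2| ≤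
      C * y ^ (1 - 1 / (finrank ℚ K : ℝ)) := by
  obtain ⟨V, hV0, r, hV⟩ := hV
  obtain ⟨CG, hCG, hG⟩ := hG
  obtain ⟨R, hR, hcount⟩ := Lattice.count volume L
  set n : ℕ := finrank ℚ K with hn
  have hn0 : 0 < n := finrank_pos
  have hn0' : (0 : ℝ) < n := by exact_mod_cast hn0
  have hn1' : (1 : ℝ) ≤ n := by exact_mod_cast hn0
  obtain ⟨M, δ₁, hM, hδ₁, hphi⟩ := Dyadic.exists_phi r n
  set cov := ZLattice.covolume L volume with hcov
  have hcov0 : 0 < cov := ZLattice.covolume_pos L volume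
  -- the threshold
  set θ : ℝ := min (min 1 δ₁) (min (1 / 4) (Real.log 2 / (2 * n))) with hθ
  have hθ0 : 0 < θ := by
    have : 0 < Real.log 2 := Real.log_pos (by norm_num)
    rw [hθ]
    refine lt_min (lt_min one_pos hδ₁) (lt_min (by norm_num) (by positivity))
  set y₀ : ℝ := max 1 (2 * (CG * R / θ) ^ n) with hy₀
  refine ⟨V / cov, by positivity, y₀, le_max_left _ _, V / cov * M * (2 * (CG * R)), by positivity,
    fun y hy => ?_⟩
  have hy1 : 1 ≤ y := (le_max_left _ _).trans hy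
  have hy0 : 0 < y := by linarith
  have hy2 : 2 * (CG * R / θ) ^ n ≤ y := (le_max_right _ _).trans hy
  set lo : ℝ := Real.log (y / 2) / n with hlo
  set hi : ℝ := Real.log y / n with hhi
  set δ : ℝ := CG * R * Real.exp (-lo) with hδ
  have hδ0 : 0 < δ := by positivity
  have hexplo : Real.exp (-lo) = (y / 2) ^ (-(1 / (n : ℝ))) := by
    rw [hlo, Real.rpow_def_of_pos (by positivity)]
    congr 1
    ring
  have hδθ : δ ≤ θ := by
    rw [hδ, hexplo]
    have h1 : CG * R / θ ≤ (y / 2) ^ (1 / (n : ℝ)) := by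
      have h2 : (CG * R / θ) ^ n ≤ y / 2 := by linarith
      calc CG * R / θ = ((CG * R / θ) ^ n) ^ (1 / (n : ℝ)) := by
            rw [← Real.rpow_natCast, ← Real.rpow_mul (by positivity), mul_one_div_cancel hn0'.ne',
              Real.rpow_one]
        _ ≤ (y / 2) ^ (1 / (n : ℝ)) :=
            Real.rpow_le_rpow (by positivity) h2 (by positivity)
    rw [Real.rpow_neg (by positivity), ← div_eq_mul_inv, div_le_iff₀ (by positivity)]
    rw [div_le_iff₀ hθ0] at h1
    linarith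
  have hδ1 : δ ≤ 1 := hδθ.trans ((min_le_left _ _).trans (min_le_left _ _))
  have hδδ₁ : δ ≤ δ₁ := hδθ.trans ((min_le_left _ _).trans (min_le_right _ _))
  have hδ4 : δ ≤ 1 / 4 := hδθ.trans ((min_le_right _ _).trans (min_le_left _ _))
  have hδl : δ ≤ Real.log 2 / (2 * n) :=
    hδθ.trans ((min_le_right _ _).trans (min_le_right _ _))
  have hhilo : hi - lo = Real.log 2 / n := by
    rw [hhi, hlo, Real.log_div (by positivity) (by norm_num)]
    ring
  have hexphi : Real.exp (n * hi) = y := by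
    rw [hhi, mul_div_cancel₀ _ hn0'.ne', Real.exp_log hy0]
  have hexplo2 : Real.exp (n * lo) = y / 2 := by
    rw [hlo, mul_div_cancel₀ _ hn0'.ne', Real.exp_log (by positivity)]
  have hvol : ∀ d : ℝ, V * (1 + 2 * d) ^ r * (Real.exp (n * (hi + d)) - Real.exp (n * (lo - d))) =
      V * y * Dyadic.phi r n d := by
    intro d
    have e1 : Real.exp (n * (hi + d)) = y * Real.exp (n * d) := by
      rw [mul_add, Real.exp_add, hexphi]
    have e2 : Real.exp (n * (lo - d)) = y / 2 * Real.exp (-(n * d)) := by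
      rw [show (n : ℝ) * (lo - d) = n * lo + -(n * d) by ring, Real.exp_add, hexplo2]
    rw [e1, e2]
    unfold Dyadic.phi
    ring
  have hδlog : 2 * δ ≤ Real.log 2 / n := by
    have : Real.log 2 / (2 * n) * 2 = Real.log 2 / n := by field_simp
    linarith
  obtain ⟨-, hp1, hp2⟩ := hV lo hi δ (by
    have : 0 < Real.log 2 := Real.log_pos (by norm_num)
    have : 0 < Real.log 2 / n := by positivity
    linarith) (by linarith)
  obtain ⟨-, hm1, hm2⟩ := hV lo hi (-δ) (by linarith) (by linarith)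
  have hpert : ∀ (x p : mixedSpace K) (c : realSpace K), ‖p‖ ≤ R → lo ≤ c w₀ →
      (∀ w, w ≠ w₀ → c w ∈ Set.Icc (-1 : ℝ) 2) → normAtAllPlaces x = expMapBasis c →
      ∃ c' : realSpace K, expMapBasis c' = normAtAllPlaces (x + p) ∧ ∀ w, |c' w - c w| ≤ δ := by
    intro x p c hp h1 h2 h3
    have h4 : CG * ‖p‖ * Real.exp (-lo) ≤ δ := by
      rw [hδ]
      have : CG * ‖p‖ ≤ CG * R := mul_le_mul_of_nonneg_left hp hCG.le
      exact mul_le_mul_of_nonneg_right this (Real.exp_pos _).le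
    obtain ⟨c', h5, h6⟩ := hG lo x p c h1 h2 h3 (h4.trans hδ1)
    exact ⟨c', h5.symm, fun w => (h6 w).trans h4⟩
  obtain ⟨hlower, hupper⟩ := hcount (ann K lo hi (-δ)) (ann K lo hi 0) (ann K lo hi δ)
    (isBounded_ann K lo hi) hp1
    (by
      rintro x ⟨c, ⟨hc1, hc2⟩, hcx⟩ p hp
      rw [sub_zero, add_zero] at hc1
      simp only [neg_zero, add_zero] at hc2
      obtain ⟨c', h1, h2⟩ := hpert x p c hp hc1.1.le
        (fun w hw => ⟨by linarith [(hc2 w hw).1], by linarith [(hc2 w hw).2]⟩) hcx.symm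
      refine ⟨c', ⟨⟨?_, ?_⟩, fun w hw => ⟨?_, ?_⟩⟩, h1⟩
      · have := abs_le.mp (h2 w₀); linarith [hc1.1, this.1]
      · have := abs_le.mp (h2 w₀); linarith [hc1.2, this.2]
      · have := abs_le.mp (h2 w); linarith [(hc2 w hw).1, this.1]
      · have := abs_le.mp (h2 w); linarith [(hc2 w hw).2, this.2])
    (by
      rintro x ⟨c, ⟨hc1, hc2⟩, hcx⟩ p hp
      rw [sub_neg_eq_add, ← sub_eq_add_neg] at hc1
      simp only [neg_neg, ← sub_eq_add_neg] at hc2
      obtain ⟨c', h1, h2⟩ := hpert x p c hp (by linarith [hc1.1])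
        (fun w hw => ⟨by linarith [(hc2 w hw).1], by linarith [(hc2 w hw).2]⟩) hcx.symm
      refine ⟨c', ⟨⟨?_, ?_⟩, fun w hw => ⟨?_, ?_⟩⟩, h1⟩
      · have := abs_le.mp (h2 w₀); linarith [hc1.1, this.1]
      · have := abs_le.mp (h2 w₀); linarith [hc1.2, this.2]
      · have := abs_le.mp (h2 w); linarith [(hc2 w hw).1, this.1]
      · have := abs_le.mp (h2 w); linarith [(hc2 w hw).2, this.2])
  rw [hp2, hvol] at hupper
  rw [hm2, hvol] at hlower
  have hphi1 := hphi δ (by rw [abs_of_pos hδ0]; exact hδδ₁)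
  have hphi2 := hphi (-δ) (by rw [abs_neg, abs_of_pos hδ0]; exact hδδ₁)
  rw [abs_of_pos hδ0] at hphi1
  rw [abs_neg, abs_of_pos hδ0] at hphi2
  set N : ℝ := ((ann K lo hi 0 ∩ (L : Set (mixedSpace K))).ncard : ℝ) with hN
  have hVy : 0 < V * y := by positivity
  have h1 : |N * cov - V * y / 2| ≤ V * y * (M * δ) := by
    rw [abs_le]
    constructor
    · have := mul_le_mul_of_nonneg_left (abs_le.mp hphi2).1 hVy.le
      linarith
    · have := mul_le_mul_of_nonneg_left (abs_le.mp hphi1).2 hVy.le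
      linarith
  have h2 : y * δ ≤ 2 * (CG * R) * y ^ (1 - 1 / (n : ℝ)) := by
    rw [hδ, hexplo, Real.div_rpow hy0.le (by norm_num), Real.rpow_sub hy0, Real.rpow_one,
      Real.rpow_neg hy0.le]
    have h3 : (2 : ℝ) ^ (-(1 / (n : ℝ))) = ((2 : ℝ) ^ (1 / (n : ℝ)))⁻¹ :=
      Real.rpow_neg (by norm_num) _
    rw [h3, div_inv_eq_mul]
    have h4 : (2 : ℝ) ^ (1 / (n : ℝ)) ≤ 2 := by
      calc (2 : ℝ) ^ (1 / (n : ℝ)) ≤ (2 : ℝ) ^ (1 : ℝ) := by
            refine Real.rpow_le_rpow_of_exponent_le (by norm_num) ?_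
            rw [div_le_one hn0']
            exact hn1'
        _ = 2 := Real.rpow_one 2
    have h5 : y * (CG * R * ((y ^ (1 / (n : ℝ)))⁻¹ * 2 ^ (1 / (n : ℝ)))) =
        (CG * R) * (y / y ^ (1 / (n : ℝ))) * 2 ^ (1 / (n : ℝ)) := by ring
    have h6 : 2 * (CG * R) * (y / y ^ (1 / (n : ℝ))) = (CG * R) * (y / y ^ (1 / (n : ℝ))) * 2 := by
      ring
    rw [h5, h6]
    exact mul_le_mul_of_nonneg_left h4 (by positivity)
  have h3 : N - V / cov * y / 2 = (N * cov - V * y / 2) / cov := by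
    field_simp
  rw [h3, abs_div, abs_of_pos hcov0, div_le_iff₀ hcov0]
  calc |N * cov - V * y / 2| ≤ V * y * (M * δ) := h1
    _ = V * M * (y * δ) := by ring
    _ ≤ V * M * (2 * (CG * R) * y ^ (1 - 1 / (n : ℝ))) :=
        mul_le_mul_of_nonneg_left h2 (by positivity)
    _ = V / cov * M * (2 * (CG * R)) * y ^ (1 - 1 / (n : ℝ)) * cov := by field_simp

end Pool.Agent.MPfb225e.Cone
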