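import Mathlib

/-!
MP_fb225e_nt, edge theorem: definitions shared by all modules, and the exact statements the modules
have to prove (as `def ... : Prop`, so that the assembly can be written before the modules are
finished).
-/

namespace Pool.Agent.MPfb225e

open NumberField IsDedekindDomain Filter Topology

universe u

/-- The absolute norm `Nv` of a finite place `v` of `K`, as a real number. -/
noncomputable def nrm {K : Type u} [Field K] [NumberField K] (v : HeightOneSpectrum (𝓞 K)) : ℝ :=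
  (Ideal.absNorm v.asIdeal : ℝ)

/-- The sum `∑_v x_v (Nv) ^ (-1-ε) cos (τ log Nv)`. -/
noncomputable def cosSum {K : Type u} [Field K] [NumberField K]
    (x : HeightOneSpectrum (𝓞 K) → ℝ) (τ ε : ℝ) : ℝ :=
  ∑' v, x v * (nrm v ^ (-(1 + ε)) * Real.cos (τ * Real.log (nrm v)))

/-- MODULE B1 (helper57): power-saving count of ideals. -/
def IdealCount (K : Type u) [Field K] [NumberField K] : Prop :=
  ∃ κ : ℝ, 0 < κ ∧ ∃ η : ℝ, 0 < η ∧ η < 1 ∧ ∃ C : ℝ, ∀ x : ℝ, 1 ≤ x →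
    |(Nat.card {I : Ideal (𝓞 K) // I ≠ ⊥ ∧ (Ideal.absNorm I : ℝ) ≤ x} : ℝ) - κ * x| ≤
      C * x ^ (1 - η)

/-- MODULE B2: orthogonality relations on the line `Re s = 1`.
To be proved: `IdealCount K → Orthogonality K`. -/
def Orthogonality (K : Type u) [Field K] [NumberField K] : Prop :=
  (∀ σ : ℝ, 1 < σ → Summable fun v : HeightOneSpectrum (𝓞 K) => nrm v ^ (-σ)) ∧
  Tendsto (fun ε : ℝ => cosSum (K := K) (fun _ => 1) 0 ε / Real.log (1 / ε)) (𝓝[>] 0) (𝓝 1) ∧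
  ∀ τ : ℝ, τ ≠ 0 →
    Tendsto (fun ε : ℝ => cosSum (K := K) (fun _ => 1) τ ε / Real.log (1 / ε)) (𝓝[>] 0) (𝓝 0)

/-- MODULE C (helper52): the Hasse bound over finite fields of characteristic `≥ 5`. -/
def Hasse : Prop :=
  ∀ (k : Type u) [Field k] [Finite k], (2 : k) ≠ 0 → (3 : k) ≠ 0 →
    ∀ (W : WeierstrassCurve k) [W.IsElliptic],
      ((Nat.card k : ℤ) + 1 - (Nat.card W.toAffine.Point : ℤ)) ^ 2 ≤ 4 * (Nat.card k : ℤ)

/-- MODULE D (helper60): the Euler product of `L(W/K,s)` near the line `Re s = 3/2`: there are real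
numbers `x_v ∈ [-2,2]` (`x_v = a_v / √(Nv)` for all but finitely many places) such that
`log |L(W/K, 3/2+ε+it)| = ∑_v x_v (Nv)^(-1-ε) cos (t log Nv) + O(1)` for every fixed `t`, and `L`
does not vanish on `Re s > 3/2`. -/
def LogExpansion {K : Type u} [Field K] [NumberField K] (W : WeierstrassCurve K) : Prop :=
  ∃ x : HeightOneSpectrum (𝓞 K) → ℝ, (∀ v, |x v| ≤ 2) ∧
    (∀ s : ℂ, 3 / 2 < s.re → W.LSeries s ≠ 0) ∧
    ∀ t : ℝ, ∃ B : ℝ, ∀ ε : ℝ, 0 < ε → ε ≤ 1 →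
      |Real.log ‖W.LSeries ((3 / 2 + ε : ℝ) + t * Complex.I)‖ - cosSum x t ε| ≤ B

/-- MODULE A (helper60): the classification of the zeros on the edge. `m t` is the order of the zero
at `3/2 + it`. -/
def Classification (K : Type u) [Field K] [NumberField K] : Prop :=
  Orthogonality K → ∀ (x : HeightOneSpectrum (𝓞 K) → ℝ) (m : ℝ → ℕ), (∀ v, |x v| ≤ 2) →
    (∀ t, Tendsto (fun ε : ℝ => cosSum x t ε / Real.log (1 / ε)) (𝓝[>] 0) (𝓝 (-(m t : ℝ)))) →
    ∃ t₀ : ℝ, 0 ≤ t₀ ∧ ∀ t, m t ≠ 0 → (t = t₀ ∨ t = -t₀) ∧ m t ≤ if t₀ = 0 then 2 else 1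

end Pool.Agent.MPfb225e
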