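import Mathlib
import Pool.Agent.Lib.MP_fb225e_nt.ConeDefs

/-!
MP_fb225e_nt, module B1 (G): small translations move the parameters by a small amount.
-/

namespace Pool.Agent.MPfb225e.Cone

open NumberField NumberField.InfinitePlace NumberField.mixedEmbedding
  NumberField.mixedEmbedding.fundamentalCone NumberField.Units NumberField.Units.dirichletUnitTheorem
  MeasureTheory

universe u

variable (K : Type u) [Field K] [NumberField K]

theorem abs_log_sub_log_le {u u' y : ℝ} (hu : 0 < u) (h : |u' - u| ≤ y * u) (hy : y ≤ 1 / 2) :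
    0 < u' ∧ |Real.log u' - Real.log u| ≤ 2 * y := by
  have h1 := abs_le.mp h
  have hu' : 0 < u' := by nlinarith [h1.1]
  refine ⟨hu', ?_⟩
  have hy0 : 0 ≤ y := by
    by_contra hneg
    push Not at hneg
    have := abs_nonneg (u' - u)
    nlinarith
  rw [← Real.log_div hu'.ne' hu.ne']
  have hr : 0 < u' / u := div_pos hu' hu
  have h2 : u' / u ≤ 1 + y := by
    rw [div_le_iff₀ hu]; nlinarith [h1.2]
  have h3 : 1 - y ≤ u' / u := by
    rw [le_div_iff₀ hu]; nlinarith [h1.1]
  rw [abs_le]
  constructor
  · have h4 := Real.one_sub_inv_le_log_of_pos hr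
    have h5 : (u' / u)⁻¹ ≤ (1 - y)⁻¹ := inv_anti₀ (by linarith) h3
    have h6 : (1 - y)⁻¹ ≤ 1 + 2 * y := by
      rw [inv_le_iff_one_le_mul₀ (by linarith)]
      nlinarith
    linarith
  · have h4 := Real.log_le_sub_one_of_pos hr
    linarith

open scoped Classical in
theorem normAtPlace_le_norm (w : InfinitePlace K) (x : mixedSpace K) : normAtPlace w x ≤ ‖x‖ := by
  rw [norm_eq_sup'_normAtPlace]
  exact Finset.le_sup' (fun w => normAtPlace w x) (Finset.mem_univ w)

theorem exists_lower : ∃ m : ℝ, 0 < m ∧ ∀ c : realSpace K,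
    (∀ w, w ≠ w₀ → c w ∈ Set.Icc (-1 : ℝ) 2) → ∀ w, m * Real.exp (c w₀) ≤ expMapBasis c w := by
  classical
  set Q : Set (realSpace K) := Set.univ.pi fun w => if w = w₀ then {0} else Set.Icc (-1) 2 with hQ
  have hQc : IsCompact Q := by
    refine isCompact_univ_pi fun w => ?_
    split_ifs
    · exact isCompact_singleton
    · exact isCompact_Icc
  have hQn : Q.Nonempty := by
    refine ⟨0, fun w _ => ?_⟩
    by_cases hw : w = w₀
    · simp [hw]
    · simp [hw]
  have key : ∀ w : InfinitePlace K, ∃ m : ℝ, 0 < m ∧ ∀ c ∈ Q, m ≤ expMapBasis c w := by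
    intro w
    obtain ⟨c₀, hc₀, hmin⟩ := hQc.exists_isMinOn hQn
      (f := fun c : realSpace K => expMapBasis c w)
      (((continuous_apply w).comp (continuous_expMapBasis K)).continuousOn)
    exact ⟨expMapBasis c₀ w, expMapBasis_pos _ _, fun c hc => hmin hc⟩
  choose m hm hmQ using key
  refine ⟨Finset.univ.inf' Finset.univ_nonempty m, ?_, ?_⟩
  · rw [Finset.lt_inf'_iff]
    exact fun w _ => hm w
  · intro c hc w
    have h1 : (fun i => if i = w₀ then 0 else c i) ∈ Q := by
      intro i _
      by_cases hi : i = w₀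
      · simp [hi]
      · simp only [if_neg hi]
        exact hc i hi
    rw [expMapBasis_apply'', Pi.smul_apply, smul_eq_mul, mul_comm]
    refine mul_le_mul_of_nonneg_left ?_ (Real.exp_pos _).le
    exact (Finset.inf'_le m (Finset.mem_univ w)).trans (hmQ w _ h1)

theorem perturbation : Perturbation K := by
  classical
  obtain ⟨m, hm, hlow⟩ := exists_lower K
  set L := ‖((completeBasis K).equivFunL : realSpace K →L[ℝ] (InfinitePlace K → ℝ))‖ with hL
  have hL0 : 0 ≤ L := norm_nonneg _
  refine ⟨4 * L / m + 2 / m, by positivity, fun lo x p c hlo hc hx hsmall => ?_⟩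
  set y : ℝ := ‖p‖ * Real.exp (-lo) / m with hy
  have hy0 : 0 ≤ y := by positivity
  have hCy : (4 * L / m + 2 / m) * ‖p‖ * Real.exp (-lo) = 4 * L * y + 2 * y := by
    rw [hy]; ring
  rw [hCy] at hsmall ⊢
  have hy2 : y ≤ 1 / 2 := by nlinarith
  have hu : ∀ w, 0 < expMapBasis c w := expMapBasis_pos c
  have hlowu : ∀ w, m * Real.exp lo ≤ expMapBasis c w := fun w =>
    le_trans (mul_le_mul_of_nonneg_left (Real.exp_le_exp.mpr hlo) hm.le) (hlow c hc w)
  set u' : realSpace K := normAtAllPlaces (x + p) with hu'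
  have hdiff : ∀ w, |u' w - expMapBasis c w| ≤ y * expMapBasis c w := by
    intro w
    have h1 : |u' w - expMapBasis c w| ≤ ‖p‖ := by
      rw [← hx, hu', normAtAllPlaces_apply, normAtAllPlaces_apply]
      have h2 := normAtPlace_add_le w x p
      have h3 := normAtPlace_add_le w (x + p) (-p)
      rw [add_neg_cancel_right, normAtPlace_neg] at h3
      have h4 := normAtPlace_le_norm K w p
      rw [abs_le]
      constructor <;> linarith
    refine h1.trans ?_
    have h2 : ‖p‖ = y * (m * Real.exp lo) := by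
      rw [hy, Real.exp_neg]
      field_simp
    rw [h2]
    exact mul_le_mul_of_nonneg_left (hlowu w) hy0
  have hlog : ∀ w, 0 < u' w ∧ |Real.log (u' w) - Real.log (expMapBasis c w)| ≤ 2 * y :=
    fun w => abs_log_sub_log_le (hu w) (hdiff w) hy2
  set d : realSpace K := expMap.symm u' with hd
  have hdu : expMap d = u' := by
    rw [hd]
    refine expMap.right_inv ?_
    rw [expMap_target]
    exact fun w _ => (hlog w).1
  refine ⟨(completeBasis K).equivFun d, ?_, ?_⟩
  · rw [expMapBasis_apply, LinearEquiv.symm_apply_apply, hdu]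
  · intro w
    set e : realSpace K := (completeBasis K).equivFun.symm c with he
    have hce : c = (completeBasis K).equivFun e := by rw [he, LinearEquiv.apply_symm_apply]
    have hed : ∀ w, |d w - e w| ≤ 4 * y := by
      intro w
      have h1 : d w = w.mult * Real.log (u' w) := by rw [hd, expMap_symm_apply]
      have h2 : e w = w.mult * Real.log (expMapBasis c w) := by
        rw [expMapBasis_apply, expMap_apply, Real.log_exp, mul_inv_cancel_left₀ mult_coe_ne_zero]
      rw [h1, h2, ← mul_sub, abs_mul, Nat.abs_cast]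
      have h3 : (w.mult : ℝ) ≤ 2 := by
        rcases w.isReal_or_isComplex with h | h
        · rw [mult_isReal ⟨w, h⟩]; norm_num
        · rw [mult_isComplex ⟨w, h⟩]; norm_num
      calc (w.mult : ℝ) * |Real.log (u' w) - Real.log (expMapBasis c w)|
          ≤ 2 * (2 * y) := mul_le_mul h3 (hlog w).2 (abs_nonneg _) (by norm_num)
        _ = 4 * y := by ring
    have hnorm : ‖d - e‖ ≤ 4 * y := by
      rw [pi_norm_le_iff_of_nonneg (by positivity)]
      intro w
      rw [Pi.sub_apply, Real.norm_eq_abs]
      exact hed w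
    have h5 : (completeBasis K).equivFun d w - c w =
        ((completeBasis K).equivFunL : realSpace K →L[ℝ] (InfinitePlace K → ℝ)) (d - e) w := by
      rw [hce, map_sub, Pi.sub_apply]
      rfl
    rw [h5]
    have h6 := ((completeBasis K).equivFunL : realSpace K →L[ℝ] (InfinitePlace K → ℝ)).le_opNorm
      (d - e)
    have h7 := norm_le_pi_norm
      (((completeBasis K).equivFunL : realSpace K →L[ℝ] (InfinitePlace K → ℝ)) (d - e)) w
    rw [Real.norm_eq_abs] at h7
    have h8 : L * ‖d - e‖ ≤ L * (4 * y) := mul_le_mul_of_nonneg_left hnorm hL0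
    nlinarith

end Pool.Agent.MPfb225e.Cone
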