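import Mathlib
import Pool.Agent.Lib.MP_fb225e_nt.Interface
import Pool.Agent.Lib.MP_fb225e_nt.ConeCount
import Pool.Agent.Lib.MP_fb225e_nt.Perturb

/-!
MP_fb225e_nt, module B1: power-saving count of ideals, the assembly.
-/

namespace Pool.Agent.MPfb225e.Cone

open NumberField NumberField.InfinitePlace NumberField.mixedEmbedding
  NumberField.mixedEmbedding.fundamentalCone NumberField.Units NumberField.Units.dirichletUnitTheorem
  MeasureTheory Module Ideal nonZeroDivisors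

universe u

variable (K : Type u) [Field K] [NumberField K]

variable {K} in
/-- The number of ideals in the class `C` of norm at most `s`. -/
noncomputable def classCount (C : ClassGroup (𝓞 K)) (s : ℝ) : ℕ :=
  Nat.card {I : (Ideal (𝓞 K))⁰ // (absNorm (I : Ideal (𝓞 K)) : ℝ) ≤ s ∧ ClassGroup.mk0 I = C}

theorem aux₁ {C : ClassGroup (𝓞 K)} {J : (Ideal (𝓞 K))⁰} {s : ℝ} (hJ : ClassGroup.mk0 J = C⁻¹) :
    classCount C s
      = Nat.card {I : (Ideal (𝓞 K))⁰ // (J : Ideal (𝓞 K)) ∣ I ∧ Submodule.IsPrincipal (I : Ideal (𝓞 K)) ∧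
        absNorm (I : Ideal (𝓞 K)) ≤ s * absNorm (J : Ideal (𝓞 K))} := by
  unfold classCount
  simp_rw [← nonZeroDivisors_dvd_iff_dvd_coe]
  refine Nat.card_congr ?_
  refine ((Equiv.dvd J).subtypeEquiv fun I ↦ ?_).trans
    (Equiv.subtypeSubtypeEquivSubtypeInter (fun I : (Ideal (𝓞 K))⁰ ↦ J ∣ I) _)
  rw [← ClassGroup.mk0_eq_one_iff (SetLike.coe_mem _)]
  simp_rw [Equiv.dvd_apply, Submonoid.coe_mul, ← Submonoid.mul_def, _root_.map_mul, hJ,
    inv_mul_eq_one, Nat.cast_mul, mul_comm s, eq_comm, and_comm, and_congr_left_iff]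
  exact fun _ ↦
    (mul_le_mul_iff_of_pos_left (Nat.cast_pos.mpr (absNorm_pos_of_nonZeroDivisors J))).symm

/-- The number of elements of `idealSet K J` of norm at most `y`. -/
noncomputable def setCount (J : (Ideal (𝓞 K))⁰) (y : ℝ) : ℕ :=
  {x : mixedSpace K | x ∈ idealSet K J ∧ mixedEmbedding.norm x ≤ y}.ncard

theorem classCount_mul {C : ClassGroup (𝓞 K)} {J : (Ideal (𝓞 K))⁰} (hJ : ClassGroup.mk0 J = C⁻¹)
    (s : ℝ) : classCount C s * torsionOrder K =
      setCount K J (s * absNorm (J : Ideal (𝓞 K))) := by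
  rw [aux₁ K hJ, card_isPrincipal_dvd_norm_le]
  unfold setCount
  rw [← Nat.card_coe_set_eq]
  exact Nat.card_congr (Equiv.subtypeSubtypeEquivSubtypeInter
    (fun x => x ∈ idealSet K J) (fun x => mixedEmbedding.norm x ≤ s * absNorm J.1))

theorem finite_idealSet (J : (Ideal (𝓞 K))⁰) (y : ℝ) :
    {x : mixedSpace K | x ∈ idealSet K J ∧ mixedEmbedding.norm x ≤ y}.Finite := by
  classical
  have hb : Bornology.IsBounded
      {x : mixedSpace K | x ∈ fundamentalCone K ∧ mixedEmbedding.norm x ≤ y} := by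
    obtain ⟨R, hR⟩ := isBounded_iff_forall_norm_le.mp (isBounded_normLeOne K)
    set c : ℝ := max y 1 with hc
    have hc1 : 1 ≤ c := le_max_right _ _
    have hc0 : 0 < c := by linarith
    refine isBounded_iff_forall_norm_le.mpr ⟨c * R, fun x hx => ?_⟩
    obtain ⟨hx1, hx2⟩ := hx
    have h1 : c⁻¹ • x ∈ normLeOne K := by
      refine ⟨(smul_mem_iff_mem (inv_ne_zero hc0.ne')).mpr hx1, ?_⟩
      rw [Set.mem_ofPred_eq, mixedEmbedding.norm_smul, abs_of_pos (inv_pos.mpr hc0)]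
      have h2 : (c⁻¹) ^ finrank ℚ K ≤ c⁻¹ := by
        refine pow_le_of_le_one (inv_nonneg.mpr hc0.le) (inv_le_one_of_one_le₀ hc1) ?_
        exact finrank_pos.ne'
      have h3 : mixedEmbedding.norm x ≤ c := hx2.trans (le_max_left _ _)
      calc (c⁻¹) ^ finrank ℚ K * mixedEmbedding.norm x ≤ c⁻¹ * c :=
            mul_le_mul h2 h3 (mixedEmbedding.norm_nonneg x) (inv_nonneg.mpr hc0.le)
        _ = 1 := inv_mul_cancel₀ hc0.ne'
    have h4 := hR _ h1
    rw [_root_.norm_smul, Real.norm_of_nonneg (inv_nonneg.mpr hc0.le)] at h4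
    calc ‖x‖ = c * (c⁻¹ * ‖x‖) := by rw [mul_inv_cancel_left₀ hc0.ne']
      _ ≤ c * R := mul_le_mul_of_nonneg_left h4 hc0.le
  have hfin : ({x : mixedSpace K | x ∈ fundamentalCone K ∧ mixedEmbedding.norm x ≤ y} ∩
      (idealLattice K (FractionalIdeal.mk0 K J) : Set (mixedSpace K))).Finite := by
    have hdt : DiscreteTopology (idealLattice K (FractionalIdeal.mk0 K J)) := inferInstance
    have hcl : IsClosed (idealLattice K (FractionalIdeal.mk0 K J) : Set (mixedSpace K)) := by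
      have : DiscreteTopology (idealLattice K (FractionalIdeal.mk0 K J)).toAddSubgroup := hdt
      exact AddSubgroup.isClosed_of_discrete
        (H := (idealLattice K (FractionalIdeal.mk0 K J)).toAddSubgroup)
    exact Metric.finite_isBounded_inter_isClosed ⟨hdt⟩ hb hcl
  refine hfin.subset ?_
  rintro x ⟨⟨h1, h2⟩, h3⟩
  exact ⟨⟨h1, h3⟩, h2⟩

theorem setCount_sub (hF : ConeDescription K) (J : (Ideal (𝓞 K))⁰) {y : ℝ} (hy : 0 < y) :
    setCount K J y = setCount K J (y / 2) +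
      (ann K (Real.log (y / 2) / finrank ℚ K) (Real.log y / finrank ℚ K) 0 ∩
        (idealLattice K (FractionalIdeal.mk0 K J) : Set (mixedSpace K))).ncard := by
  classical
  have hn0 : (0 : ℝ) < finrank ℚ K := by exact_mod_cast finrank_pos
  have h1 : Real.exp (finrank ℚ K * (Real.log y / finrank ℚ K)) = y := by
    rw [mul_div_cancel₀ _ hn0.ne', Real.exp_log hy]
  have h2 : Real.exp (finrank ℚ K * (Real.log (y / 2) / finrank ℚ K)) = y / 2 := by
    rw [mul_div_cancel₀ _ hn0.ne', Real.exp_log (by positivity)]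
  have hF' : ∀ x, x ∈ ann K (Real.log (y / 2) / finrank ℚ K) (Real.log y / finrank ℚ K) 0 ↔
      x ∈ fundamentalCone K ∧ y / 2 < mixedEmbedding.norm x ∧ mixedEmbedding.norm x ≤ y := by
    intro x
    rw [hF, h1, h2]
  set A := ann K (Real.log (y / 2) / finrank ℚ K) (Real.log y / finrank ℚ K) 0 with hA
  unfold setCount
  rw [← Set.ncard_union_eq ?_ (finite_idealSet K J _) ?_]
  · congr 1
    ext x
    simp only [Set.mem_ofPred_eq, Set.mem_union, Set.mem_inter_iff, hF', idealSet]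
    constructor
    · rintro ⟨⟨h3, h4⟩, h5⟩
      by_cases h6 : mixedEmbedding.norm x ≤ y / 2
      · exact Or.inl ⟨⟨h3, h4⟩, h6⟩
      · exact Or.inr ⟨⟨h3, not_le.mp h6, h5⟩, h4⟩
    · rintro (⟨⟨h3, h4⟩, h5⟩ | ⟨⟨h3, h4, h5⟩, h6⟩)
      · exact ⟨⟨h3, h4⟩, by linarith⟩
      · exact ⟨⟨h3, h6⟩, h5⟩
  · rw [Set.disjoint_left]
    rintro x ⟨-, h3⟩ ⟨h4, -⟩
    rw [hF'] at h4
    linarith [h4.2.1]
  · refine (finite_idealSet K J y).subset ?_
    rintro x ⟨h3, h4⟩
    rw [hF'] at h3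
    exact ⟨⟨h3.1, h4⟩, h3.2.2⟩

theorem classCount_lt_one (C : ClassGroup (𝓞 K)) {s : ℝ} (hs : s < 1) : classCount C s = 0 := by
  unfold classCount
  rw [Nat.card_eq_zero]
  left
  constructor
  rintro ⟨I, h1, -⟩
  have h2 : 1 ≤ absNorm (I : Ideal (𝓞 K)) := absNorm_pos_of_nonZeroDivisors I
  have h3 : (1 : ℝ) ≤ absNorm (I : Ideal (𝓞 K)) := by exact_mod_cast h2
  linarith

theorem classCount_mono (C : ClassGroup (𝓞 K)) {s t : ℝ} (hst : s ≤ t) :
    classCount C s ≤ classCount C t := by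
  unfold classCount
  have hfin : Finite {I : (Ideal (𝓞 K))⁰ //
      (absNorm (I : Ideal (𝓞 K)) : ℝ) ≤ t ∧ ClassGroup.mk0 I = C} := by
    have h := Ideal.finite_setOfPred_absNorm_le₀ (S := 𝓞 K) ⌊t⌋₊
    have h' : {I : (Ideal (𝓞 K))⁰ |
      (absNorm (I : Ideal (𝓞 K)) : ℝ) ≤ t ∧ ClassGroup.mk0 I = C}.Finite := by
      refine h.subset ?_
      rintro I ⟨h1, -⟩
      exact Nat.le_floor h1
    exact h'.to_subtype
  exact Nat.card_le_card_of_injective (fun I => ⟨I.1, I.2.1.trans hst, I.2.2⟩)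
    (fun I I' h => Subtype.ext (congrArg (fun I => I.1) h))

theorem classCount_asymp (hV : VolumeFormula K) (hF : ConeDescription K) (C : ClassGroup (𝓞 K)) :
    ∃ κ : ℝ, 0 < κ ∧ ∃ D : ℝ, ∀ x : ℝ, 1 ≤ x →
      |(classCount C x : ℝ) - κ * x| ≤ D * x ^ (1 - 1 / (2 * (finrank ℚ K : ℝ))) := by
  classical
  obtain ⟨J, hJ⟩ := ClassGroup.mk0_surjective C⁻¹
  set n : ℕ := finrank ℚ K with hn
  have hn0 : 0 < n := finrank_pos
  have hn1' : (1 : ℝ) ≤ n := by exact_mod_cast hn0
  set NJ : ℝ := (absNorm (J : Ideal (𝓞 K)) : ℝ) with hNJ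
  have hNJ1 : 1 ≤ NJ := by
    have : 1 ≤ absNorm (J : Ideal (𝓞 K)) := absNorm_pos_of_nonZeroDivisors J
    rw [hNJ]
    exact_mod_cast this
  have hNJ0 : 0 < NJ := by linarith
  set T : ℝ := (torsionOrder K : ℝ) with hT
  have hT0 : 0 < T := by
    rw [hT]
    exact_mod_cast torsionOrder_pos K
  obtain ⟨κ₀, hκ₀, y₀, hy₀, D₀, hD₀, hcount⟩ :=
    shell_count K hV (perturbation K) (idealLattice K (FractionalIdeal.mk0 K J))
  have hmul : ∀ s, (classCount C s : ℝ) * T = setCount K J (s * NJ) := by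
    intro s
    have := classCount_mul K hJ s
    rw [hT, hNJ]
    exact_mod_cast this
  set κ : ℝ := κ₀ * NJ / T with hκ
  have hκ0 : 0 < κ := by positivity
  refine ⟨κ, hκ0, ?_⟩
  set η : ℝ := 1 / (2 * (n : ℝ)) with hη
  have hη0 : 0 < η := by positivity
  have hη1 : η ≤ 1 / 2 := by
    rw [hη, div_le_div_iff₀ (by positivity) (by norm_num)]
    linarith
  have hη2 : 1 - 1 / (n : ℝ) ≤ 1 - η := by
    rw [hη]
    have : 1 / (2 * (n : ℝ)) ≤ 1 / (n : ℝ) :=
      one_div_le_one_div_of_le (by linarith) (by linarith)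
    linarith
  set D₁ : ℝ := D₀ * NJ / T with hD₁
  set D₂ : ℝ := classCount C y₀ + κ * y₀ with hD₂
  have hD₂0 : 0 ≤ D₂ := by positivity
  have hD₁0 : 0 ≤ D₁ := by positivity
  refine Dyadic.dyadic (f := fun s => (classCount C s : ℝ)) (κ := κ) (C := D₁ + D₂) (η := η)
    hκ0.le (by linarith) (by positivity) ?_ ?_
  · intro x hx
    rw [classCount_lt_one K C hx]
    simp
  · intro x hx
    have hx0 : 0 < x := by linarith
    have hxη : 1 ≤ x ^ (1 - η) := Real.one_le_rpow hx (by linarith)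
    by_cases hxy : y₀ ≤ x
    · -- large x
      have hy : y₀ ≤ x * NJ := hxy.trans (le_mul_of_one_le_right hx0.le hNJ1)
      have h1 := hcount (x * NJ) hy
      have h2 := setCount_sub K hF J (y := x * NJ) (by positivity)
      set S := (ann K (Real.log (x * NJ / 2) / finrank ℚ K) (Real.log (x * NJ) / finrank ℚ K) 0 ∩
        (idealLattice K (FractionalIdeal.mk0 K J) : Set (mixedSpace K))).ncard with hS
      have h3 : ((classCount C x : ℝ) - classCount C (x / 2)) * T = S := by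
        rw [sub_mul, hmul, hmul, h2, show x / 2 * NJ = x * NJ / 2 by ring]
        push_cast
        ring
      have h4 : (classCount C x : ℝ) - classCount C (x / 2) - κ * x / 2 =
          (S - κ₀ * (x * NJ) / 2) / T := by
        rw [← h3, hκ]
        field_simp
      rw [h4, abs_div, abs_of_pos hT0, div_le_iff₀ hT0]
      have h5 : (x * NJ) ^ (1 - 1 / (n : ℝ)) ≤ x ^ (1 - η) * NJ := by
        rw [Real.mul_rpow hx0.le hNJ0.le]
        refine mul_le_mul ?_ ?_ (by positivity) (by positivity)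
        · exact Real.rpow_le_rpow_of_exponent_le hx hη2
        · calc NJ ^ (1 - 1 / (n : ℝ)) ≤ NJ ^ (1 : ℝ) := by
                refine Real.rpow_le_rpow_of_exponent_le hNJ1 ?_
                have : 0 < 1 / (n : ℝ) := by positivity
                linarith
            _ = NJ := Real.rpow_one _
      calc |(S : ℝ) - κ₀ * (x * NJ) / 2| ≤ D₀ * (x * NJ) ^ (1 - 1 / (n : ℝ)) := h1
        _ ≤ D₀ * (x ^ (1 - η) * NJ) := mul_le_mul_of_nonneg_left h5 hD₀
        _ = D₁ * x ^ (1 - η) * T := by rw [hD₁]; field_simp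
        _ ≤ (D₁ + D₂) * x ^ (1 - η) * T := by
            refine mul_le_mul_of_nonneg_right ?_ hT0.le
            exact mul_le_mul_of_nonneg_right (by linarith) (by linarith)
    · push Not at hxy
      have h1 : (classCount C x : ℝ) ≤ classCount C y₀ := by
        exact_mod_cast classCount_mono K C hxy.le
      have h2 : (classCount C (x / 2) : ℝ) ≤ classCount C x := by
        exact_mod_cast classCount_mono K C (by linarith)
      have h3 : (0 : ℝ) ≤ classCount C (x / 2) := by positivity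
      have h4 : κ * x / 2 ≤ κ * y₀ := by nlinarith
      have h5 : 0 ≤ κ * x / 2 := by positivity
      have h6 : |(classCount C x : ℝ) - classCount C (x / 2) - κ * x / 2| ≤ D₂ := by
        rw [abs_le]
        constructor
        · have : (0 : ℝ) ≤ classCount C y₀ := by positivity
          linarith
        · have : 0 ≤ κ * y₀ := by positivity
          linarith
      calc |(classCount C x : ℝ) - classCount C (x / 2) - κ * x / 2| ≤ D₂ := h6
        _ ≤ (D₁ + D₂) * 1 := by linarith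
        _ ≤ (D₁ + D₂) * x ^ (1 - η) := mul_le_mul_of_nonneg_left hxη (by linarith)

theorem card_eq_sum (x : ℝ) :
    (Nat.card {I : Ideal (𝓞 K) // I ≠ ⊥ ∧ (Ideal.absNorm I : ℝ) ≤ x} : ℝ) =
      ∑ C : ClassGroup (𝓞 K), (classCount C x : ℝ) := by
  classical
  have hfin : Finite {I : (Ideal (𝓞 K))⁰ // (absNorm (I : Ideal (𝓞 K)) : ℝ) ≤ x} := by
    have h := Ideal.finite_setOfPred_absNorm_le₀ (S := 𝓞 K) ⌊x⌋₊
    have h' : {I : (Ideal (𝓞 K))⁰ | (absNorm (I : Ideal (𝓞 K)) : ℝ) ≤ x}.Finite := by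
      refine h.subset ?_
      intro I h1
      exact Nat.le_floor h1
    exact h'.to_subtype
  have hft : Fintype {I : (Ideal (𝓞 K))⁰ // (absNorm (I : Ideal (𝓞 K)) : ℝ) ≤ x} :=
    Fintype.ofFinite _
  have h1 : Nat.card {I : Ideal (𝓞 K) // I ≠ ⊥ ∧ (Ideal.absNorm I : ℝ) ≤ x} =
      Nat.card {I : (Ideal (𝓞 K))⁰ // (absNorm (I : Ideal (𝓞 K)) : ℝ) ≤ x} := by
    refine Nat.card_congr ⟨fun I => ⟨⟨I.1, mem_nonZeroDivisors_of_ne_zero I.2.1⟩, I.2.2⟩,
      fun I => ⟨I.1.1, nonZeroDivisors.ne_zero I.1.2, I.2⟩, fun I => rfl, fun I => rfl⟩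
  rw [h1]
  let e := fun C : ClassGroup (𝓞 K) ↦ Equiv.subtypeSubtypeEquivSubtypeInter
    (fun I : (Ideal (𝓞 K))⁰ ↦ (absNorm I.1 : ℝ) ≤ x) (fun I ↦ ClassGroup.mk0 I = C)
  unfold classCount
  simp_rw [← Nat.card_congr (e _), Nat.card_eq_fintype_card, Fintype.subtype_card]
  rw [Fintype.card, Finset.card_eq_sum_card_fiberwise (f := fun I ↦ ClassGroup.mk0 I.1)
    (t := Finset.univ) (fun _ _ ↦ Finset.mem_univ _), Nat.cast_sum]

theorem idealCount (hV : VolumeFormula K) (hF : ConeDescription K) : IdealCount K := by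
  classical
  choose κ hκ D hD using classCount_asymp K hV hF
  have hn1 : (1 : ℝ) ≤ finrank ℚ K := by exact_mod_cast (finrank_pos : 0 < finrank ℚ K)
  refine ⟨∑ C, κ C, Finset.sum_pos (fun C _ => hκ C) Finset.univ_nonempty,
    1 / (2 * (finrank ℚ K : ℝ)), by positivity, ?_, ∑ C, D C, fun x hx => ?_⟩
  · rw [div_lt_one (by positivity)]
    linarith
  · rw [card_eq_sum, Finset.sum_mul, Finset.sum_mul, ← Finset.sum_sub_distrib]
    exact (Finset.abs_sum_le_sum_abs _ _).trans (Finset.sum_le_sum fun C _ => hD C x hx)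

end Pool.Agent.MPfb225e.Cone
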