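import Mathlib

/-!
MP_fb225e_nt, module D, part 1: an abstract Euler product for
`ArithmeticFunction.eulerProduct fun i => ofPowerSeries (q i) (f i)`.
-/

namespace Pool.Agent.MPfb225e.Euler

open ArithmeticFunction Filter Topology

/-- The Dirichlet series of `f(q^{-s})`. -/
theorem lseriesHasSum_ofPowerSeries {q : ℕ} (hq : 1 < q) (f : PowerSeries ℂ) (s F : ℂ)
    (h : HasSum (fun k => f.coeff k * ((q : ℂ) ^ (-s)) ^ k) F) :
    LSeriesHasSum (fun n => ofPowerSeries q f n) s F := by
  unfold LSeriesHasSum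
  have hinj := Nat.pow_right_injective hq
  have hsupp : ∀ n, n ∉ Set.range (fun k => q ^ k) →
      LSeries.term (fun n => ofPowerSeries q f n) s n = 0 := by
    intro n hn
    rcases eq_or_ne n 0 with rfl | h0
    · simp
    · rw [LSeries.term_of_ne_zero h0, ofPowerSeries_apply hq,
        Function.extend_apply' _ _ _ (by simpa using hn)]
      simp
  rw [← hinj.hasSum_iff hsupp]
  have he : (LSeries.term (fun n => ofPowerSeries q f n) s ∘ (q ^ ·)) =
      fun k => f.coeff k * ((q : ℂ) ^ (-s)) ^ k := by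
    funext k
    have hq0 : q ^ k ≠ 0 := pow_ne_zero _ (by omega)
    simp only [Function.comp_apply]
    rw [LSeries.term_of_ne_zero hq0, ofPowerSeries_apply_pow hq, div_eq_mul_inv]
    congr 1
    push_cast
    rw [Complex.cpow_neg, inv_pow, ← Complex.natCast_cpow_natCast_mul, Complex.cpow_nat_mul]
  rw [he]
  exact h

theorem cast_ofPowerSeries {R : Type*} [CommRing R] {q : ℕ} (hq : 1 < q) (f : PowerSeries ℤ)
    (n : ℕ) : ((ofPowerSeries q f n : ℤ) : R) =
      ofPowerSeries q (PowerSeries.map (Int.castRingHom R) f) n := by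
  rw [ofPowerSeries_apply hq, ofPowerSeries_apply hq]
  by_cases h : ∃ k, q ^ k = n
  · obtain ⟨k, rfl⟩ := h
    rw [(Nat.pow_right_injective hq).extend_apply, (Nat.pow_right_injective hq).extend_apply]
    simp
  · rw [Function.extend_apply' _ _ _ h, Function.extend_apply' _ _ _ h]
    simp

section majorant

variable {ι : Type*}

/-- Domination of arithmetic functions. -/
def Dom (a : ArithmeticFunction ℂ) (g : ArithmeticFunction ℝ) : Prop := ∀ n, ‖a n‖ ≤ g n

theorem Dom.nonneg {a : ArithmeticFunction ℂ} {g : ArithmeticFunction ℝ} (h : Dom a g) (n : ℕ) :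
    0 ≤ g n := (norm_nonneg _).trans (h n)

theorem Dom.mul {a b : ArithmeticFunction ℂ} {g h : ArithmeticFunction ℝ} (h1 : Dom a g)
    (h2 : Dom b h) : Dom (a * b) (g * h) := by
  intro n
  rw [mul_apply, mul_apply]
  refine (norm_sum_le _ _).trans (Finset.sum_le_sum fun x _ => ?_)
  rw [norm_mul]
  exact mul_le_mul (h1 _) (h2 _) (norm_nonneg _) (h1.nonneg _)

theorem Dom.one : Dom 1 1 := by
  intro n
  rcases eq_or_ne n 1 with rfl | h
  · simp
  · rw [one_apply_ne h, one_apply_ne h]; simp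

theorem Dom.prod (S : Finset ι) {a : ι → ArithmeticFunction ℂ} {g : ι → ArithmeticFunction ℝ}
    (h : ∀ i, Dom (a i) (g i)) : Dom (∏ i ∈ S, a i) (∏ i ∈ S, g i) := by
  classical
  induction S using Finset.induction_on with
  | empty => simpa using Dom.one
  | insert i S hi ih =>
    rw [Finset.prod_insert hi, Finset.prod_insert hi]
    exact (h i).mul ih

theorem mul_nonneg' {g h : ArithmeticFunction ℝ} (hg : ∀ n, 0 ≤ g n) (hh : ∀ n, 0 ≤ h n) (n : ℕ) :
    0 ≤ (g * h) n := by
  rw [mul_apply]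
  exact Finset.sum_nonneg fun x _ => mul_nonneg (hg _) (hh _)

theorem prod_nonneg' (S : Finset ι) {g : ι → ArithmeticFunction ℝ} (h : ∀ i n, 0 ≤ g i n) (n : ℕ) :
    0 ≤ (∏ i ∈ S, g i) n := by
  classical
  induction S using Finset.induction_on generalizing n with
  | empty =>
    rcases eq_or_ne n 1 with rfl | h
    · simp
    · simp [one_apply_ne h]
  | insert i S hi ih =>
    rw [Finset.prod_insert hi]
    exact mul_nonneg' (h i) ih n

theorem prod_apply_one (S : Finset ι) {g : ι → ArithmeticFunction ℝ} (h : ∀ i, g i 1 = 1) :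
    (∏ i ∈ S, g i) 1 = 1 := by
  classical
  induction S using Finset.induction_on with
  | empty => simp
  | insert i S hi ih =>
    rw [Finset.prod_insert hi, mul_apply]
    simp [h, ih]

theorem prod_mono {g : ι → ArithmeticFunction ℝ} (h : ∀ i n, 0 ≤ g i n) (h1 : ∀ i, g i 1 = 1)
    {S T : Finset ι} (hST : S ⊆ T) (n : ℕ) : (∏ i ∈ S, g i) n ≤ (∏ i ∈ T, g i) n := by
  classical
  rcases eq_or_ne n 0 with rfl | hn
  · simp
  rw [← Finset.prod_sdiff hST, mul_apply]
  have hmem : (1, n) ∈ n.divisorsAntidiagonal := by simp [hn]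
  have := Finset.single_le_sum (f := fun x : ℕ × ℕ =>
    (∏ i ∈ T \ S, g i) x.1 * (∏ i ∈ S, g i) x.2)
    (fun x _ => mul_nonneg (prod_nonneg' _ h _) (prod_nonneg' _ h _)) hmem
  simpa [prod_apply_one _ h1] using this

/-- A real arithmetic function as a complex one. -/
noncomputable def toC (g : ArithmeticFunction ℝ) : ArithmeticFunction ℂ :=
  ⟨fun n => (g n : ℂ), by simp⟩

@[simp] theorem toC_apply (g : ArithmeticFunction ℝ) (n : ℕ) : toC g n = (g n : ℂ) := rfl

theorem toC_mul (g h : ArithmeticFunction ℝ) : toC (g * h) = toC g * toC h := by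
  ext n
  simp [mul_apply]

theorem toC_one : toC 1 = 1 := by
  ext n
  rcases eq_or_ne n 1 with rfl | h
  · simp
  · simp [one_apply_ne h]

theorem toC_prod (S : Finset ι) (g : ι → ArithmeticFunction ℝ) :
    toC (∏ i ∈ S, g i) = ∏ i ∈ S, toC (g i) := by
  classical
  induction S using Finset.induction_on with
  | empty => simpa using toC_one
  | insert i S hi ih => rw [Finset.prod_insert hi, Finset.prod_insert hi, toC_mul, ih]

theorem cast_prod (S : Finset ι) (g : ι → ArithmeticFunction ℤ) (n : ℕ) :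
    (((∏ i ∈ S, g i) n : ℤ) : ℂ) = (∏ i ∈ S, ((g i : ArithmeticFunction ℤ) :
      ArithmeticFunction ℂ)) n := by
  classical
  have : ((∏ i ∈ S, g i : ArithmeticFunction ℤ) : ArithmeticFunction ℂ) =
      ∏ i ∈ S, ((g i : ArithmeticFunction ℤ) : ArithmeticFunction ℂ) := by
    induction S using Finset.induction_on with
    | empty => simp
    | insert i S hi ih => rw [Finset.prod_insert hi, Finset.prod_insert hi, intCoe_mul, ih]
  rw [← this, intCoe_apply]

theorem lseriesHasSum_one (s : ℂ) : LSeriesHasSum (fun n => (1 : ArithmeticFunction ℂ) n) s 1 := by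
  have h : ∀ n, n ≠ 1 → LSeries.term (fun n => (1 : ArithmeticFunction ℂ) n) s n = 0 := by
    intro n hn
    rcases eq_or_ne n 0 with rfl | h0
    · simp
    · rw [LSeries.term_of_ne_zero h0, one_apply_ne hn]; simp
  have := hasSum_single 1 h
  simpa [LSeriesHasSum, LSeries.term_of_ne_zero] using this

theorem lseriesHasSum_prod (S : Finset ι) {a : ι → ArithmeticFunction ℂ} {F : ι → ℂ} {s : ℂ}
    (h : ∀ i, LSeriesHasSum (fun n => a i n) s (F i)) :
    LSeriesHasSum (fun n => (∏ i ∈ S, a i) n) s (∏ i ∈ S, F i) := by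
  classical
  induction S using Finset.induction_on with
  | empty => simpa using lseriesHasSum_one s
  | insert i S hi ih =>
    rw [Finset.prod_insert hi, Finset.prod_insert hi]
    exact LSeriesHasSum_mul (h i) ih

/-- The majorant power series `1 / (1 - cT)^2`. -/
noncomputable def maj (c : ℝ) : PowerSeries ℝ := PowerSeries.mk fun k => ((k : ℝ) + 1) * c ^ k

theorem hasSum_maj {r : ℝ} (h0 : 0 ≤ r) (h1 : r < 1) :
    HasSum (fun k : ℕ => ((k : ℝ) + 1) * r ^ k) (((1 - r)⁻¹) ^ 2) := by
  have hn : ‖r‖ < 1 := by rwa [Real.norm_of_nonneg h0]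
  have A := hasSum_coe_mul_geometric_of_norm_lt_one hn
  have B := hasSum_geometric_of_norm_lt_one hn
  have C := A.add B
  have hr : (1 - r) ≠ 0 := by linarith
  have e : r / (1 - r) ^ 2 + (1 - r)⁻¹ = ((1 - r)⁻¹) ^ 2 := by
    field_simp
    ring
  rw [e] at C
  have e2 : (fun k : ℕ => ((k : ℝ) + 1) * r ^ k) = fun k : ℕ => (k : ℝ) * r ^ k + r ^ k := by
    funext k; ring
  rw [e2]
  exact C

theorem inv_one_sub_le {r ρ : ℝ} (h0 : 0 ≤ r) (h1 : r ≤ ρ) (hρ : ρ < 1) :
    ((1 - r)⁻¹) ^ 2 ≤ Real.exp (2 / (1 - ρ) * r) := by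
  have hr : 0 < 1 - r := by linarith
  have hρ' : 0 < 1 - ρ := by linarith
  have h2 : (1 - r)⁻¹ = 1 + r / (1 - r) := by field_simp; ring
  have h3 : (1 - r)⁻¹ ≤ Real.exp (r / (1 - ρ)) := by
    rw [h2]
    refine le_trans ?_ (Real.add_one_le_exp _)
    have : r / (1 - r) ≤ r / (1 - ρ) := div_le_div_of_nonneg_left h0 hρ' (by linarith)
    linarith
  calc ((1 - r)⁻¹) ^ 2 ≤ (Real.exp (r / (1 - ρ))) ^ 2 := by
        exact pow_le_pow_left₀ (inv_nonneg.mpr hr.le) h3 2
    _ = Real.exp (2 / (1 - ρ) * r) := by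
        rw [← Real.exp_nat_mul]; congr 1; push_cast; ring

theorem hasProd_eulerProduct (q : ι → ℕ) [Northcott q] (hq : ∀ i, 1 < q i)
    (f : ι → PowerSeries ℤ) (hf : ∀ i, (f i).constantCoeff = 1) (c : ι → ℝ) (hc : ∀ i, 0 ≤ c i)
    (hbd : ∀ i k, |((f i).coeff k : ℝ)| ≤ ((k : ℝ) + 1) * c i ^ k)
    (s : ℂ) (ρ : ℝ) (hρ : ρ < 1) (hr : ∀ i, c i * (q i : ℝ) ^ (-s.re) ≤ ρ)
    (hsum : Summable fun i => c i * (q i : ℝ) ^ (-s.re))
    (F : ι → ℂ)
    (hF : ∀ i, HasSum (fun k => ((f i).coeff k : ℂ) * ((q i : ℂ) ^ (-s)) ^ k) (F i)) :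
    HasProd F (LSeries
      (fun n => ((eulerProduct (fun i => ofPowerSeries (q i) (f i)) n : ℤ) : ℂ)) s) := by
  classical
  set G : ι → ArithmeticFunction ℝ := fun i => ofPowerSeries (q i) (maj (c i)) with hG
  set a : ι → ArithmeticFunction ℂ := fun i =>
    ((ofPowerSeries (q i) (f i) : ArithmeticFunction ℤ) : ArithmeticFunction ℂ) with ha
  have hGn : ∀ i n, 0 ≤ G i n := by
    intro i n
    rw [hG]
    simp only
    rw [ofPowerSeries_apply (hq i)]
    by_cases h : ∃ k, q i ^ k = n
    · obtain ⟨k, rfl⟩ := h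
      rw [(Nat.pow_right_injective (hq i)).extend_apply]
      simp only [maj, PowerSeries.coeff_mk]
      have := hc i
      positivity
    · rw [Function.extend_apply' _ _ _ h]; simp
  have hG1 : ∀ i, G i 1 = 1 := by
    intro i
    simp only [hG, ofPowerSeries_apply_one]
    rw [← PowerSeries.coeff_zero_eq_constantCoeff_apply]
    simp [maj]
  have hDom : ∀ i, Dom (a i) (G i) := by
    intro i n
    simp only [ha, hG, intCoe_apply]
    rw [ofPowerSeries_apply (hq i), ofPowerSeries_apply (hq i)]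
    by_cases h : ∃ k, q i ^ k = n
    · obtain ⟨k, rfl⟩ := h
      rw [(Nat.pow_right_injective (hq i)).extend_apply,
        (Nat.pow_right_injective (hq i)).extend_apply]
      simp only [maj, PowerSeries.coeff_mk]
      refine le_trans (le_of_eq ?_) (hbd i k)
      rw [Complex.norm_intCast]
    · rw [Function.extend_apply' _ _ _ h, Function.extend_apply' _ _ _ h]; simp
  set E : ArithmeticFunction ℝ := eulerProduct G with hE
  have hEv : ∀ n, ∀ᶠ S : Finset ι in atTop, (∏ i ∈ S, G i) n = E n := by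
    intro n
    refine tendsTo_eulerProduct_ofPowerSeries q (fun i => maj (c i)) (fun i => ?_) n
    rw [← PowerSeries.coeff_zero_eq_constantCoeff_apply]
    simp [maj]
  have hle : ∀ (S : Finset ι) n, (∏ i ∈ S, G i) n ≤ E n := by
    intro S n
    obtain ⟨T, hT1, hT2⟩ := ((hEv n).and (eventually_ge_atTop S)).exists
    rw [← hT1]
    exact prod_mono hGn hG1 hT2 n
  -- the Dirichlet series of `G i`
  set r : ι → ℝ := fun i => c i * (q i : ℝ) ^ (-s.re) with hrdef
  have hr0 : ∀ i, 0 ≤ r i := fun i => mul_nonneg (hc i) (Real.rpow_nonneg (by positivity) _)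
  have hLG : ∀ i, LSeriesHasSum (fun n => toC (G i) n) (s.re : ℂ)
      (((((1 - r i)⁻¹) ^ 2 : ℝ)) : ℂ) := by
    intro i
    have h1 : toC (G i) = ofPowerSeries (q i) (PowerSeries.map Complex.ofRealHom (maj (c i))) := by
      ext n
      rw [toC_apply]
      simp only [hG]
      rw [ofPowerSeries_apply (hq i), ofPowerSeries_apply (hq i)]
      by_cases h : ∃ k, q i ^ k = n
      · obtain ⟨k, rfl⟩ := h
        rw [(Nat.pow_right_injective (hq i)).extend_apply,
          (Nat.pow_right_injective (hq i)).extend_apply]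
        simp
      · rw [Function.extend_apply' _ _ _ h, Function.extend_apply' _ _ _ h]; simp
    rw [h1]
    refine lseriesHasSum_ofPowerSeries (hq i) _ _ _ ?_
    have h2 := hasSum_maj (hr0 i) (lt_of_le_of_lt (hr i) hρ)
    have h3 := Complex.hasSum_ofReal.mpr h2
    have e : (fun k => (PowerSeries.coeff k) ((PowerSeries.map Complex.ofRealHom) (maj (c i))) *
        (((q i : ℕ) : ℂ) ^ (-(s.re : ℂ))) ^ k) =
        fun k : ℕ => ((((k : ℝ) + 1) * r i ^ k : ℝ) : ℂ) := by
      funext k
      simp only [maj, PowerSeries.coeff_map, PowerSeries.coeff_mk, hrdef]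
      rw [mul_pow]
      have : (((q i : ℕ) : ℂ) ^ (-(s.re : ℂ))) = (((q i : ℝ) ^ (-s.re) : ℝ) : ℂ) := by
        rw [Complex.ofReal_cpow (by positivity)]
        push_cast
        rfl
      rw [this]
      simp only [Complex.ofRealHom_eq_coe]
      push_cast
      ring
    rw [e]
    exact h3
  have hLP : ∀ S : Finset ι, HasSum (fun n => (∏ i ∈ S, G i) n * (n : ℝ) ^ (-s.re))
      (∏ i ∈ S, ((1 - r i)⁻¹) ^ 2) := by
    intro S
    have h1 := lseriesHasSum_prod S hLG
    rw [← toC_prod] at h1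
    have h2 : HasSum (fun n => (((∏ i ∈ S, G i) n * (n : ℝ) ^ (-s.re) : ℝ) : ℂ))
        ((∏ i ∈ S, ((1 - r i)⁻¹) ^ 2 : ℝ) : ℂ) := by
      rw [Complex.ofReal_prod]
      unfold LSeriesHasSum at h1
      have e : (fun n => (((∏ i ∈ S, G i) n * (n : ℝ) ^ (-s.re) : ℝ) : ℂ)) =
          LSeries.term (fun n => toC (∏ i ∈ S, G i) n) (s.re : ℂ) := by
        funext n
        rcases eq_or_ne n 0 with rfl | hn
        · simp
        · rw [LSeries.term_of_ne_zero hn, toC_apply, div_eq_mul_inv, ← Complex.cpow_neg]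
          push_cast
          congr 1
          rw [Complex.ofReal_cpow (by positivity)]
          push_cast
          rfl
      rw [e]
      exact h1
    exact Complex.hasSum_ofReal.mp h2
  set B : ℝ := Real.exp (2 / (1 - ρ) * ∑' i, r i) with hB
  have hprodB : ∀ S : Finset ι, (∏ i ∈ S, ((1 - r i)⁻¹) ^ 2) ≤ B := by
    intro S
    calc (∏ i ∈ S, ((1 - r i)⁻¹) ^ 2) ≤ ∏ i ∈ S, Real.exp (2 / (1 - ρ) * r i) := by
          refine Finset.prod_le_prod (fun i _ => by positivity) fun i _ => ?_
          exact inv_one_sub_le (hr0 i) (hr i) hρ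
      _ = Real.exp (2 / (1 - ρ) * ∑ i ∈ S, r i) := by
          rw [← Real.exp_sum, Finset.mul_sum]
      _ ≤ B := by
          rw [hB]
          apply Real.exp_le_exp.mpr
          have : 0 ≤ 2 / (1 - ρ) := by
            have : 0 < 1 - ρ := by linarith
            positivity
          exact mul_le_mul_of_nonneg_left (hsum.sum_le_tsum S fun i _ => hr0 i) this
  have hEsum : Summable fun n => E n * (n : ℝ) ^ (-s.re) := by
    have hnn : ∀ n, 0 ≤ E n * (n : ℝ) ^ (-s.re) := fun n =>
      mul_nonneg ((prod_nonneg' ∅ hGn n).trans (hle ∅ n)) (Real.rpow_nonneg (by positivity) _)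
    refine summable_of_sum_le (c := B) hnn fun N => ?_
    have hev : ∀ᶠ S : Finset ι in atTop, ∀ n ∈ N, (∏ i ∈ S, G i) n = E n := by
      rw [Filter.eventually_all_finset]
      exact fun n _ => hEv n
    obtain ⟨S, hS⟩ := hev.exists
    calc ∑ n ∈ N, E n * (n : ℝ) ^ (-s.re)
        = ∑ n ∈ N, (∏ i ∈ S, G i) n * (n : ℝ) ^ (-s.re) :=
          Finset.sum_congr rfl fun n hn => by rw [hS n hn]
      _ ≤ ∏ i ∈ S, ((1 - r i)⁻¹) ^ 2 := by
          refine sum_le_hasSum N (fun n _ => ?_) (hLP S)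
          exact mul_nonneg (prod_nonneg' S hGn n) (Real.rpow_nonneg (by positivity) _)
      _ ≤ B := hprodB S
  -- the Dirichlet series of `a i`
  have hLa : ∀ i, LSeriesHasSum (fun n => a i n) s (F i) := by
    intro i
    have e : (fun n => a i n) = fun n =>
        ofPowerSeries (q i) (PowerSeries.map (Int.castRingHom ℂ) (f i)) n := by
      funext n
      simp only [ha, intCoe_apply]
      exact cast_ofPowerSeries (hq i) (f i) n
    rw [e]
    refine lseriesHasSum_ofPowerSeries (hq i) _ _ _ ?_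
    simpa using hF i
  have hmain := tendsto_tsum_of_dominated_convergence
    (𝓕 := (atTop : Filter (Finset ι)))
    (f := fun S n => LSeries.term (fun n => (∏ i ∈ S, a i) n) s n)
    (g := fun n => LSeries.term
      (fun n => ((eulerProduct (fun i => ofPowerSeries (q i) (f i)) n : ℤ) : ℂ)) s n)
    (bound := fun n => E n * (n : ℝ) ^ (-s.re)) hEsum ?_ ?_
  · have e : (fun S : Finset ι => ∑' n, LSeries.term (fun n => (∏ i ∈ S, a i) n) s n) =
        fun S => ∏ i ∈ S, F i := by
      funext S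
      exact (lseriesHasSum_prod S hLa).tsum_eq
    rw [e] at hmain
    exact hmain
  · intro n
    refine tendsto_const_nhds.congr' ?_
    have := tendsTo_eulerProduct_ofPowerSeries q f hf n
    refine this.mono fun S hS => ?_
    rcases eq_or_ne n 0 with rfl | hn
    · simp
    simp only [LSeries.term_of_ne_zero hn]
    rw [← hS, cast_prod]
  · refine Eventually.of_forall fun S n => ?_
    rcases eq_or_ne n 0 with rfl | hn
    · simp
    rw [LSeries.norm_term_eq, if_neg hn, div_eq_mul_inv, ← Real.rpow_neg (by positivity)]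
    refine mul_le_mul_of_nonneg_right ?_ (Real.rpow_nonneg (by positivity) _)
    exact (Dom.prod S hDom n).trans (hle S n)

end majorant

end Pool.Agent.MPfb225e.Euler
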