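import Mathlib

/-!
MP_fb225e_nt, module D, part 2: the local factors `1 / (1 - a T + b T^2)`.
-/

namespace Pool.Agent.MPfb225e.Local

open Filter Topology

/-- `1 / (1 - α T)`. -/
noncomputable def geo (α : ℂ) : PowerSeries ℂ := PowerSeries.mk fun k => α ^ k

theorem geo_mul (α : ℂ) : (1 - PowerSeries.C α * PowerSeries.X) * geo α = 1 := by
  ext n
  rw [sub_mul, one_mul, map_sub]
  cases n with
  | zero => simp [geo, mul_assoc]
  | succ n =>
    rw [mul_assoc, PowerSeries.coeff_C_mul, PowerSeries.coeff_succ_X_mul]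
    simp only [geo, PowerSeries.coeff_mk, PowerSeries.coeff_one]
    rw [if_neg (by omega), pow_succ]
    ring

/-- The polynomial `1 - a T + b T^2`. -/
noncomputable def lpoly (a b : ℤ) : Polynomial ℤ :=
  1 - Polynomial.C a * Polynomial.X + Polynomial.C b * Polynomial.X ^ 2

/-- The power series `1 / (1 - a T + b T^2)`. -/
noncomputable def lps (a b : ℤ) : PowerSeries ℤ :=
  PowerSeries.invOfUnit (lpoly a b : PowerSeries ℤ) 1

theorem lpoly_mul_lps (a b : ℤ) : (lpoly a b : PowerSeries ℤ) * lps a b = 1 := by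
  apply PowerSeries.mul_invOfUnit
  rw [← PowerSeries.coeff_zero_eq_constantCoeff_apply, Polynomial.coeff_coe]
  simp [lpoly]

theorem constantCoeff_lps (a b : ℤ) : (lps a b).constantCoeff = 1 := by
  simp [lps, PowerSeries.constantCoeff_invOfUnit]

theorem map_lps (a b : ℤ) (α β : ℂ) (h1 : α + β = a) (h2 : α * β = b) :
    PowerSeries.map (Int.castRingHom ℂ) (lps a b) = geo α * geo β := by
  have h3 := congrArg (PowerSeries.map (Int.castRingHom ℂ)) (lpoly_mul_lps a b)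
  rw [map_mul, map_one] at h3
  have h4 : PowerSeries.map (Int.castRingHom ℂ) (lpoly a b : PowerSeries ℤ) =
      (1 - PowerSeries.C α * PowerSeries.X) * (1 - PowerSeries.C β * PowerSeries.X) := by
    have e1 : PowerSeries.map (Int.castRingHom ℂ) (lpoly a b : PowerSeries ℤ) =
        1 - PowerSeries.C (a : ℂ) * PowerSeries.X + PowerSeries.C (b : ℂ) * PowerSeries.X ^ 2 := by
      simp only [lpoly, Polynomial.coe_add, Polynomial.coe_sub, Polynomial.coe_one,
        Polynomial.coe_mul, Polynomial.coe_C, Polynomial.coe_X, Polynomial.coe_pow, map_add,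
        map_sub, map_one, map_mul, map_pow, PowerSeries.map_C, PowerSeries.map_X]
      rfl
    rw [e1, ← h1, ← h2]
    rw [map_add, map_mul]
    ring
  have h5 : (geo α * geo β) * ((1 - PowerSeries.C α * PowerSeries.X) *
      (1 - PowerSeries.C β * PowerSeries.X)) = 1 := by
    have e1 := geo_mul α
    have e2 := geo_mul β
    calc (geo α * geo β) * ((1 - PowerSeries.C α * PowerSeries.X) *
      (1 - PowerSeries.C β * PowerSeries.X)) =
        ((1 - PowerSeries.C α * PowerSeries.X) * geo α) *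
        ((1 - PowerSeries.C β * PowerSeries.X) * geo β) := by ring
      _ = 1 := by rw [e1, e2, one_mul]
  rw [h4] at h3
  calc PowerSeries.map (Int.castRingHom ℂ) (lps a b)
      = ((geo α * geo β) * ((1 - PowerSeries.C α * PowerSeries.X) *
      (1 - PowerSeries.C β * PowerSeries.X))) * PowerSeries.map (Int.castRingHom ℂ) (lps a b) := by
        rw [h5, one_mul]
    _ = (geo α * geo β) * (((1 - PowerSeries.C α * PowerSeries.X) *
      (1 - PowerSeries.C β * PowerSeries.X)) * PowerSeries.map (Int.castRingHom ℂ) (lps a b)) := by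
        ring
    _ = geo α * geo β := by rw [h3, mul_one]

theorem coeff_lps (a b : ℤ) (α β : ℂ) (h1 : α + β = a) (h2 : α * β = b) (k : ℕ) :
    ((PowerSeries.coeff k (lps a b) : ℤ) : ℂ) =
      ∑ x ∈ Finset.HasAntidiagonal.antidiagonal k, α ^ x.1 * β ^ x.2 := by
  have := congrArg (PowerSeries.coeff k) (map_lps a b α β h1 h2)
  rw [PowerSeries.coeff_map, PowerSeries.coeff_mul] at this
  simpa [geo] using this

theorem abs_coeff_lps_le (a b : ℤ) (α β : ℂ) (h1 : α + β = a) (h2 : α * β = b) {c : ℝ}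
    (hα : ‖α‖ ≤ c) (hβ : ‖β‖ ≤ c) (k : ℕ) :
    |((PowerSeries.coeff k (lps a b) : ℤ) : ℝ)| ≤ ((k : ℝ) + 1) * c ^ k := by
  have h3 : |((PowerSeries.coeff k (lps a b) : ℤ) : ℝ)| =
      ‖((PowerSeries.coeff k (lps a b) : ℤ) : ℂ)‖ := by rw [Complex.norm_intCast]
  rw [h3, coeff_lps a b α β h1 h2]
  have hc : 0 ≤ c := (norm_nonneg _).trans hα
  calc ‖∑ x ∈ Finset.HasAntidiagonal.antidiagonal k, α ^ x.1 * β ^ x.2‖
      ≤ ∑ x ∈ Finset.HasAntidiagonal.antidiagonal k, ‖α ^ x.1 * β ^ x.2‖ := norm_sum_le _ _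
    _ ≤ ∑ x ∈ Finset.HasAntidiagonal.antidiagonal k, c ^ k := by
        refine Finset.sum_le_sum fun x hx => ?_
        rw [Finset.HasAntidiagonal.mem_antidiagonal] at hx
        rw [norm_mul, norm_pow, norm_pow, ← hx, pow_add]
        exact mul_le_mul (pow_le_pow_left₀ (norm_nonneg _) hα _)
          (pow_le_pow_left₀ (norm_nonneg _) hβ _) (by positivity) (by positivity)
    _ = ((k : ℝ) + 1) * c ^ k := by
        rw [Finset.sum_const, Finset.Nat.card_antidiagonal, nsmul_eq_mul]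
        push_cast
        ring

theorem hasSum_lps (a b : ℤ) (α β : ℂ) (h1 : α + β = a) (h2 : α * β = b) (z : ℂ)
    (hα : ‖α * z‖ < 1) (hβ : ‖β * z‖ < 1) :
    HasSum (fun k => ((PowerSeries.coeff k (lps a b) : ℤ) : ℂ) * z ^ k)
      ((1 - α * z)⁻¹ * (1 - β * z)⁻¹) := by
  have s1 : Summable fun k : ℕ => ‖(α * z) ^ k‖ := by
    simp only [norm_pow]; exact summable_geometric_of_norm_lt_one (by simpa using hα)
  have s2 : Summable fun k : ℕ => ‖(β * z) ^ k‖ := by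
    simp only [norm_pow]; exact summable_geometric_of_norm_lt_one (by simpa using hβ)
  have e : (fun k => ((PowerSeries.coeff k (lps a b) : ℤ) : ℂ) * z ^ k) =
      fun n => ∑ kl ∈ Finset.HasAntidiagonal.antidiagonal n, (α * z) ^ kl.1 * (β * z) ^ kl.2 := by
    funext k
    rw [coeff_lps a b α β h1 h2, Finset.sum_mul]
    refine Finset.sum_congr rfl fun x hx => ?_
    rw [Finset.HasAntidiagonal.mem_antidiagonal] at hx
    rw [mul_pow, mul_pow, ← hx, pow_add]
    ring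
  rw [e]
  have s3 := (summable_norm_sum_mul_antidiagonal_of_summable_norm s1 s2).of_norm
  have s4 := tsum_mul_tsum_eq_tsum_sum_antidiagonal_of_summable_norm s1 s2
  rw [tsum_geometric_of_norm_lt_one hα, tsum_geometric_of_norm_lt_one hβ] at s4
  rw [s4]
  exact s3.hasSum

/-- The inverse roots of `1 - a T + b T^2`. -/
theorem exists_roots (a b : ℝ) (hb : 0 ≤ b) : ∃ α β : ℂ, α + β = a ∧ α * β = b ∧
    (a ^ 2 ≤ 4 * b → ‖α‖ ≤ √b ∧ ‖β‖ ≤ √b) ∧ ‖α‖ ≤ max (√b) |a| ∧ ‖β‖ ≤ max (√b) |a| := by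
  by_cases h : a ^ 2 ≤ 4 * b
  · set y : ℝ := √(b - a ^ 2 / 4) with hy
    have hy2 : y ^ 2 = b - a ^ 2 / 4 := Real.sq_sqrt (by linarith)
    have hn : ∀ w : ℂ, w.re = a / 2 → (w.im = y ∨ w.im = -y) → ‖w‖ = √b := by
      intro w h1 h2
      rw [Complex.norm_def, Complex.normSq_apply, h1]
      congr 1
      rcases h2 with h2 | h2 <;> rw [h2] <;> nlinarith
    have hα : ‖(⟨a / 2, y⟩ : ℂ)‖ = √b := hn _ rfl (Or.inl rfl)
    have hβ : ‖(⟨a / 2, -y⟩ : ℂ)‖ = √b := hn _ rfl (Or.inr rfl)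
    refine ⟨⟨a / 2, y⟩, ⟨a / 2, -y⟩, ?_, ?_, fun _ => ⟨hα.le, hβ.le⟩, ?_, ?_⟩
    · apply Complex.ext <;> simp
    · apply Complex.ext
      · simp; nlinarith
      · simp; ring
    · rw [hα]; exact le_max_left _ _
    · rw [hβ]; exact le_max_left _ _
  · push Not at h
    set d : ℝ := √(a ^ 2 - 4 * b) with hd
    have hd2 : d ^ 2 = a ^ 2 - 4 * b := Real.sq_sqrt (by linarith)
    have hd0 : 0 ≤ d := Real.sqrt_nonneg _
    have hd1 : d ≤ |a| := by
      rw [hd, ← Real.sqrt_sq_eq_abs]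
      exact Real.sqrt_le_sqrt (by linarith)
    have hb1 : |(a + d) / 2| ≤ |a| := by
      rw [abs_le]; constructor
      · have := neg_abs_le a; linarith
      · have := le_abs_self a; linarith
    have hb2 : |(a - d) / 2| ≤ |a| := by
      rw [abs_le]; constructor
      · have := neg_abs_le a; linarith
      · have := le_abs_self a; linarith
    refine ⟨((a + d) / 2 : ℝ), ((a - d) / 2 : ℝ), ?_, ?_, fun h' => absurd h' (not_le.mpr h), ?_, ?_⟩
    · rw [← Complex.ofReal_add]; congr 1; ring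
    · rw [← Complex.ofReal_mul]; congr 1; nlinarith
    · rw [Complex.norm_real, Real.norm_eq_abs]; exact hb1.trans (le_max_right _ _)
    · rw [Complex.norm_real, Real.norm_eq_abs]; exact hb2.trans (le_max_right _ _)

/-- First-order estimate for `log |1 - w|`. -/
theorem abs_log_norm_one_sub_le {w : ℂ} {ρ : ℝ} (h : ‖w‖ ≤ ρ) (hρ : ρ < 1) :
    |Real.log ‖1 - w‖| ≤ 2 / (1 - ρ) * ‖w‖ := by
  have hw : ‖-w‖ < 1 := by rw [norm_neg]; linarith
  have h1 := Complex.norm_log_one_add_le hw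
  have h2 : Real.log ‖1 - w‖ = (Complex.log (1 + -w)).re := by
    rw [Complex.log_re]; rw [← sub_eq_add_neg]
  rw [h2]
  refine (Complex.abs_re_le_norm _).trans (h1.trans ?_)
  rw [norm_neg]
  have hρ' : 0 < 1 - ρ := by linarith
  have h0 : 0 ≤ ‖w‖ := norm_nonneg _
  have h3 : (1 - ‖w‖)⁻¹ ≤ (1 - ρ)⁻¹ := inv_anti₀ hρ' (by linarith)
  have h4 : 1 ≤ (1 - ρ)⁻¹ := by
    rw [one_le_inv₀ hρ']
    linarith
  have h5 : ‖w‖ ^ 2 * (1 - ‖w‖)⁻¹ ≤ ‖w‖ * (1 - ρ)⁻¹ := by
    have : ‖w‖ ^ 2 ≤ ‖w‖ := by nlinarith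
    have h6 : 0 ≤ (1 - ‖w‖)⁻¹ := inv_nonneg.mpr (by linarith)
    exact mul_le_mul this h3 h6 h0
  have h7 : ‖w‖ ≤ ‖w‖ * (1 - ρ)⁻¹ := le_mul_of_one_le_right h0 h4
  have h8 : 2 / (1 - ρ) * ‖w‖ = ‖w‖ * (1 - ρ)⁻¹ + ‖w‖ * (1 - ρ)⁻¹ := by
    rw [div_eq_mul_inv]; ring
  have h9 : 0 ≤ ‖w‖ * (1 - ρ)⁻¹ := by positivity
  rw [h8]
  linarith

/-- Second-order estimate for `log |1 - w|`. -/
theorem abs_log_norm_one_sub_add_re_le {w : ℂ} {ρ : ℝ} (h : ‖w‖ ≤ ρ) (hρ : ρ < 1) :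
    |-Real.log ‖1 - w‖ - w.re| ≤ 1 / (1 - ρ) * ‖w‖ ^ 2 := by
  have hw : ‖-w‖ < 1 := by rw [norm_neg]; linarith
  have h1 := Complex.norm_log_one_add_sub_self_le hw
  have h2 : -Real.log ‖1 - w‖ - w.re = -(Complex.log (1 + -w) - -w).re := by
    rw [Complex.sub_re, Complex.log_re, ← sub_eq_add_neg, Complex.neg_re]; ring
  rw [h2, abs_neg]
  refine (Complex.abs_re_le_norm _).trans (h1.trans ?_)
  rw [norm_neg]
  have hρ' : 0 < 1 - ρ := by linarith
  have h0 : 0 ≤ ‖w‖ ^ 2 := by positivity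
  have h3 : (1 - ‖w‖)⁻¹ ≤ (1 - ρ)⁻¹ := inv_anti₀ hρ' (by linarith)
  have h6 : 0 ≤ (1 - ‖w‖)⁻¹ := inv_nonneg.mpr (by linarith)
  rw [one_div]
  nlinarith [mul_le_mul_of_nonneg_left h3 h0]

end Pool.Agent.MPfb225e.Local
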