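import Mathlib
import Pool.Agent.Lib.MP_fb225e_nt.Euler
import Pool.Agent.Lib.MP_fb225e_nt.Local

/-!
MP_fb225e_nt, module D, part 3: the logarithm of an Euler product of degree 2 near the edge of
absolute convergence.
-/

namespace Pool.Agent.MPfb225e.LogExp

open ArithmeticFunction Filter Topology Euler Local

variable {ι : Type*}

/-- The data of an Euler product of degree two. -/
structure Data (q : ι → ℕ) (a b : ι → ℤ) (α β : ι → ℂ) (c : ι → ℝ) (Z : Set ι) : Prop where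
  hq : ∀ i, 1 < q i
  hsum : ∀ σ : ℝ, 1 < σ → Summable fun i => (q i : ℝ) ^ (-σ)
  hZ : Z.Finite
  hadd : ∀ i, α i + β i = a i
  hmul : ∀ i, α i * β i = b i
  hα : ∀ i, ‖α i‖ ≤ c i
  hβ : ∀ i, ‖β i‖ ≤ c i
  hcq : ∀ i, c i ≤ q i
  hcZ : ∀ i, i ∉ Z → c i = √(q i)

/-- The L-series. -/
noncomputable def L (q : ι → ℕ) (a b : ι → ℤ) (s : ℂ) : ℂ :=
  LSeries (fun n => ((eulerProduct (fun i => ofPowerSeries (q i) (lps (a i) (b i))) n : ℤ) : ℂ)) s

/-- The local factor. -/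
noncomputable def fac (q : ι → ℕ) (α β : ι → ℂ) (s : ℂ) (i : ι) : ℂ :=
  (1 - α i * (q i : ℂ) ^ (-s))⁻¹ * (1 - β i * (q i : ℂ) ^ (-s))⁻¹

theorem norm_cpow_neg {q : ℕ} (hq : 1 < q) (s : ℂ) : ‖(q : ℂ) ^ (-s)‖ = (q : ℝ) ^ (-s.re) := by
  rw [Complex.norm_natCast_cpow_of_pos (by omega)]
  simp

theorem re_cpow_neg {q : ℕ} (hq : 1 < q) (s : ℂ) :
    ((q : ℂ) ^ (-s)).re = (q : ℝ) ^ (-s.re) * Real.cos (s.im * Real.log q) := by
  have hq0 : (q : ℂ) ≠ 0 := by exact_mod_cast (by omega : q ≠ 0)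
  have hq0' : (0 : ℝ) < q := by exact_mod_cast (by omega : 0 < q)
  rw [Complex.cpow_def_of_ne_zero hq0, Complex.exp_re, ← Complex.natCast_log,
    Real.rpow_def_of_pos hq0']
  have e1 : ((Real.log q : ℂ) * (-s)).re = Real.log q * (-s.re) := by
    rw [Complex.re_ofReal_mul, Complex.neg_re]
  have e2 : ((Real.log q : ℂ) * (-s)).im = -(s.im * Real.log q) := by
    rw [Complex.im_ofReal_mul, Complex.neg_im]; ring
  rw [e1, e2, Real.cos_neg]

/-- The constant `2 ^ (-1/2) < 1`. -/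
noncomputable def rho : ℝ := (2 : ℝ) ^ (-(1 / 2 : ℝ))

theorem rho_lt : rho < 1 := by
  unfold rho
  exact Real.rpow_lt_one_of_one_lt_of_neg (by norm_num) (by norm_num)

variable {q : ι → ℕ} {a b : ι → ℤ} {α β : ι → ℂ} {c : ι → ℝ} {Z : Set ι}

namespace Data

variable (D : Data q a b α β c Z)

include D

theorem c_nonneg (i : ι) : 0 ≤ c i := (norm_nonneg _).trans (D.hα i)

theorem r_le {s : ℂ} (hs : 3 / 2 < s.re) (i : ι) : c i * (q i : ℝ) ^ (-s.re) ≤ rho := by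
  have hq := D.hq i
  have hq2 : (2 : ℝ) ≤ q i := by exact_mod_cast hq
  have hq0 : (0 : ℝ) < q i := by linarith
  calc c i * (q i : ℝ) ^ (-s.re) ≤ (q i : ℝ) * (q i : ℝ) ^ (-s.re) :=
        mul_le_mul_of_nonneg_right (D.hcq i) (Real.rpow_nonneg hq0.le _)
    _ = (q i : ℝ) ^ (1 - s.re) := by
        rw [sub_eq_add_neg, Real.rpow_add hq0, Real.rpow_one]
    _ ≤ (q i : ℝ) ^ (-(1 / 2 : ℝ)) :=
        Real.rpow_le_rpow_of_exponent_le (by linarith) (by linarith)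
    _ ≤ rho := by
        unfold rho
        exact Real.rpow_le_rpow_of_nonpos (by norm_num) hq2 (by norm_num)

theorem norm_α {s : ℂ} (i : ι) : ‖α i * (q i : ℂ) ^ (-s)‖ ≤ c i * (q i : ℝ) ^ (-s.re) := by
  rw [norm_mul, norm_cpow_neg (D.hq i)]
  exact mul_le_mul_of_nonneg_right (D.hα i) (Real.rpow_nonneg (by positivity) _)

theorem norm_β {s : ℂ} (i : ι) : ‖β i * (q i : ℂ) ^ (-s)‖ ≤ c i * (q i : ℝ) ^ (-s.re) := by
  rw [norm_mul, norm_cpow_neg (D.hq i)]
  exact mul_le_mul_of_nonneg_right (D.hβ i) (Real.rpow_nonneg (by positivity) _)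

theorem r_eq {s : ℂ} {i : ι} (hi : i ∉ Z) :
    c i * (q i : ℝ) ^ (-s.re) = (q i : ℝ) ^ (-(s.re - 1 / 2)) := by
  have hq := D.hq i
  have hq0 : (0 : ℝ) < q i := by exact_mod_cast (by omega : 0 < q i)
  rw [D.hcZ i hi, Real.sqrt_eq_rpow, ← Real.rpow_add hq0]
  congr 1
  ring

theorem summable_r {s : ℂ} (hs : 3 / 2 < s.re) : Summable fun i => c i * (q i : ℝ) ^ (-s.re) := by
  have h1 := D.hsum (s.re - 1 / 2) (by linarith)
  refine Summable.of_norm_bounded_eventually h1 ?_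
  have : ∀ᶠ i in cofinite, i ∉ Z := D.hZ.eventually_cofinite_notMem
  filter_upwards [this] with i hi
  rw [D.r_eq hi, Real.norm_of_nonneg (Real.rpow_nonneg (by positivity) _)]

theorem hasProd [Northcott q] {s : ℂ} (hs : 3 / 2 < s.re) : HasProd (fac q α β s) (L q a b s) := by
  refine hasProd_eulerProduct q D.hq _ (fun i => constantCoeff_lps _ _) c D.c_nonneg ?_ s rho
    rho_lt (D.r_le hs) (D.summable_r hs) _ ?_
  · intro i k
    exact abs_coeff_lps_le _ _ _ _ (D.hadd i) (D.hmul i) (D.hα i) (D.hβ i) k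
  · intro i
    refine hasSum_lps _ _ _ _ (D.hadd i) (D.hmul i) _ ?_ ?_
    · exact lt_of_le_of_lt ((D.norm_α i).trans (D.r_le hs i)) rho_lt
    · exact lt_of_le_of_lt ((D.norm_β i).trans (D.r_le hs i)) rho_lt

theorem one_sub_ne {s : ℂ} (hs : 3 / 2 < s.re) (i : ι) :
    1 - α i * (q i : ℂ) ^ (-s) ≠ 0 ∧ 1 - β i * (q i : ℂ) ^ (-s) ≠ 0 := by
  constructor
  · intro h
    have h1 : ‖α i * (q i : ℂ) ^ (-s)‖ = 1 := by
      rw [← sub_eq_zero.mp h]; simp
    have h2 := (D.norm_α (s := s) i).trans (D.r_le hs i)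
    have := rho_lt
    linarith
  · intro h
    have h1 : ‖β i * (q i : ℂ) ^ (-s)‖ = 1 := by
      rw [← sub_eq_zero.mp h]; simp
    have h2 := (D.norm_β (s := s) i).trans (D.r_le hs i)
    have := rho_lt
    linarith

theorem log_fac {s : ℂ} (hs : 3 / 2 < s.re) (i : ι) :
    Real.log ‖fac q α β s i‖ =
      -Real.log ‖1 - α i * (q i : ℂ) ^ (-s)‖ - Real.log ‖1 - β i * (q i : ℂ) ^ (-s)‖ := by
  obtain ⟨h1, h2⟩ := D.one_sub_ne hs i
  unfold fac
  rw [norm_mul, norm_inv, norm_inv, Real.log_mul, Real.log_inv, Real.log_inv]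
  · ring
  · exact inv_ne_zero (norm_ne_zero_iff.mpr h1)
  · exact inv_ne_zero (norm_ne_zero_iff.mpr h2)

theorem fac_ne {s : ℂ} (hs : 3 / 2 < s.re) (i : ι) : fac q α β s i ≠ 0 := by
  obtain ⟨h1, h2⟩ := D.one_sub_ne hs i
  exact mul_ne_zero (inv_ne_zero h1) (inv_ne_zero h2)

/-- crude bound for the local logarithm -/
theorem abs_log_fac_le {s : ℂ} (hs : 3 / 2 < s.re) (i : ι) :
    |Real.log ‖fac q α β s i‖| ≤ 4 / (1 - rho) * (c i * (q i : ℝ) ^ (-s.re)) := by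
  rw [D.log_fac hs]
  have h1 := abs_log_norm_one_sub_le ((D.norm_α (s := s) i).trans (D.r_le hs i)) rho_lt
  have h2 := abs_log_norm_one_sub_le ((D.norm_β (s := s) i).trans (D.r_le hs i)) rho_lt
  have hρ : 0 < 1 - rho := by linarith [rho_lt]
  have h3 := mul_le_mul_of_nonneg_left (D.norm_α (s := s) i) (by positivity : 0 ≤ 2 / (1 - rho))
  have h4 := mul_le_mul_of_nonneg_left (D.norm_β (s := s) i) (by positivity : 0 ≤ 2 / (1 - rho))
  have h5 : 4 / (1 - rho) * (c i * (q i : ℝ) ^ (-s.re)) =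
      2 / (1 - rho) * (c i * (q i : ℝ) ^ (-s.re)) +
      2 / (1 - rho) * (c i * (q i : ℝ) ^ (-s.re)) := by ring
  rw [h5]
  refine (abs_sub _ _).trans ?_
  rw [abs_neg]
  linarith

/-- precise expansion of the local logarithm -/
theorem abs_log_fac_sub_le {s : ℂ} (hs : 3 / 2 < s.re) {i : ι} (hi : i ∉ Z) :
    |Real.log ‖fac q α β s i‖ - (a i : ℝ) * ((q i : ℝ) ^ (-s.re) * Real.cos (s.im * Real.log (q i)))|
      ≤ 2 / (1 - rho) * (q i : ℝ) ^ (-(2 : ℝ)) := by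
  rw [D.log_fac hs]
  have hq := D.hq i
  have hq1 : (1 : ℝ) ≤ q i := by exact_mod_cast (by omega : 1 ≤ q i)
  have hq0 : (0 : ℝ) < q i := by linarith
  have hρ : 0 < 1 - rho := by linarith [rho_lt]
  have h1 := abs_log_norm_one_sub_add_re_le ((D.norm_α (s := s) i).trans (D.r_le hs i)) rho_lt
  have h2 := abs_log_norm_one_sub_add_re_le ((D.norm_β (s := s) i).trans (D.r_le hs i)) rho_lt
  have e1 : (a i : ℝ) * ((q i : ℝ) ^ (-s.re) * Real.cos (s.im * Real.log (q i))) =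
      (α i * (q i : ℂ) ^ (-s)).re + (β i * (q i : ℂ) ^ (-s)).re := by
    rw [← Complex.add_re, ← add_mul, D.hadd i, ← re_cpow_neg hq]
    rw [Complex.mul_re]
    simp
  have hr : c i * (q i : ℝ) ^ (-s.re) ≤ (q i : ℝ) ^ (-(1 : ℝ)) := by
    rw [D.r_eq hi]
    exact Real.rpow_le_rpow_of_exponent_le hq1 (by linarith)
  have hr0 : 0 ≤ c i * (q i : ℝ) ^ (-s.re) :=
    mul_nonneg (D.c_nonneg i) (Real.rpow_nonneg hq0.le _)
  have hsq : ∀ w : ℂ, ‖w‖ ≤ c i * (q i : ℝ) ^ (-s.re) → ‖w‖ ^ 2 ≤ (q i : ℝ) ^ (-(2 : ℝ)) := by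
    intro w hw
    calc ‖w‖ ^ 2 ≤ ((q i : ℝ) ^ (-(1 : ℝ))) ^ 2 :=
          pow_le_pow_left₀ (norm_nonneg _) (hw.trans hr) 2
      _ = (q i : ℝ) ^ (-(2 : ℝ)) := by
          rw [← Real.rpow_natCast, ← Real.rpow_mul hq0.le]
          norm_num
  have h3 := mul_le_mul_of_nonneg_left (hsq _ (D.norm_α (s := s) i))
    (by positivity : 0 ≤ 1 / (1 - rho))
  have h4 := mul_le_mul_of_nonneg_left (hsq _ (D.norm_β (s := s) i))
    (by positivity : 0 ≤ 1 / (1 - rho))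
  rw [e1]
  have e2 : -Real.log ‖1 - α i * (q i : ℂ) ^ (-s)‖ - Real.log ‖1 - β i * (q i : ℂ) ^ (-s)‖ -
      ((α i * (q i : ℂ) ^ (-s)).re + (β i * (q i : ℂ) ^ (-s)).re) =
      (-Real.log ‖1 - α i * (q i : ℂ) ^ (-s)‖ - (α i * (q i : ℂ) ^ (-s)).re) +
      (-Real.log ‖1 - β i * (q i : ℂ) ^ (-s)‖ - (β i * (q i : ℂ) ^ (-s)).re) := by ring
  rw [e2]
  refine (abs_add_le _ _).trans ?_
  have e3 : 2 / (1 - rho) * (q i : ℝ) ^ (-(2 : ℝ)) = 1 / (1 - rho) * (q i : ℝ) ^ (-(2 : ℝ)) +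
      1 / (1 - rho) * (q i : ℝ) ^ (-(2 : ℝ)) := by ring
  rw [e3]
  linarith

theorem summable_log [Northcott q] {s : ℂ} (hs : 3 / 2 < s.re) :
    Summable fun i => Real.log ‖fac q α β s i‖ := by
  refine Summable.of_norm_bounded ((D.summable_r hs).mul_left (4 / (1 - rho))) fun i => ?_
  rw [Real.norm_eq_abs]
  exact D.abs_log_fac_le hs i

theorem norm_L [Northcott q] {s : ℂ} (hs : 3 / 2 < s.re) :
    ‖L q a b s‖ = Real.exp (∑' i, Real.log ‖fac q α β s i‖) := by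
  have h1 := (D.hasProd hs).norm
  have h2 := (D.summable_log hs).hasSum.rexp
  have h3 : (Real.exp ∘ fun i => Real.log ‖fac q α β s i‖) = fun i => ‖fac q α β s i‖ := by
    funext i
    simp only [Function.comp_apply]
    exact Real.exp_log (norm_pos_iff.mpr (D.fac_ne hs i))
  rw [h3] at h2
  exact h1.unique h2

theorem L_ne [Northcott q] {s : ℂ} (hs : 3 / 2 < s.re) : L q a b s ≠ 0 := by
  rw [← norm_ne_zero_iff, D.norm_L hs]
  exact Real.exp_ne_zero _

theorem log_L [Northcott q] {s : ℂ} (hs : 3 / 2 < s.re) :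
    Real.log ‖L q a b s‖ = ∑' i, Real.log ‖fac q α β s i‖ := by
  rw [D.norm_L hs, Real.log_exp]

end Data

open Classical in
/-- The numbers `x_v`. -/
noncomputable def xs (q : ι → ℕ) (a : ι → ℤ) (Z : Set ι) (i : ι) : ℝ :=
  if i ∈ Z then 0 else (a i : ℝ) / √(q i)

namespace Data

variable (D : Data q a b α β c Z)

include D

theorem abs_xs_le (i : ι) : |xs q a Z i| ≤ 2 := by
  unfold xs
  split_ifs with hi
  · simp
  · have hq0 : (0 : ℝ) < q i := by exact_mod_cast (lt_trans Nat.zero_lt_one (D.hq i))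
    have hs : 0 < √(q i : ℝ) := Real.sqrt_pos.mpr hq0
    rw [abs_div, abs_of_pos hs, div_le_iff₀ hs]
    have h1 : |(a i : ℝ)| = ‖(a i : ℂ)‖ := by rw [Complex.norm_intCast]
    rw [h1, ← D.hadd i]
    have h2 := D.hα i
    have h3 := D.hβ i
    rw [D.hcZ i hi] at h2 h3
    exact (norm_add_le _ _).trans (by linarith)

theorem expansion [Northcott q] : ∃ B : ℝ, ∀ t ε : ℝ, 0 < ε → ε ≤ 1 →
    |Real.log ‖L q a b ((3 / 2 + ε : ℝ) + t * Complex.I)‖ -
      ∑' i, xs q a Z i * ((q i : ℝ) ^ (-(1 + ε)) * Real.cos (t * Real.log (q i)))| ≤ B := by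
  classical
  have hρ : 0 < 1 - rho := by linarith [rho_lt]
  set g : ι → ℝ := fun i => 2 / (1 - rho) * (q i : ℝ) ^ (-(2 : ℝ)) +
    (if i ∈ Z then 4 / (1 - rho) * rho else 0) with hg
  have hgs : Summable g := by
    refine ((D.hsum 2 (by norm_num)).mul_left _).add ?_
    refine summable_of_hasFiniteSupport ?_
    exact D.hZ.subset fun i hi => by
      by_contra h
      simp [h] at hi
  refine ⟨∑' i, g i, fun t ε hε hε1 => ?_⟩
  set s : ℂ := (3 / 2 + ε : ℝ) + t * Complex.I with hs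
  have hre : s.re = 3 / 2 + ε := by simp [hs]
  have him : s.im = t := by simp [hs]
  have hs32 : 3 / 2 < s.re := by rw [hre]; linarith
  rw [D.log_L hs32]
  have hsx : Summable fun i => xs q a Z i * ((q i : ℝ) ^ (-(1 + ε)) *
      Real.cos (t * Real.log (q i))) := by
    refine Summable.of_norm_bounded ((D.hsum (1 + ε) (by linarith)).mul_left 2) fun i => ?_
    rw [norm_mul, norm_mul, Real.norm_eq_abs, Real.norm_eq_abs, Real.norm_eq_abs]
    have h1 := D.abs_xs_le i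
    have h2 : |Real.cos (t * Real.log (q i))| ≤ 1 := Real.abs_cos_le_one _
    have h3 : 0 ≤ (q i : ℝ) ^ (-(1 + ε)) := Real.rpow_nonneg (by positivity) _
    rw [abs_of_nonneg h3]
    calc |xs q a Z i| * ((q i : ℝ) ^ (-(1 + ε)) * |Real.cos (t * Real.log (q i))|)
        ≤ 2 * ((q i : ℝ) ^ (-(1 + ε)) * 1) := by
          refine mul_le_mul h1 (mul_le_mul_of_nonneg_left h2 h3) (by positivity) (by norm_num)
      _ = 2 * (q i : ℝ) ^ (-(1 + ε)) := by ring
  rw [← (D.summable_log hs32).tsum_sub hsx]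
  have hb : ∀ i, ‖Real.log ‖fac q α β s i‖ - xs q a Z i * ((q i : ℝ) ^ (-(1 + ε)) *
      Real.cos (t * Real.log (q i)))‖ ≤ g i := by
    intro i
    have hq := D.hq i
    have hq0 : (0 : ℝ) < q i := by exact_mod_cast (by omega : 0 < q i)
    rw [Real.norm_eq_abs]
    by_cases hi : i ∈ Z
    · have h1 := D.abs_log_fac_le hs32 i
      have h2 := D.r_le hs32 i
      have h3 := mul_le_mul_of_nonneg_left h2 (by positivity : 0 ≤ 4 / (1 - rho))
      have h4 : 0 ≤ 2 / (1 - rho) * (q i : ℝ) ^ (-(2 : ℝ)) := by positivity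
      simp only [hg, xs, if_pos hi, zero_mul, sub_zero]
      linarith
    · have h1 := D.abs_log_fac_sub_le hs32 hi
      have e : xs q a Z i * ((q i : ℝ) ^ (-(1 + ε)) * Real.cos (t * Real.log (q i))) =
          (a i : ℝ) * ((q i : ℝ) ^ (-s.re) * Real.cos (s.im * Real.log (q i))) := by
        rw [hre, him]
        simp only [xs, if_neg hi]
        have e1 : (q i : ℝ) ^ (-(1 + ε)) = √(q i : ℝ) * (q i : ℝ) ^ (-(3 / 2 + ε)) := by
          rw [Real.sqrt_eq_rpow, ← Real.rpow_add hq0]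
          congr 1
          ring
        have hsq : √(q i : ℝ) ≠ 0 := (Real.sqrt_pos.mpr hq0).ne'
        rw [e1]
        field_simp
      rw [e]
      simp only [hg, if_neg hi, add_zero]
      exact h1
  exact (norm_tsum_le_tsum_norm (Summable.of_nonneg_of_le (fun _ => norm_nonneg _) hb hgs)).trans
    ((Summable.of_nonneg_of_le (fun _ => norm_nonneg _) hb hgs).tsum_le_tsum hb hgs)

end Data

end Pool.Agent.MPfb225e.LogExp
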