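import Mathlib

/-!
MP_fb225e_nt, module D, part 4: the residue field of the completion at a finite place.
-/

namespace Pool.Agent.MPfb225e.Residue

open IsDedekindDomain HeightOneSpectrum NumberField IsLocalRing Topology

variable {R : Type*} [CommRing R] [IsDedekindDomain R] (K : Type*) [Field K] [Algebra R K]
  [IsFractionRing R K] (v : HeightOneSpectrum R)

/-- The map from the global integers to the residue field of the completion. -/
noncomputable def phi : R →+* ResidueField (v.adicCompletionIntegers K) :=
  (residue (v.adicCompletionIntegers K)).comp (algebraMap R (v.adicCompletionIntegers K))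

theorem mem_maximalIdeal_iff (x : v.adicCompletionIntegers K) :
    x ∈ maximalIdeal (v.adicCompletionIntegers K) ↔ Valued.v (x : v.adicCompletion K) < 1 := by
  rw [mem_maximalIdeal, mem_nonunits_iff, adicCompletionIntegers.isUnit_iff_valued_eq_one]
  have h : Valued.v (x : v.adicCompletion K) ≤ 1 := x.2
  constructor
  · intro h1; exact lt_of_le_of_ne h h1
  · intro h1; exact h1.ne

theorem phi_eq_zero_iff (r : R) : phi K v r = 0 ↔ r ∈ v.asIdeal := by
  unfold phi
  rw [RingHom.comp_apply, residue_eq_zero_iff, mem_maximalIdeal_iff]
  have h : Valued.v ((algebraMap R (v.adicCompletionIntegers K) r : v.adicCompletionIntegers K) :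
      v.adicCompletion K) = v.valuation K (algebraMap R K r) :=
    valuedAdicCompletion_eq_valuation v r
  rw [h]
  exact v.valuation_lt_one_iff_mem r

theorem ker_phi : RingHom.ker (phi K v) = v.asIdeal := by
  ext r
  rw [RingHom.mem_ker, phi_eq_zero_iff]

theorem phi_surjective : Function.Surjective (phi K v) := by
  intro y
  obtain ⟨x, rfl⟩ := residue_surjective y
  have hx : Valued.v (x : v.adicCompletion K) ≤ 1 := x.2
  have hd : DenseRange (algebraMap K (v.adicCompletion K)) := v.denseRange_algebraMap (K := K)
  have hnb : {y : v.adicCompletion K | Valued.v (y - (x : v.adicCompletion K)) < 1} ∈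
      𝓝 (x : v.adicCompletion K) := by
    rw [Valued.mem_nhds]
    refine ⟨1, fun y hy => ?_⟩
    rw [Set.mem_ofPred_eq, Valuation.restrict_lt_iff_lt_embedding, Units.val_one, map_one] at hy
    exact hy
  obtain ⟨k, hk⟩ := hd.exists_mem_open (s := interior _) isOpen_interior
    ⟨_, mem_interior_iff_mem_nhds.mpr hnb⟩
  have hk2 := interior_subset hk
  rw [Set.mem_ofPred_eq] at hk2
  have hk' : Valued.v ((algebraMap K (v.adicCompletion K) k) - (x : v.adicCompletion K)) < 1 := hk2
  have hk1 : v.valuation K k ≤ 1 := by
    have h1 : Valued.v (algebraMap K (v.adicCompletion K) k) = v.valuation K k :=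
      valuedAdicCompletion_eq_valuation' v k
    rw [← h1]
    have h2 : (algebraMap K (v.adicCompletion K) k) =
      ((algebraMap K (v.adicCompletion K) k) - (x : v.adicCompletion K)) + x := by ring
    rw [h2]
    exact (Valuation.map_add _ _ _).trans (max_le hk'.le hx)
  obtain ⟨r, hr⟩ := v.exists_valuation_sub_lt_of_integer hk1 1
  rw [Units.val_one] at hr
  refine ⟨r, ?_⟩
  rw [← sub_eq_zero]
  unfold phi
  rw [RingHom.comp_apply, ← map_sub, residue_eq_zero_iff, mem_maximalIdeal_iff]
  have e1 : ((algebraMap R (v.adicCompletionIntegers K) r - x : v.adicCompletionIntegers K) :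
      v.adicCompletion K) = (algebraMap K (v.adicCompletion K) (algebraMap R K r - k)) +
        ((algebraMap K (v.adicCompletion K) k) - (x : v.adicCompletion K)) := by
    rw [map_sub]
    simp
    rfl
  rw [e1]
  refine lt_of_le_of_lt (Valuation.map_add _ _ _) (max_lt ?_ hk')
  have h1 : Valued.v (algebraMap K (v.adicCompletion K) (algebraMap R K r - k)) =
      v.valuation K (algebraMap R K r - k) := valuedAdicCompletion_eq_valuation' v _
  rw [h1]
  exact hr

theorem card_residue :
    Nat.card (ResidueField (v.adicCompletionIntegers K)) = Nat.card (R ⧸ v.asIdeal) := by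
  have e := RingHom.quotientKerEquivOfSurjective (phi_surjective K v)
  have e2 := Ideal.quotEquivOfEq (ker_phi K v)
  exact (Nat.card_congr (e2.symm.trans e).toEquiv).symm

end Pool.Agent.MPfb225e.Residue
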