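import Mathlib
import Pool.Agent.Lib.MP_fb225e_nt.Interface
import Pool.Agent.Lib.MP_fb225e_nt.LogExp
import Pool.Agent.Lib.MP_fb225e_nt.Residue

/-!
MP_fb225e_nt, module D, part 5: `Hasse → Orthogonality K → LogExpansion W`.
-/

namespace Pool.Agent.MPfb225e.Curve

open IsDedekindDomain HeightOneSpectrum NumberField IsLocalRing Local LogExp
open ArithmeticFunction (ofPowerSeries eulerProduct)

universe u

/-! ### The trivial bound for the number of points -/

section points

variable {k : Type u} [Field k] (W : WeierstrassCurve k)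

/-- `Point` injects into `Option (k × k)`. -/
def toOpt : W.toAffine.Point → Option (k × k)
  | .zero => none
  | .some x y _ => some (x, y)

theorem toOpt_injective : Function.Injective (toOpt W) := by
  intro P Q h
  cases P with
  | zero => cases Q with
    | zero => rfl
    | some x y hxy => simp [toOpt] at h
  | some x y hxy => cases Q with
    | zero => simp [toOpt] at h
    | some x' y' hxy' =>
      simp only [toOpt, Option.some.injEq, Prod.mk.injEq] at h
      obtain ⟨rfl, rfl⟩ := h
      rfl

variable [Finite k]

instance : Finite W.toAffine.Point := Finite.of_injective _ (toOpt_injective W)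

theorem one_le_card : 1 ≤ Nat.card W.toAffine.Point := by
  have : Nonempty W.toAffine.Point := ⟨.zero⟩
  exact Nat.card_pos

theorem card_le : Nat.card W.toAffine.Point ≤ 2 * Nat.card k + 1 := by
  classical
  have := Fintype.ofFinite k
  have := Fintype.ofFinite W.toAffine.Point
  set T : Finset (k × k) := Finset.univ.filter fun p => W.toAffine.Equation p.1 p.2 with hT
  have h1 : Nat.card W.toAffine.Point ≤ (insert none (T.image some)).card := by
    rw [Nat.card_eq_fintype_card, ← Finset.card_univ]
    refine Finset.card_le_card_of_injOn (toOpt W) ?_ (toOpt_injective W).injOn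
    intro P _
    cases P with
    | zero => simp [toOpt]
    | some x y hxy => simp [toOpt, hT, hxy.1]
  have h2 : (insert none (T.image some)).card ≤ T.card + 1 :=
    (Finset.card_insert_le _ _).trans (Nat.add_le_add_right Finset.card_image_le 1)
  have h3 : T.card ≤ 2 * (T.image Prod.fst).card := by
    refine Finset.card_le_mul_card_image T 2 fun x _ => ?_
    by_cases he : ∃ y₀, W.toAffine.Equation x y₀
    · obtain ⟨y₀, hy₀⟩ := he
      rw [WeierstrassCurve.Affine.equation_iff] at hy₀
      refine le_trans (Finset.card_le_card (t := {(x, y₀), (x, -y₀ - W.a₁ * x - W.a₃)}) ?_)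
        Finset.card_le_two
      intro p hp
      simp only [hT, Finset.mem_filter, Finset.mem_univ, true_and] at hp
      obtain ⟨hp1, hp2⟩ := hp
      rw [WeierstrassCurve.Affine.equation_iff] at hp1
      obtain ⟨x', y⟩ := p
      simp only at hp1 hp2
      subst hp2
      have hprod : (y - y₀) * (y + y₀ + W.a₁ * x' + W.a₃) = 0 := by linear_combination hp1 - hy₀
      simp only [Finset.mem_insert, Finset.mem_singleton, Prod.mk.injEq, true_and]
      rcases mul_eq_zero.mp hprod with h | h
      · left; exact sub_eq_zero.mp h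
      · right; linear_combination h
    · push Not at he
      rw [Finset.card_eq_zero.mpr]
      · omega
      · rw [Finset.filter_eq_empty_iff]
        intro p hp hp2
        simp only [hT, Finset.mem_filter, Finset.mem_univ, true_and] at hp
        rw [← hp2] at he
        exact he _ hp
  have h4 : (T.image Prod.fst).card ≤ Nat.card k := by
    rw [Nat.card_eq_fintype_card]
    exact Finset.card_le_univ _
  omega

theorem abs_trace_le : |(Nat.card k : ℝ) + 1 - (Nat.card W.toAffine.Point : ℝ)| ≤ Nat.card k := by
  have h1 : (1 : ℝ) ≤ Nat.card W.toAffine.Point := by exact_mod_cast one_le_card W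
  have h2 : (Nat.card W.toAffine.Point : ℝ) ≤ 2 * Nat.card k + 1 := by exact_mod_cast card_le W
  rw [abs_le]
  constructor <;> linarith

end points

/-! ### Local data -/

section localdata

variable (R : Type u) [CommRing R] [IsDomain R] [IsDiscreteValuationRing R] {F : Type u}
  [Field F] [Algebra R F] [IsFractionRing R F] (W : WeierstrassCurve F)

theorem lpoly_coe (a b : ℤ) : lpoly a b =
    1 - Polynomial.C a * Polynomial.X + Polynomial.C b * Polynomial.X ^ 2 := rfl

theorem local_data (hH : Hasse.{u}) [Finite (ResidueField R)] :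
    ∃ (a b : ℤ) (α β : ℂ), W.localPolynomial R = lpoly a b ∧ α + β = a ∧ α * β = b ∧
      ‖α‖ ≤ Nat.card (ResidueField R) ∧ ‖β‖ ≤ Nat.card (ResidueField R) ∧
      ((2 : ResidueField R) ≠ 0 → (3 : ResidueField R) ≠ 0 →
        ‖α‖ ≤ √(Nat.card (ResidueField R)) ∧ ‖β‖ ≤ √(Nat.card (ResidueField R))) := by
  classical
  set q := Nat.card (ResidueField R) with hq
  have hq1 : 1 < q := Finite.one_lt_card
  have hq1' : (1 : ℝ) ≤ q := by exact_mod_cast hq1.le
  have hsq1 : 1 ≤ √(q : ℝ) := by rw [Real.one_le_sqrt]; exact hq1'
  have hsqq : √(q : ℝ) ≤ q := by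
    rw [Real.sqrt_le_left (by linarith)]
    nlinarith
  have hsimple : ∀ a : ℤ, |(a : ℝ)| ≤ 1 → ∃ (a' b : ℤ) (α β : ℂ),
      (1 - Polynomial.C a * Polynomial.X : Polynomial ℤ) = lpoly a' b ∧ α + β = a' ∧ α * β = b ∧
      ‖α‖ ≤ q ∧ ‖β‖ ≤ q ∧ ((2 : ResidueField R) ≠ 0 → (3 : ResidueField R) ≠ 0 →
        ‖α‖ ≤ √q ∧ ‖β‖ ≤ √q) := by
    intro a ha
    refine ⟨a, 0, a, 0, ?_, by simp, by simp, ?_, by simp, fun _ _ => ⟨?_, by simp⟩⟩
    · simp [lpoly]
    · rw [Complex.norm_intCast]; linarith
    · rw [Complex.norm_intCast]; linarith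
  unfold WeierstrassCurve.localPolynomial
  split_ifs with h1 h2 h3
  · have hE : ((W.minimal R).reduction R).IsElliptic :=
      (WeierstrassCurve.hasGoodReduction_iff_isElliptic_reduction R).mp h1
    set a : ℤ := (q : ℤ) + 1 - (Nat.card ((W.minimal R).reduction R).toAffine.Point : ℤ) with ha
    obtain ⟨α, β, h5, h6, h7, h8, h9⟩ := exists_roots (a : ℝ) (q : ℝ) (by positivity)
    have hab : |(a : ℝ)| ≤ q := by
      have := abs_trace_le ((W.minimal R).reduction R)
      rw [ha]
      push_cast
      exact this
    refine ⟨a, q, α, β, rfl, ?_, ?_, ?_, ?_, ?_⟩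
    · rw [h5]; push_cast; rfl
    · rw [h6]; push_cast; rfl
    · exact h8.trans (max_le hsqq hab)
    · exact h9.trans (max_le hsqq hab)
    · intro h10 h11
      apply h7
      have := hH (ResidueField R) h10 h11 ((W.minimal R).reduction R)
      rw [← hq, ← ha] at this
      exact_mod_cast this
  · have := hsimple 1 (by simp)
    simpa using this
  · have := hsimple (-1) (by simp)
    simpa using this
  · have := hsimple 0 (by simp)
    simpa using this

end localdata

/-! ### The assembly -/

section assembly

variable {K : Type u} [Field K] [NumberField K]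

/-- The cardinality of the residue field. -/
noncomputable def qv (v : HeightOneSpectrum (𝓞 K)) : ℕ :=
  Nat.card (ResidueField (v.adicCompletionIntegers K))

theorem qv_eq (v : HeightOneSpectrum (𝓞 K)) : qv v = Ideal.absNorm v.asIdeal := by
  unfold qv
  rw [Residue.card_residue, Ideal.absNorm_apply, Submodule.cardQuot_apply]

theorem one_lt_qv (v : HeightOneSpectrum (𝓞 K)) : 1 < qv v := by
  rw [qv_eq]
  exact NumberField.HeightOneSpectrum.one_lt_absNorm v

instance (v : HeightOneSpectrum (𝓞 K)) : Finite (ResidueField (v.adicCompletionIntegers K)) := by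
  apply Nat.finite_of_card_ne_zero
  have := one_lt_qv v
  unfold qv at this
  omega

instance northcott_qv : Northcott (qv (K := K)) where
  finite_le b := by
    have h := Ideal.finite_setOfPred_absNorm_le (S := 𝓞 K) b
    refine Set.Finite.of_finite_image (f := fun v => v.asIdeal) (h.subset ?_) ?_
    · rintro _ ⟨v, hv, rfl⟩
      rw [Set.mem_ofPred_eq] at hv ⊢
      rwa [← qv_eq]
    · intro v _ w _ h
      exact HeightOneSpectrum.ext h

theorem nrm_eq (v : HeightOneSpectrum (𝓞 K)) : nrm v = (qv v : ℝ) := by
  unfold nrm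
  rw [qv_eq]

/-- The exceptional places: residue characteristic 2 or 3. -/
def exc (K : Type u) [Field K] [NumberField K] : Set (HeightOneSpectrum (𝓞 K)) :=
  {v | (2 : ResidueField (v.adicCompletionIntegers K)) = 0 ∨
    (3 : ResidueField (v.adicCompletionIntegers K)) = 0}

theorem finite_contains (n : ℕ) (hn : n ≠ 0) :
    {v : HeightOneSpectrum (𝓞 K) | (n : ResidueField (v.adicCompletionIntegers K)) = 0}.Finite := by
  have hN : Ideal.absNorm (Ideal.span {(n : 𝓞 K)}) ≠ 0 := by
    rw [Ne, Ideal.absNorm_eq_zero_iff, Ideal.span_singleton_eq_bot]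
    exact_mod_cast hn
  refine (northcott_qv.finite_le (Ideal.absNorm (Ideal.span {(n : 𝓞 K)}))).subset ?_
  intro v hv
  rw [Set.mem_ofPred_eq] at hv ⊢
  rw [qv_eq]
  refine Nat.le_of_dvd (Nat.pos_of_ne_zero hN) (Ideal.absNorm_dvd_absNorm_of_le ?_)
  rw [Ideal.span_singleton_le_iff_mem, ← Residue.phi_eq_zero_iff K v, map_natCast]
  exact hv

theorem finite_exc : (exc K).Finite := by
  have h2 := finite_contains (K := K) 2 (by norm_num)
  have h3 := finite_contains (K := K) 3 (by norm_num)
  refine (h2.union h3).subset ?_
  intro v hv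
  rcases hv with hv | hv
  · left; exact_mod_cast hv
  · right; exact_mod_cast hv

theorem logExpansion (hH : Hasse.{u}) (hO : Orthogonality K) (W : WeierstrassCurve K) :
    LogExpansion W := by
  classical
  have hloc : ∀ v : HeightOneSpectrum (𝓞 K), _ := fun v =>
    local_data (v.adicCompletionIntegers K) (W.baseChange (v.adicCompletion K)) hH
  choose a b α β h1 h2 h3 h4 h5 h6 using hloc
  have D : Data (qv (K := K)) a b α β (fun v => if v ∈ exc K then (qv v : ℝ) else √(qv v))
      (exc K) := by
    refine ⟨one_lt_qv, ?_, finite_exc, h2, h3, ?_, ?_, ?_, ?_⟩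
    · intro σ hσ
      have := hO.1 σ hσ
      simpa only [nrm_eq] using this
    · intro v
      split_ifs with hv
      · exact h4 v
      · rw [exc, Set.mem_ofPred_eq, not_or] at hv
        exact (h6 v hv.1 hv.2).1
    · intro v
      split_ifs with hv
      · exact h5 v
      · rw [exc, Set.mem_ofPred_eq, not_or] at hv
        exact (h6 v hv.1 hv.2).2
    · intro v
      split_ifs with hv
      · exact le_rfl
      · have : (1 : ℝ) ≤ qv v := by exact_mod_cast (one_lt_qv v).le
        rw [Real.sqrt_le_left (by linarith)]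
        nlinarith
    · intro v hv
      rw [if_neg hv]
  have hL : ∀ s, W.LSeries s = L (qv (K := K)) a b s := by
    intro s
    have e : W.LFunction = eulerProduct fun v : HeightOneSpectrum (𝓞 K) =>
        ofPowerSeries (qv v) (lps (a v) (b v)) := by
      unfold WeierstrassCurve.LFunction
      congr 1
      funext v
      unfold WeierstrassCurve.localEulerFactor WeierstrassCurve.localPowerSeries lps
      rw [h1 v]
      rfl
    unfold WeierstrassCurve.LSeries L
    rw [e]
    rfl
  refine ⟨xs (qv (K := K)) a (exc K), D.abs_xs_le, fun s hs => ?_, fun t => ?_⟩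
  · rw [hL]; exact D.L_ne hs
  · obtain ⟨B, hB⟩ := D.expansion
    refine ⟨B, fun ε hε hε1 => ?_⟩
    have := hB t ε hε hε1
    rw [hL]
    unfold cosSum
    simp only [nrm_eq]
    exact this

end assembly

end Pool.Agent.MPfb225e.Curve
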