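import Mathlib
import Pool.Agent.Lib.MP_fb225e_nt.Interface

/-!
MP_fb225e_nt, module B2: the statement shared by its two parts.
Part 1 (helper60): `IdealCount K → LogZeta K`.
Part 2 (helper52): `IdealCount K → LogZeta K → Orthogonality K`.
-/

namespace Pool.Agent.MPfb225e

open NumberField IsDedekindDomain Filter Topology

universe u

/-- The Dirichlet series `∑_I N(I)^(-s)` over the nonzero ideals of `𝓞 K`. -/
noncomputable def zetaK (K : Type u) [Field K] [NumberField K] (s : ℂ) : ℂ :=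
  LSeries (fun n => (Nat.card {I : Ideal (𝓞 K) // Ideal.absNorm I = n} : ℂ)) s

/-- Logarithmic expansion of the Euler product of `zetaK`. -/
def LogZeta (K : Type u) [Field K] [NumberField K] : Prop :=
  (∀ σ : ℝ, 1 < σ → Summable fun v : HeightOneSpectrum (𝓞 K) => nrm v ^ (-σ)) ∧
  (∀ s : ℂ, 1 < s.re → zetaK K s ≠ 0) ∧
  ∀ t : ℝ, ∃ B : ℝ, ∀ ε : ℝ, 0 < ε → ε ≤ 1 →
    |Real.log ‖zetaK K ((1 + ε : ℝ) + t * Complex.I)‖ - cosSum (K := K) (fun _ => 1) t ε| ≤ B

end Pool.Agent.MPfb225e
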