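import Mathlib
import Pool.Agent.Lib.MP_fb225e_nt.Interface
import Pool.Agent.Lib.MP_fb225e_nt.Euler
import Pool.Agent.Lib.MP_fb225e_nt.Local
import Pool.Agent.Lib.MP_fb225e_nt.Curve
import Pool.Agent.Lib.MP_fb225e_nt.LogZetaDef

/-!
MP_fb225e_nt, module B2, part 1: the Euler product of the Dedekind zeta function.
-/

namespace Pool.Agent.MPfb225e.Zeta

open NumberField IsDedekindDomain HeightOneSpectrum Filter Topology Curve
open ArithmeticFunction (ofPowerSeries eulerProduct)

universe u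

variable (K : Type u) [Field K] [NumberField K]

/-- The ideals of norm `n` all of whose prime divisors lie in `S`. -/
def idealsIn (S : Finset (HeightOneSpectrum (𝓞 K))) (n : ℕ) : Set (Ideal (𝓞 K)) :=
  {I | Ideal.absNorm I = n ∧ ∀ w : HeightOneSpectrum (𝓞 K), w.asIdeal ∣ I → w ∈ S}

theorem finite_idealsIn (S : Finset (HeightOneSpectrum (𝓞 K))) (n : ℕ) :
    (idealsIn K S n).Finite :=
  (Ideal.finite_setOfPred_absNorm_le (S := 𝓞 K) n).subset fun _ hI => hI.1.le

/-- The counting function of `idealsIn`. -/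
noncomputable def cnt (S : Finset (HeightOneSpectrum (𝓞 K))) : ArithmeticFunction ℤ :=
  ⟨fun n => if n = 0 then 0 else (idealsIn K S n).ncard, by simp⟩

variable {K}

theorem cnt_apply (S : Finset (HeightOneSpectrum (𝓞 K))) {n : ℕ} (hn : n ≠ 0) :
    cnt K S n = (idealsIn K S n).ncard := by
  simp [cnt, hn]

theorem ne_bot_of_absNorm {n : ℕ} (hn : n ≠ 0) {I : Ideal (𝓞 K)} (h : Ideal.absNorm I = n) :
    I ≠ ⊥ := by
  rintro rfl
  rw [Ideal.absNorm_bot] at h
  exact hn h.symm

theorem exists_prime_dvd {I : Ideal (𝓞 K)} (h0 : I ≠ ⊥) (h1 : I ≠ ⊤) :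
    ∃ w : HeightOneSpectrum (𝓞 K), w.asIdeal ∣ I := by
  obtain ⟨M, hM, hIM⟩ := Ideal.exists_le_maximal I h1
  have hM0 : M ≠ ⊥ := fun h => h0 (le_bot_iff.mp (h ▸ hIM))
  exact ⟨⟨M, hM.isPrime, hM0⟩, Ideal.dvd_iff_le.mpr hIM⟩

theorem cnt_empty : cnt K ∅ = 1 := by
  ext n
  rcases eq_or_ne n 0 with rfl | hn
  · simp
  rw [cnt_apply _ hn]
  have key : ∀ I ∈ idealsIn K ∅ n, I = ⊤ := by
    intro I hI
    by_contra h1
    obtain ⟨w, hw⟩ := exists_prime_dvd (ne_bot_of_absNorm hn hI.1) h1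
    exact absurd (hI.2 w hw) (Finset.notMem_empty w)
  rcases eq_or_ne n 1 with rfl | h1
  · have : idealsIn K ∅ 1 = {⊤} := by
      ext I
      constructor
      · intro hI; exact key I hI
      · rintro rfl
        refine ⟨Ideal.absNorm_top, fun w hw => ?_⟩
        exact absurd (top_le_iff.mp (Ideal.dvd_iff_le.mp hw)) w.isPrime.ne_top
    rw [this]
    simp
  · have : idealsIn K ∅ n = ∅ := by
      rw [Set.eq_empty_iff_forall_notMem]
      intro I hI
      have h2 := key I hI
      rw [h2] at hI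
      exact h1 (hI.1.symm.trans Ideal.absNorm_top)
    rw [this, ArithmeticFunction.one_apply_ne h1]
    simp

theorem cnt_step {S : Finset (HeightOneSpectrum (𝓞 K))} {v : HeightOneSpectrum (𝓞 K)}
    [DecidableEq (HeightOneSpectrum (𝓞 K))] (hv : v ∉ S) {n : ℕ} (hn : n ≠ 0) :
    cnt K (insert v S) n = cnt K S n +
      if qv v ∣ n then cnt K (insert v S) (n / qv v) else 0 := by
  rw [cnt_apply _ hn, cnt_apply _ hn]
  have hq := one_lt_qv v
  -- ideals not divisible by v
  have h1 : {I ∈ idealsIn K (insert v S) n | ¬ v.asIdeal ∣ I} = idealsIn K S n := by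
    ext I
    constructor
    · rintro ⟨⟨h1, h2⟩, h3⟩
      refine ⟨h1, fun w hw => ?_⟩
      rcases Finset.mem_insert.mp (h2 w hw) with h | h
      · rw [h] at hw; exact absurd hw h3
      · exact h
    · rintro ⟨h1, h2⟩
      exact ⟨⟨h1, fun w hw => Finset.mem_insert_of_mem (h2 w hw)⟩, fun h => hv (h2 v h)⟩
  have hsplit : idealsIn K (insert v S) n = {I ∈ idealsIn K (insert v S) n | ¬ v.asIdeal ∣ I} ∪
      {I ∈ idealsIn K (insert v S) n | v.asIdeal ∣ I} := by
    ext I
    simp only [Set.mem_union, Set.mem_ofPred_eq]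
    tauto
  have hcard : (idealsIn K (insert v S) n).ncard = (idealsIn K S n).ncard +
      ({I ∈ idealsIn K (insert v S) n | v.asIdeal ∣ I}).ncard := by
    rw [← h1]
    conv_lhs => rw [hsplit]
    refine Set.ncard_union_eq ?_ ?_ ?_
    · rw [Set.disjoint_left]
      rintro I ⟨-, h2⟩ ⟨-, h3⟩
      exact h2 h3
    · exact (finite_idealsIn K _ n).subset fun I hI => hI.1
    · exact (finite_idealsIn K _ n).subset fun I hI => hI.1
  rw [hcard]
  push_cast
  congr 1
  have hv0 : v.asIdeal ≠ 0 := v.ne_bot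
  by_cases hd : qv v ∣ n
  · rw [if_pos hd]
    obtain ⟨m, rfl⟩ := hd
    have hm : m ≠ 0 := by rintro rfl; simp at hn
    rw [Nat.mul_div_cancel_left _ (by omega), cnt_apply _ hm]
    have himg : {I ∈ idealsIn K (insert v S) (qv v * m) | v.asIdeal ∣ I} =
        (fun J => v.asIdeal * J) '' idealsIn K (insert v S) m := by
      ext I
      constructor
      · rintro ⟨⟨h2, h3⟩, ⟨J, rfl⟩⟩
        refine ⟨J, ⟨?_, fun w hw => h3 w (hw.trans (Dvd.intro_left _ rfl))⟩, rfl⟩
        rw [map_mul, ← qv_eq] at h2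
        exact Nat.eq_of_mul_eq_mul_left (by omega) h2
      · rintro ⟨J, ⟨h2, h3⟩, rfl⟩
        refine ⟨⟨?_, fun w hw => ?_⟩, Dvd.intro _ rfl⟩
        · rw [map_mul, ← qv_eq, h2]
        · rcases (w.prime.dvd_mul).mp hw with h | h
          · have : w = v := by
              apply HeightOneSpectrum.ext
              have hle := Ideal.dvd_iff_le.mp h
              exact (v.isMaximal.eq_of_le w.isPrime.ne_top hle).symm
            rw [this]
            exact Finset.mem_insert_self _ _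
          · exact h3 w h
    rw [himg, Set.ncard_image_of_injective]
    intro J J' h
    exact mul_left_cancel₀ hv0 h
  · rw [if_neg hd]
    have : {I ∈ idealsIn K (insert v S) n | v.asIdeal ∣ I} = ∅ := by
      rw [Set.eq_empty_iff_forall_notMem]
      rintro I ⟨⟨h2, -⟩, ⟨J, rfl⟩⟩
      apply hd
      rw [← h2, map_mul, ← qv_eq]
      exact Dvd.intro _ rfl
    rw [this]
    simp

theorem ofPowerSeries_X_mul {q : ℕ} (hq : 1 < q) (A : ArithmeticFunction ℤ) {n : ℕ} (hn : n ≠ 0) :
    (ofPowerSeries q (PowerSeries.X : PowerSeries ℤ) * A) n = if q ∣ n then A (n / q) else 0 := by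
  have hX : ∀ m : ℕ, ofPowerSeries q (PowerSeries.X : PowerSeries ℤ) m = if m = q then 1 else 0 := by
    intro m
    by_cases h : ∃ k, q ^ k = m
    · obtain ⟨k, rfl⟩ := h
      rw [ArithmeticFunction.ofPowerSeries_apply_pow hq, PowerSeries.coeff_X]
      by_cases hk : k = 1
      · subst hk; simp
      · rw [if_neg hk, if_neg]
        intro h
        have : q ^ k = q ^ 1 := by rw [h, pow_one]
        exact hk (Nat.pow_right_injective hq this)
    · rw [ArithmeticFunction.ofPowerSeries_apply hq, Function.extend_apply' _ _ _ h, if_neg]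
      · rfl
      · rintro rfl
        exact h ⟨1, pow_one _⟩
  rw [ArithmeticFunction.mul_apply]
  split_ifs with hd
  · obtain ⟨m, rfl⟩ := hd
    have hm : m ≠ 0 := by rintro rfl; simp at hn
    rw [Nat.mul_div_cancel_left _ (by omega)]
    rw [Finset.sum_eq_single (q, m)]
    · rw [hX, if_pos rfl, one_mul]
    · rintro ⟨a, b⟩ hab hne
      rw [Nat.mem_divisorsAntidiagonal] at hab
      simp only
      rw [hX]
      split_ifs with h
      · exfalso
        apply hne
        simp only at hab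
        rw [h] at hab ⊢
        rw [Nat.eq_of_mul_eq_mul_left (by omega) hab.1]
      · rw [zero_mul]
    · intro h
      exact absurd (Nat.mem_divisorsAntidiagonal.mpr ⟨rfl, hn⟩) h
  · refine Finset.sum_eq_zero ?_
    rintro ⟨a, b⟩ hab
    rw [Nat.mem_divisorsAntidiagonal] at hab
    simp only at hab ⊢
    rw [hX]
    split_ifs with h
    · exfalso
      apply hd
      rw [← hab.1, h]
      exact Dvd.intro _ rfl
    · rw [zero_mul]

theorem one_sub_X_mul : (1 - PowerSeries.X : PowerSeries ℤ) * Local.lps 1 0 = 1 := by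
  have := Local.lpoly_mul_lps 1 0
  have e : (Local.lpoly 1 0 : PowerSeries ℤ) = 1 - PowerSeries.X := by
    simp [Local.lpoly]
  rwa [e] at this

theorem prod_eq_cnt (S : Finset (HeightOneSpectrum (𝓞 K))) :
    ∏ v ∈ S, ofPowerSeries (qv v) (Local.lps 1 0) = cnt K S := by
  classical
  induction S using Finset.induction_on with
  | empty => rw [Finset.prod_empty, cnt_empty]
  | insert v S hv ih =>
    rw [Finset.prod_insert hv, ih]
    have hq := one_lt_qv v
    have h1 : cnt K S = ofPowerSeries (qv v) (1 - PowerSeries.X : PowerSeries ℤ) *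
        cnt K (insert v S) := by
      rw [map_sub, map_one, sub_mul, one_mul]
      ext n
      rcases eq_or_ne n 0 with rfl | hn
      · simp
      have h2 := cnt_step hv hn
      have h3 := ofPowerSeries_X_mul hq (cnt K (insert v S)) hn
      have h4 : (cnt K (insert v S) - ofPowerSeries (qv v) (PowerSeries.X : PowerSeries ℤ) *
          cnt K (insert v S)) n = cnt K (insert v S) n - (ofPowerSeries (qv v)
          (PowerSeries.X : PowerSeries ℤ) * cnt K (insert v S)) n := by
        rw [sub_eq_add_neg, ArithmeticFunction.add_apply, sub_eq_add_neg]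
        rfl
      rw [h4, h3, h2]
      ring
    rw [h1, ← mul_assoc, ← map_mul, mul_comm (Local.lps 1 0), one_sub_X_mul, map_one, one_mul]

theorem eulerProduct_eq {n : ℕ} (hn : n ≠ 0) :
    eulerProduct (fun v : HeightOneSpectrum (𝓞 K) => ofPowerSeries (qv v) (Local.lps 1 0)) n =
      (Nat.card {I : Ideal (𝓞 K) // Ideal.absNorm I = n} : ℤ) := by
  classical
  have h1 := ArithmeticFunction.tendsTo_eulerProduct_ofPowerSeries (qv (K := K))
    (fun _ => Local.lps 1 0) (fun _ => Local.constantCoeff_lps 1 0) n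
  have hfin := (northcott_qv (K := K)).finite_le n
  obtain ⟨S, hS1, hS2⟩ := (h1.and (eventually_ge_atTop hfin.toFinset)).exists
  rw [← hS1, prod_eq_cnt, cnt_apply _ hn]
  have : idealsIn K S n = {I : Ideal (𝓞 K) | Ideal.absNorm I = n} := by
    ext I
    constructor
    · exact fun h => h.1
    · intro h
      refine ⟨h, fun w hw => hS2 ?_⟩
      rw [Set.Finite.mem_toFinset, Set.mem_ofPred_eq, qv_eq]
      rw [Set.mem_ofPred_eq] at h
      rw [← h]
      refine Nat.le_of_dvd ?_ (Ideal.absNorm_dvd_absNorm_of_le (Ideal.dvd_iff_le.mp hw))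
      rw [h]; omega
  rw [this, ← Nat.card_coe_set_eq]
  rfl

/-! ### Convergence -/

variable (K)

theorem lseriesSummable {s : ℂ} (hs : 1 < s.re) :
    LSeriesSummable (fun n => (Nat.card {I : Ideal (𝓞 K) // Ideal.absNorm I = n} : ℂ)) s := by
  have h1 := tendsto_sub_one_mul_dedekindZeta_nhdsGT K
  have h2 : ∀ᶠ σ : ℝ in 𝓝[>] 1, ((σ : ℂ) - 1) * dedekindZeta K σ ≠ 0 :=
    h1.eventually_ne (by
      have := dedekindZeta_residue_ne_zero K
      exact_mod_cast this)
  have h3 : ∀ᶠ σ : ℝ in 𝓝[>] 1, σ < s.re := by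
    have : ∀ᶠ σ : ℝ in 𝓝 1, σ < s.re := gt_mem_nhds hs
    exact this.filter_mono nhdsWithin_le_nhds
  obtain ⟨σ, h4, h5⟩ := (h2.and h3).exists
  have h6 : LSeriesSummable (fun n => (Nat.card {I : Ideal (𝓞 K) // Ideal.absNorm I = n} : ℂ))
      (σ : ℂ) := by
    by_contra h
    apply h4
    have : dedekindZeta K σ = 0 := by
      unfold dedekindZeta LSeries
      exact tsum_eq_zero_of_not_summable h
    rw [this, mul_zero]
  exact h6.of_re_le_re (by simpa using h5.le)

theorem summable_qv {σ : ℝ} (hσ : 1 < σ) :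
    Summable fun v : HeightOneSpectrum (𝓞 K) => (qv v : ℝ) ^ (-σ) := by
  classical
  have h1 := lseriesSummable K (s := (σ : ℂ)) (by simpa using hσ)
  have h2 : Summable fun n : ℕ =>
      ‖LSeries.term (fun n => (Nat.card {I : Ideal (𝓞 K) // Ideal.absNorm I = n} : ℂ)) (σ : ℂ) n‖ :=
    h1.norm
  refine summable_of_sum_le (c := ∑' n : ℕ,
      ‖LSeries.term (fun n => (Nat.card {I : Ideal (𝓞 K) // Ideal.absNorm I = n} : ℂ)) (σ : ℂ) n‖)
      (fun v => Real.rpow_nonneg (by positivity) _) fun V => ?_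
  calc ∑ v ∈ V, (qv v : ℝ) ^ (-σ)
      = ∑ n ∈ V.image qv, ((V.filter fun v => qv v = n).card : ℝ) * (n : ℝ) ^ (-σ) := by
        rw [Finset.sum_comp (fun n : ℕ => (n : ℝ) ^ (-σ)) qv]
        simp only [nsmul_eq_mul]
    _ ≤ ∑ n ∈ V.image qv,
      ‖LSeries.term (fun n => (Nat.card {I : Ideal (𝓞 K) // Ideal.absNorm I = n} : ℂ)) (σ : ℂ) n‖ := by
        refine Finset.sum_le_sum fun n hn => ?_
        have hn0 : n ≠ 0 := by
          obtain ⟨v, -, rfl⟩ := Finset.mem_image.mp hn
          have := one_lt_qv v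
          omega
        rw [LSeries.norm_term_eq, if_neg hn0, div_eq_mul_inv, ← Real.rpow_neg (by positivity)]
        simp only [Complex.ofReal_re]
        refine mul_le_mul_of_nonneg_right ?_ (Real.rpow_nonneg (by positivity) _)
        rw [Complex.norm_natCast]
        have hfin : Finite {I : Ideal (𝓞 K) // Ideal.absNorm I = n} :=
          (Ideal.finite_setOfPred_absNorm_eq (S := 𝓞 K) n).to_subtype
        have hle : (V.filter fun v => qv v = n).card ≤
            Nat.card {I : Ideal (𝓞 K) // Ideal.absNorm I = n} := by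
          rw [← Nat.card_eq_finsetCard]
          refine Nat.card_le_card_of_injective (fun v => ⟨v.1.asIdeal, ?_⟩) ?_
          · have := (Finset.mem_filter.mp v.2).2
            rw [← qv_eq]
            exact this
          · intro v w h
            have h' := congrArg Subtype.val h
            exact Subtype.ext (HeightOneSpectrum.ext h')
        exact_mod_cast hle
    _ ≤ _ := h2.sum_le_tsum _ fun _ _ => norm_nonneg _

/-! ### The Euler product -/

variable {K}

theorem r_le {s : ℂ} (hs : 1 < s.re) (v : HeightOneSpectrum (𝓞 K)) :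
    (qv v : ℝ) ^ (-s.re) ≤ 1 / 2 := by
  have hq := one_lt_qv v
  have hq2 : (2 : ℝ) ≤ qv v := by exact_mod_cast hq
  calc (qv v : ℝ) ^ (-s.re) ≤ (qv v : ℝ) ^ (-(1 : ℝ)) :=
        Real.rpow_le_rpow_of_exponent_le (by linarith) (by linarith)
    _ ≤ (2 : ℝ) ^ (-(1 : ℝ)) := Real.rpow_le_rpow_of_nonpos (by norm_num) hq2 (by norm_num)
    _ = 1 / 2 := by rw [Real.rpow_neg_one]; norm_num

theorem norm_w (s : ℂ) (v : HeightOneSpectrum (𝓞 K)) :
    ‖(qv v : ℂ) ^ (-s)‖ = (qv v : ℝ) ^ (-s.re) := LogExp.norm_cpow_neg (one_lt_qv v) s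

theorem hasProd {s : ℂ} (hs : 1 < s.re) :
    HasProd (fun v : HeightOneSpectrum (𝓞 K) => (1 - (qv v : ℂ) ^ (-s))⁻¹) (dedekindZeta K s) := by
  have h := Euler.hasProd_eulerProduct (qv (K := K)) one_lt_qv (fun _ => Local.lps 1 0)
    (fun _ => Local.constantCoeff_lps 1 0) (fun _ => 1) (fun _ => zero_le_one) ?_ s (1 / 2)
    (by norm_num) ?_ ?_ (fun v => (1 - (qv v : ℂ) ^ (-s))⁻¹) ?_
  · have e : LSeries (fun n => ((eulerProduct (fun v : HeightOneSpectrum (𝓞 K) =>
        ofPowerSeries (qv v) (Local.lps 1 0)) n : ℤ) : ℂ)) s = dedekindZeta K s := by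
      unfold dedekindZeta
      refine LSeries_congr (fun {n} hn => ?_) s
      rw [eulerProduct_eq hn]
      push_cast
      rfl
    rw [← e]
    exact h
  · intro v k
    exact Local.abs_coeff_lps_le 1 0 1 0 (by norm_num) (by norm_num) (by simp) (by simp) k
  · intro v
    rw [one_mul]
    exact r_le hs v
  · simp only [one_mul]
    exact summable_qv K hs
  · intro v
    have h1 : ‖(1 : ℂ) * (qv v : ℂ) ^ (-s)‖ < 1 := by
      rw [one_mul, norm_w]
      linarith [r_le hs v]
    have h2 := Local.hasSum_lps 1 0 1 0 (by norm_num) (by norm_num) ((qv v : ℂ) ^ (-s)) h1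
      (by simp)
    simpa using h2

theorem one_sub_ne {s : ℂ} (hs : 1 < s.re) (v : HeightOneSpectrum (𝓞 K)) :
    1 - (qv v : ℂ) ^ (-s) ≠ 0 := by
  intro h
  have h1 : ‖(qv v : ℂ) ^ (-s)‖ = 1 := by
    rw [← sub_eq_zero.mp h]; simp
  rw [norm_w] at h1
  linarith [r_le hs v]

theorem summable_log {s : ℂ} (hs : 1 < s.re) :
    Summable fun v : HeightOneSpectrum (𝓞 K) => -Real.log ‖1 - (qv v : ℂ) ^ (-s)‖ := by
  refine Summable.of_norm_bounded ((summable_qv K hs).mul_left (2 / (1 - 1 / 2))) fun v => ?_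
  rw [Real.norm_eq_abs, abs_neg, ← norm_w]
  refine Local.abs_log_norm_one_sub_le ?_ (by norm_num)
  rw [norm_w]
  exact r_le hs v

theorem norm_zeta {s : ℂ} (hs : 1 < s.re) :
    ‖dedekindZeta K s‖ =
      Real.exp (∑' v : HeightOneSpectrum (𝓞 K), -Real.log ‖1 - (qv v : ℂ) ^ (-s)‖) := by
  have h1 := (hasProd (K := K) hs).norm
  have h2 := (summable_log (K := K) hs).hasSum.rexp
  have h3 : (Real.exp ∘ fun v : HeightOneSpectrum (𝓞 K) => -Real.log ‖1 - (qv v : ℂ) ^ (-s)‖) =
      fun v => ‖(1 - (qv v : ℂ) ^ (-s))⁻¹‖ := by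
    funext v
    simp only [Function.comp_apply]
    rw [Real.exp_neg, Real.exp_log (norm_pos_iff.mpr (one_sub_ne hs v)), norm_inv]
  rw [h3] at h2
  exact h1.unique h2

theorem zeta_ne {s : ℂ} (hs : 1 < s.re) : dedekindZeta K s ≠ 0 := by
  rw [← norm_ne_zero_iff, norm_zeta hs]
  exact Real.exp_ne_zero _

theorem expansion : ∃ B : ℝ, ∀ t ε : ℝ, 0 < ε → ε ≤ 1 →
    |Real.log ‖dedekindZeta K ((1 + ε : ℝ) + t * Complex.I)‖ -
      cosSum (K := K) (fun _ => 1) t ε| ≤ B := by
  have hgs : Summable fun v : HeightOneSpectrum (𝓞 K) =>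
      (1 / (1 - 1 / 2) : ℝ) * (qv v : ℝ) ^ (-(2 : ℝ)) :=
    (summable_qv K (by norm_num)).mul_left _
  refine ⟨∑' v : HeightOneSpectrum (𝓞 K), (1 / (1 - 1 / 2) : ℝ) * (qv v : ℝ) ^ (-(2 : ℝ)),
    fun t ε hε hε1 => ?_⟩
  set s : ℂ := (1 + ε : ℝ) + t * Complex.I with hs
  have hre : s.re = 1 + ε := by simp [hs]
  have him : s.im = t := by simp [hs]
  have hs1 : 1 < s.re := by rw [hre]; linarith
  rw [norm_zeta hs1, Real.log_exp]
  unfold cosSum
  simp only [nrm_eq, one_mul]
  have hsx : Summable fun v : HeightOneSpectrum (𝓞 K) => (qv v : ℝ) ^ (-(1 + ε)) *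
      Real.cos (t * Real.log (qv v)) := by
    refine Summable.of_norm_bounded (summable_qv K (σ := 1 + ε) (by linarith)) fun v => ?_
    rw [norm_mul, Real.norm_eq_abs, Real.norm_eq_abs]
    have h2 : |Real.cos (t * Real.log (qv v))| ≤ 1 := Real.abs_cos_le_one _
    have h3 : 0 ≤ (qv v : ℝ) ^ (-(1 + ε)) := Real.rpow_nonneg (by positivity) _
    rw [abs_of_nonneg h3]
    exact mul_le_of_le_one_right h3 h2
  rw [← (summable_log (K := K) hs1).tsum_sub hsx]
  have hb : ∀ v : HeightOneSpectrum (𝓞 K), ‖-Real.log ‖1 - (qv v : ℂ) ^ (-s)‖ -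
      (qv v : ℝ) ^ (-(1 + ε)) * Real.cos (t * Real.log (qv v))‖ ≤
      (1 / (1 - 1 / 2) : ℝ) * (qv v : ℝ) ^ (-(2 : ℝ)) := by
    intro v
    have hq := one_lt_qv v
    have hq0 : (0 : ℝ) < qv v := by exact_mod_cast (by omega : 0 < qv v)
    have hq1 : (1 : ℝ) ≤ qv v := by exact_mod_cast (by omega : 1 ≤ qv v)
    have e : (qv v : ℝ) ^ (-(1 + ε)) * Real.cos (t * Real.log (qv v)) =
        ((qv v : ℂ) ^ (-s)).re := by
      rw [LogExp.re_cpow_neg hq, hre, him]
    rw [e, Real.norm_eq_abs]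
    refine (Local.abs_log_norm_one_sub_add_re_le (ρ := 1 / 2) ?_ (by norm_num)).trans ?_
    · rw [norm_w]; exact r_le hs1 v
    · refine mul_le_mul_of_nonneg_left ?_ (by norm_num)
      rw [norm_w, hre, ← Real.rpow_natCast, ← Real.rpow_mul hq0.le]
      refine Real.rpow_le_rpow_of_exponent_le hq1 ?_
      push_cast
      linarith
  exact (norm_tsum_le_tsum_norm (Summable.of_nonneg_of_le (fun _ => norm_nonneg _) hb hgs)).trans
    ((Summable.of_nonneg_of_le (fun _ => norm_nonneg _) hb hgs).tsum_le_tsum hb hgs)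

/-- The output of this module. -/
theorem logZeta (K : Type u) [Field K] [NumberField K] : LogZeta K := by
  refine ⟨fun σ hσ => ?_, fun s hs => zeta_ne hs, fun t => ?_⟩
  · simpa only [nrm_eq] using summable_qv K hσ
  · obtain ⟨B, hB⟩ := expansion (K := K)
    exact ⟨B, fun ε h1 h2 => hB t ε h1 h2⟩

end Pool.Agent.MPfb225e.Zeta
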