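import Pool.Agent.Lib.MP_fb225e_nt.Interface

/-!
MP_fb225e_nt, module A: the classification of the zeros on the edge.
-/

namespace Pool.Agent.MPfb225e

open NumberField IsDedekindDomain Filter Topology

universe u

variable {K : Type u} [Field K] [NumberField K]

theorem nrm_pos (v : HeightOneSpectrum (𝓞 K)) : 0 < nrm v := by
  unfold nrm
  have : Ideal.absNorm v.asIdeal ≠ 0 := by
    rw [Ne, Ideal.absNorm_eq_zero_iff]
    exact v.ne_bot
  exact_mod_cast Nat.pos_of_ne_zero this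

/-- The bounded function `f` on the finite places has the logarithmic mean value `μ`. -/
structure Mean (f : HeightOneSpectrum (𝓞 K) → ℝ) (μ : ℝ) : Prop where
  bdd : ∃ B : ℝ, ∀ v, |f v| ≤ B
  lim : Tendsto (fun ε : ℝ => (∑' v, f v * nrm v ^ (-(1 + ε))) / Real.log (1 / ε)) (𝓝[>] 0) (𝓝 μ)

theorem summable_bdd (hO : Orthogonality K) {f : HeightOneSpectrum (𝓞 K) → ℝ}
    (hf : ∃ B : ℝ, ∀ v, |f v| ≤ B) {ε : ℝ} (hε : 0 < ε) :
    Summable fun v => f v * nrm v ^ (-(1 + ε)) := by
  obtain ⟨B, hB⟩ := hf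
  refine Summable.of_norm_bounded (g := fun v => B * nrm v ^ (-(1 + ε)))
    ((hO.1 (1 + ε) (by linarith)).mul_left B) ?_
  intro v
  rw [norm_mul, Real.norm_eq_abs, Real.norm_eq_abs,
    abs_of_nonneg (Real.rpow_nonneg (nrm_pos v).le _)]
  exact mul_le_mul_of_nonneg_right (hB v) (Real.rpow_nonneg (nrm_pos v).le _)

theorem eventually_log_pos : ∀ᶠ ε : ℝ in 𝓝[>] 0, 0 < ε ∧ 0 < Real.log (1 / ε) := by
  have h1 : Set.Ioo (0 : ℝ) 1 ∈ 𝓝[>] (0 : ℝ) := Ioo_mem_nhdsGT (by norm_num)
  filter_upwards [h1] with ε hε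
  exact ⟨hε.1, Real.log_pos ((one_lt_div hε.1).2 hε.2)⟩

theorem Mean.congr {f g : HeightOneSpectrum (𝓞 K) → ℝ} {μ : ℝ} (hf : Mean f μ)
    (h : ∀ v, f v = g v) : Mean g μ := by
  have : f = g := funext h
  rwa [← this]

theorem Mean.unique {f : HeightOneSpectrum (𝓞 K) → ℝ} {μ ν : ℝ} (hf : Mean f μ)
    (hg : Mean f ν) : μ = ν := tendsto_nhds_unique hf.lim hg.lim

theorem Mean.add (hO : Orthogonality K) {f g : HeightOneSpectrum (𝓞 K) → ℝ} {μ ν : ℝ}
    (hf : Mean f μ) (hg : Mean g ν) : Mean (fun v => f v + g v) (μ + ν) := by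
  refine ⟨?_, ?_⟩
  · obtain ⟨B, hB⟩ := hf.bdd
    obtain ⟨C, hC⟩ := hg.bdd
    exact ⟨B + C, fun v => (abs_add_le _ _).trans (add_le_add (hB v) (hC v))⟩
  · refine (hf.lim.add hg.lim).congr' ?_
    filter_upwards [eventually_log_pos] with ε hε
    rw [← add_div, ← (summable_bdd hO hf.bdd hε.1).tsum_add (summable_bdd hO hg.bdd hε.1)]
    congr 1
    refine tsum_congr fun v => ?_
    ring

theorem Mean.smul (c : ℝ) {f : HeightOneSpectrum (𝓞 K) → ℝ} {μ : ℝ}
    (hf : Mean f μ) : Mean (fun v => c * f v) (c * μ) := by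
  refine ⟨?_, ?_⟩
  · obtain ⟨B, hB⟩ := hf.bdd
    refine ⟨|c| * B, fun v => ?_⟩
    rw [abs_mul]
    exact mul_le_mul_of_nonneg_left (hB v) (abs_nonneg _)
  · refine (hf.lim.const_mul c).congr' ?_
    filter_upwards with ε
    rw [← mul_div_assoc, ← tsum_mul_left]
    congr 1
    refine tsum_congr fun v => ?_
    ring

theorem Mean.sub (hO : Orthogonality K) {f g : HeightOneSpectrum (𝓞 K) → ℝ} {μ ν : ℝ}
    (hf : Mean f μ) (hg : Mean g ν) : Mean (fun v => f v - g v) (μ - ν) := by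
  have h := Mean.add hO hf (hg.smul (-1))
  have e : μ + -1 * ν = μ - ν := by ring
  rw [e] at h
  exact h.congr fun v => by ring

theorem Mean.mono (hO : Orthogonality K) {f g : HeightOneSpectrum (𝓞 K) → ℝ} {μ ν : ℝ}
    (hf : Mean f μ) (hg : Mean g ν) (h : ∀ v, f v ≤ g v) : μ ≤ ν := by
  refine le_of_tendsto_of_tendsto hf.lim hg.lim ?_
  filter_upwards [eventually_log_pos] with ε hε
  refine div_le_div_of_nonneg_right ?_ hε.2.le
  refine (summable_bdd hO hf.bdd hε.1).tsum_le_tsum ?_ (summable_bdd hO hg.bdd hε.1)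
  intro v
  exact mul_le_mul_of_nonneg_right (h v) (Real.rpow_nonneg (nrm_pos v).le _)

open Classical in
/-- The mean value of `cos (τ log Nv)`. -/
noncomputable def dl (τ : ℝ) : ℝ := if τ = 0 then 1 else 0

theorem dl_zero : dl 0 = 1 := by simp [dl]

theorem dl_of_ne {τ : ℝ} (h : τ ≠ 0) : dl τ = 0 := by simp [dl, h]

theorem dl_nonneg (τ : ℝ) : 0 ≤ dl τ := by
  unfold dl
  split_ifs <;> norm_num

/-- `cos (τ log Nv)` -/
noncomputable def cs (τ : ℝ) (v : HeightOneSpectrum (𝓞 K)) : ℝ :=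
  Real.cos (τ * Real.log (nrm v))

theorem mean_cs (hO : Orthogonality K) (τ : ℝ) : Mean (K := K) (cs τ) (dl τ) := by
  refine ⟨⟨1, fun v => Real.abs_cos_le_one _⟩, ?_⟩
  have e : ∀ ε : ℝ, (∑' v : HeightOneSpectrum (𝓞 K), cs τ v * nrm v ^ (-(1 + ε))) =
      cosSum (K := K) (fun _ => 1) τ ε := by
    intro ε
    unfold cosSum cs
    refine tsum_congr fun v => ?_
    ring
  simp only [e]
  by_cases h : τ = 0
  · subst h
    rw [dl_zero]
    exact hO.2.1
  · rw [dl_of_ne h]
    exact hO.2.2 τ h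

theorem cs_mul (a b : ℝ) (v : HeightOneSpectrum (𝓞 K)) :
    cs a v * cs b v = (1 / 2) * cs (a + b) v + (1 / 2) * cs (a - b) v := by
  unfold cs
  rw [add_mul, sub_mul, Real.cos_add, Real.cos_sub]
  ring

theorem cs_zero (v : HeightOneSpectrum (𝓞 K)) : cs 0 v = 1 := by
  simp [cs]

theorem mean_cs_mul (hO : Orthogonality K) (a b : ℝ) :
    Mean (K := K) (fun v => cs a v * cs b v) (1 / 2 * dl (a + b) + 1 / 2 * dl (a - b)) :=
  (Mean.add hO ((mean_cs hO (a + b)).smul (1 / 2)) ((mean_cs hO (a - b)).smul (1 / 2))).congr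
    fun v => (cs_mul a b v).symm

theorem mean_const (hO : Orthogonality K) (c : ℝ) : Mean (K := K) (fun _ => c) c := by
  have h := (mean_cs (K := K) hO 0).smul c
  rw [dl_zero, mul_one] at h
  exact h.congr fun v => by rw [cs_zero, mul_one]

/-- the polynomial majorant of `|1 + 2y|` -/
theorem majorant {y : ℝ} (h1 : -1 ≤ y) (h2 : y ≤ 1) :
    |1 + 2 * y| ≤ 1 + 2 * y + (6 * y - 1) ^ 2 * (1 - y) * (10 - 9 * y) / 864 := by
  have hpos : 0 ≤ (6 * y - 1) ^ 2 * (1 - y) * (10 - 9 * y) / 864 := by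
    have : 0 ≤ 1 - y := by linarith
    have : 0 ≤ 10 - 9 * y := by linarith
    positivity
  rw [abs_le']
  refine ⟨by linarith, ?_⟩
  -- 2 (1 + 2y) + (6y-1)^2 (1-y)(10-9y)/864 ≥ 0
  nlinarith [sq_nonneg (y + 5 / 6), sq_nonneg (y * (y + 5 / 6)), sq_nonneg (y + 5 / 6 + y * (y + 5 / 6)),
    sq_nonneg (y ^ 2 - 25 / 36), sq_nonneg (y + 21 / 25), sq_nonneg (y * (y + 21 / 25)),
    sq_nonneg ((y - 1) * (y + 21 / 25)), sq_nonneg ((y + 1) * (y + 21 / 25))]


section classify

variable (hO : Orthogonality K) {x : HeightOneSpectrum (𝓞 K) → ℝ} {m : ℝ → ℕ}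
  (hx : ∀ v, |x v| ≤ 2)
  (hm : ∀ t, Tendsto (fun ε : ℝ => cosSum x t ε / Real.log (1 / ε)) (𝓝[>] 0) (𝓝 (-(m t : ℝ))))

include hx hm in
theorem mean_x (t : ℝ) : Mean (fun v => x v * cs t v) (-(m t : ℝ)) := by
  refine ⟨⟨2, fun v => ?_⟩, ?_⟩
  · rw [abs_mul]
    calc |x v| * |cs t v| ≤ 2 * 1 :=
          mul_le_mul (hx v) (Real.abs_cos_le_one _) (abs_nonneg _) (by norm_num)
      _ = 2 := by norm_num
  · have e : ∀ ε : ℝ, (∑' v, (x v * cs t v) * nrm v ^ (-(1 + ε))) = cosSum x t ε := by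
      intro ε
      unfold cosSum cs
      refine tsum_congr fun v => ?_
      ring
    simp only [e]
    exact hm t

include hO hx hm in
theorem m_zero_le : m 0 ≤ 2 := by
  have h1 := mean_x hx hm 0
  have h2 : (-2 : ℝ) ≤ -(m 0 : ℝ) := by
    refine Mean.mono hO (mean_const hO (-2)) h1 fun v => ?_
    rw [cs_zero, mul_one]
    linarith [neg_abs_le (x v), hx v]
  have : (m 0 : ℝ) ≤ 2 := by linarith
  exact_mod_cast this

include hO hx hm in
theorem m_neg (t : ℝ) : m (-t) = m t := by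
  have h1 := mean_x hx hm t
  have h2 := mean_x hx hm (-t)
  have h3 : Mean (fun v => x v * cs t v) (-(m (-t) : ℝ)) := h2.congr fun v => by
    unfold cs
    rw [neg_mul, Real.cos_neg]
  have := h1.unique h3
  have : (m (-t) : ℝ) = m t := by linarith
  exact_mod_cast this

include hO hx hm in
/-- a zero off the real axis is simple -/
theorem m_le_one {t : ℝ} (ht : t ≠ 0) : m t ≤ 1 := by
  -- `-x * 2cos ≤ 2 + 2 cos^2 = 3 + cos(2θ)`... use `4 + 2 λ x P + λ² P² ≥ 0` with `P = 2 cos`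
  have h1 := (mean_x hx hm t).smul 1
  have h2 : Mean (K := K) (fun v => cs t v * cs t v) (1 / 2) := by
    have h := mean_cs_mul (K := K) hO t t
    rwa [dl_of_ne (by simpa using ht), sub_self, dl_zero, mul_zero, mul_one, zero_add] at h
  -- pointwise: -x c ≤ 2 |c| ≤ √2 ... with rational constants: 2|c| ≤ (7/10) * 2 + c^2 * (10/7)... 
  have h3 : Mean (K := K) (fun v => 7 / 10 + 10 / 7 * (cs t v * cs t v))
      (7 / 10 + 10 / 7 * (1 / 2)) :=
    Mean.add hO (mean_const hO _) (h2.smul _)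
  have h4 : Mean (fun v => (-1) * (x v * cs t v)) ((-1) * -(m t : ℝ)) := (mean_x hx hm t).smul _
  have h5 := Mean.mono hO h4 h3 fun v => by
    have ha := hx v
    have hb : (-1) * (x v * cs t v) ≤ 2 * |cs t v| := by
      have : |x v * cs t v| ≤ 2 * |cs t v| := by
        rw [abs_mul]
        exact mul_le_mul_of_nonneg_right ha (abs_nonneg _)
      linarith [neg_abs_le (x v * cs t v)]
    have hc : 2 * |cs t v| ≤ 7 / 10 + 10 / 7 * (cs t v * cs t v) := by
      have h6 := sq_nonneg (|cs t v| - 7 / 10)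
      have h7 : |cs t v| * |cs t v| = cs t v * cs t v := abs_mul_abs_self _
      nlinarith
    linarith
  by_contra hcon
  have h6 : (2 : ℝ) ≤ m t := by
    have : 2 ≤ m t := by omega
    exact_mod_cast this
  norm_num at h5
  linarith

include hO hx hm in
/-- two different pairs are impossible -/
theorem not_two_pairs {a b : ℝ} (ha : 0 < a) (hb : 0 < b) (hab : a ≠ b) (hma : m a ≠ 0) :
    m b = 0 := by
  by_contra hmb
  have h1a : (1 : ℝ) ≤ m a := by exact_mod_cast Nat.one_le_iff_ne_zero.2 hma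
  have h1b : (1 : ℝ) ≤ m b := by exact_mod_cast Nat.one_le_iff_ne_zero.2 hmb
  -- u = 2 cos a + 2 cos b, w = u^2 - 4, g = cos (a+b)
  -- w = 2 cos 2a + 2 cos 2b + 4 cos (a+b) + 4 cos (a-b)
  let w : HeightOneSpectrum (𝓞 K) → ℝ := fun v =>
    (2 * cs (2 * a) v + 2 * cs (2 * b) v) + (4 * cs (a + b) v + 4 * cs (a - b) v)
  have hw : ∀ v, (2 * cs a v + 2 * cs b v) ^ 2 - 4 = w v := by
    intro v
    have e1 : cs a v * cs a v = (1 / 2) * cs (a + a) v + (1 / 2) * cs (a - a) v := cs_mul a a v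
    have e2 : cs b v * cs b v = (1 / 2) * cs (b + b) v + (1 / 2) * cs (b - b) v := cs_mul b b v
    have e3 := cs_mul a b v
    rw [sub_self, cs_zero, ← two_mul] at e1 e2
    show _ = (2 * cs (2 * a) v + 2 * cs (2 * b) v) + (4 * cs (a + b) v + 4 * cs (a - b) v)
    linear_combination 4 * e1 + 4 * e2 + 8 * e3
  have mw : Mean w 0 := by
    have h := Mean.add hO
      (Mean.add hO ((mean_cs hO (2 * a)).smul 2) ((mean_cs hO (2 * b)).smul 2))
      (Mean.add hO ((mean_cs hO (a + b)).smul 4) ((mean_cs hO (a - b)).smul 4))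
    rw [dl_of_ne (by positivity), dl_of_ne (by positivity), dl_of_ne (by positivity),
      dl_of_ne (sub_ne_zero.2 hab)] at h
    simpa using h
  have hab0 : a + b ≠ 0 := by positivity
  -- mean of w * g is at least 2
  obtain ⟨μ, hμ, mwg⟩ : ∃ μ : ℝ, 2 ≤ μ ∧ Mean (fun v => w v * cs (a + b) v) μ := by
    have h := Mean.add hO
      (Mean.add hO ((mean_cs_mul hO (2 * a) (a + b)).smul 2)
        ((mean_cs_mul hO (2 * b) (a + b)).smul 2))
      (Mean.add hO ((mean_cs_mul hO (a + b) (a + b)).smul 4)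
        ((mean_cs_mul hO (a - b) (a + b)).smul 4))
    refine ⟨_, ?_, h.congr fun v => ?_⟩
    · rw [sub_self, dl_zero]
      have n1 := dl_nonneg (2 * a + (a + b))
      have n2 := dl_nonneg (2 * a - (a + b))
      have n3 := dl_nonneg (2 * b + (a + b))
      have n4 := dl_nonneg (2 * b - (a + b))
      have n5 := dl_nonneg (a + b + (a + b))
      have n6 := dl_nonneg (a - b + (a + b))
      have n7 := dl_nonneg (a - b - (a + b))
      linarith
    · show _ = ((2 * cs (2 * a) v + 2 * cs (2 * b) v) + (4 * cs (a + b) v + 4 * cs (a - b) v)) *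
        cs (a + b) v
      ring
  have mgg : Mean (K := K) (fun v => cs (a + b) v * cs (a + b) v) (1 / 2) := by
    have h := mean_cs_mul (K := K) hO (a + b) (a + b)
    rwa [sub_self, dl_zero, dl_of_ne (by positivity), mul_zero, mul_one, zero_add] at h
  -- the right-hand side
  have mR := Mean.add hO (Mean.add hO (mean_const (K := K) hO 4) (mw.smul (1 / 2)))
    (Mean.add hO (mwg.smul (-(8 / 72))) (mgg.smul (16 / 72)))
  have mL := (Mean.add hO (mean_x hx hm a) (mean_x hx hm b)).smul (-2)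
  have h5 := Mean.mono hO mL mR fun v => by
    have hxv := hx v
    set u := 2 * cs a v + 2 * cs b v with hu
    have hwv := hw v
    have hca : |cs a v| ≤ 1 := Real.abs_cos_le_one _
    have hcb : |cs b v| ≤ 1 := Real.abs_cos_le_one _
    have hu4 : |u| ≤ 4 := by
      rw [hu]
      calc |2 * cs a v + 2 * cs b v| ≤ |2 * cs a v| + |2 * cs b v| := abs_add_le _ _
        _ = 2 * |cs a v| + 2 * |cs b v| := by rw [abs_mul, abs_mul, abs_two]
        _ ≤ 4 := by linarith
    have h6 : -2 * (x v * cs a v + x v * cs b v) ≤ 2 * |u| := by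
      have : -2 * (x v * cs a v + x v * cs b v) = -(x v * u) := by rw [hu]; ring
      rw [this]
      have h7 : |x v * u| ≤ 2 * |u| := by
        rw [abs_mul]
        exact mul_le_mul_of_nonneg_right hxv (abs_nonneg _)
      linarith [neg_abs_le (x v * u)]
    have h8 : 2 * |u| ≤ 2 + u ^ 2 / 2 - (u ^ 2 - 4) ^ 2 / 72 := by
      have hsq : u ^ 2 = |u| ^ 2 := (sq_abs u).symm
      rw [hsq]
      have h0 := abs_nonneg u
      -- (r-2)^2/2 ≥ (r-2)^2 (r+2)^2/72
      have h9 : (|u| ^ 2 - 4) ^ 2 ≤ 36 * (|u| - 2) ^ 2 := by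
        have : (|u| ^ 2 - 4) ^ 2 = (|u| + 2) ^ 2 * (|u| - 2) ^ 2 := by ring
        rw [this]
        refine mul_le_mul_of_nonneg_right ?_ (sq_nonneg _)
        nlinarith
      nlinarith
    rw [hwv] at h8
    have h10 : u ^ 2 = 4 + w v := by linarith
    have h11 := sq_nonneg (w v - 4 * cs (a + b) v)
    nlinarith
  linarith

include hO hx hm in
/-- a real zero and a pair are impossible -/
theorem not_zero_and_pair {a : ℝ} (ha : a ≠ 0) (hma : m a ≠ 0) : m 0 = 0 := by
  by_contra hm0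
  have h1a : (1 : ℝ) ≤ m a := by exact_mod_cast Nat.one_le_iff_ne_zero.2 hma
  have h10 : (1 : ℝ) ≤ m 0 := by exact_mod_cast Nat.one_le_iff_ne_zero.2 hm0
  have ha2 : 2 * a ≠ 0 := by simpa using ha
  have ha3 : 3 * a ≠ 0 := by simpa using ha
  have ha4 : 4 * a ≠ 0 := by simpa using ha
  -- powers of the cosine
  have p2 : ∀ v : HeightOneSpectrum (𝓞 K), cs a v ^ 2 = 1 / 2 + 1 / 2 * cs (2 * a) v := by
    intro v
    have h := cs_mul (K := K) a a v
    rw [sub_self, cs_zero, ← two_mul] at h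
    linear_combination h
  have p3 : ∀ v : HeightOneSpectrum (𝓞 K), cs a v ^ 3 = 3 / 4 * cs a v + 1 / 4 * cs (3 * a) v := by
    intro v
    have h := cs_mul (K := K) (2 * a) a v
    have e1 : 2 * a + a = 3 * a := by ring
    have e2 : 2 * a - a = a := by ring
    rw [e1, e2] at h
    linear_combination cs a v * p2 v + 1 / 2 * h
  have p4 : ∀ v : HeightOneSpectrum (𝓞 K),
      cs a v ^ 4 = 3 / 8 + 1 / 2 * cs (2 * a) v + 1 / 8 * cs (4 * a) v := by
    intro v
    have h := cs_mul (K := K) (3 * a) a v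
    have e1 : 3 * a + a = 4 * a := by ring
    have e2 : 3 * a - a = 2 * a := by ring
    rw [e1, e2] at h
    linear_combination cs a v * p3 v + 1 / 4 * h + 3 / 4 * p2 v
  have c1 := mean_cs (K := K) hO a
  have c2 := mean_cs (K := K) hO (2 * a)
  have c3 := mean_cs (K := K) hO (3 * a)
  have c4 := mean_cs (K := K) hO (4 * a)
  rw [dl_of_ne ha] at c1
  rw [dl_of_ne ha2] at c2
  rw [dl_of_ne ha3] at c3
  rw [dl_of_ne ha4] at c4
  have m2 : Mean (K := K) (fun v => cs a v ^ 2) (1 / 2) := by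
    have h := Mean.add hO (mean_const (K := K) hO (1 / 2)) (c2.smul (1 / 2))
    rw [mul_zero, add_zero] at h
    exact h.congr fun v => (p2 v).symm
  have m3 : Mean (K := K) (fun v => cs a v ^ 3) 0 := by
    have h := Mean.add hO (c1.smul (3 / 4)) (c3.smul (1 / 4))
    rw [mul_zero, mul_zero, add_zero] at h
    exact h.congr fun v => (p3 v).symm
  have m4 : Mean (K := K) (fun v => cs a v ^ 4) (3 / 8) := by
    have h := Mean.add hO (Mean.add hO (mean_const (K := K) hO (3 / 8)) (c2.smul (1 / 2)))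
      (c4.smul (1 / 8))
    rw [mul_zero, mul_zero, add_zero, add_zero] at h
    exact h.congr fun v => (p4 v).symm
  -- the majorant
  -- (6y-1)^2 (1-y)(10-9y) = 10 - 139 y + 597 y^2 - 792 y^3 + 324 y^4
  have mR := (Mean.add hO (Mean.add hO (mean_const (K := K) hO (1 + 10 / 864))
      (c1.smul (2 - 139 / 864)))
    (Mean.add hO (m2.smul (597 / 864)) (Mean.add hO (m3.smul (-(792 / 864)))
      (m4.smul (324 / 864))))).smul 2
  have mL := (Mean.add hO (mean_x hx hm 0) ((mean_x hx hm a).smul 2)).smul (-1)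
  have h5 := Mean.mono hO mL mR fun v => by
    have hxv := hx v
    set y := cs a v with hy
    have hy1 : |y| ≤ 1 := Real.abs_cos_le_one _
    obtain ⟨hy2, hy3⟩ := abs_le.1 hy1
    have h6 := majorant hy2 hy3
    have h7 : -1 * (x v * cs 0 v + 2 * (x v * y)) ≤ 2 * |1 + 2 * y| := by
      rw [cs_zero]
      have e : -1 * (x v * 1 + 2 * (x v * y)) = -(x v * (1 + 2 * y)) := by ring
      rw [e]
      have h8 : |x v * (1 + 2 * y)| ≤ 2 * |1 + 2 * y| := by
        rw [abs_mul]
        exact mul_le_mul_of_nonneg_right hxv (abs_nonneg _)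
      linarith [neg_abs_le (x v * (1 + 2 * y))]
    refine h7.trans ((mul_le_mul_of_nonneg_left h6 (by norm_num)).trans (le_of_eq ?_))
    ring
  norm_num at h5
  linarith

end classify

/-- Module A. -/
theorem classification (K : Type u) [Field K] [NumberField K] : Classification K := by
  intro hO x m hx hm
  by_cases h0 : m 0 = 0
  · by_cases h : ∃ t, m t ≠ 0
    · obtain ⟨t, ht⟩ := h
      have ht0 : t ≠ 0 := by
        rintro rfl
        exact ht h0
      have habs : ∀ s, m |s| = m s := by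
        intro s
        rcases abs_choice s with h | h
        · rw [h]
        · rw [h]; exact m_neg hO hx hm s
      refine ⟨|t|, abs_nonneg _, fun s hs => ?_⟩
      have hs0 : s ≠ 0 := by
        rintro rfl
        exact hs h0
      have hst : |s| = |t| := by
        by_contra hne
        have h1 := not_two_pairs hO hx hm (abs_pos.2 ht0) (abs_pos.2 hs0) (Ne.symm hne)
          (by rw [habs]; exact ht)
        rw [habs] at h1
        exact hs h1
      refine ⟨?_, ?_⟩
      · rcases abs_choice s with h | h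
        · left; rw [← hst, h]
        · right; rw [← hst, h, neg_neg]
      · rw [if_neg (abs_pos.2 ht0).ne']
        exact m_le_one hO hx hm hs0
    · push Not at h
      exact ⟨0, le_rfl, fun t ht => absurd (h t) ht⟩
  · refine ⟨0, le_rfl, fun t ht => ?_⟩
    have ht0 : t = 0 := by
      by_contra hne
      exact h0 (not_zero_and_pair hO hx hm hne ht)
    subst ht0
    refine ⟨Or.inl rfl, ?_⟩
    rw [if_pos rfl]
    exact m_zero_le hO hx hm

end Pool.Agent.MPfb225e
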