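import Mathlib

/-!
Analytic continuation of a Dirichlet series whose coefficient sums have a power-saving asymptotic.
-/

namespace Pool.Agent.MPfb225e.Cont

open Filter Topology Asymptotics Finset

/-- Analytic continuation by the Mellin transform of the error term. -/
theorem continuation (a : ℕ → ℝ) (ha : ∀ n, 0 ≤ a n) (κ C η : ℝ) (hη0 : 0 < η) (hη1 : η < 1)
    (hC : ∀ n : ℕ, 1 ≤ n → |∑ k ∈ Icc 1 n, a k - κ * n| ≤ C * (n : ℝ) ^ (1 - η)) :
    ∃ G : ℂ → ℂ, (∀ s : ℂ, 1 - η < s.re → DifferentiableAt ℂ G s) ∧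
      ∀ s : ℂ, 1 < s.re → LSeries (fun n => (a n : ℂ)) s = κ * riemannZeta s + G s := by
  have hC0 : 0 ≤ C := by
    have h := hC 1 le_rfl
    have h2 := (abs_nonneg _).trans h
    simpa using h2
  have hr0 : 0 ≤ 1 - η := by linarith
  set b : ℕ → ℂ := fun k => (a k : ℂ) - κ with hb
  have hbsum : ∀ n : ℕ, ∑ k ∈ Icc 1 n, b k = ((∑ k ∈ Icc 1 n, a k - κ * n : ℝ) : ℂ) := by
    intro n
    simp only [hb, Finset.sum_sub_distrib, Finset.sum_const, Nat.card_Icc, add_tsub_cancel_right]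
    push_cast
    rw [nsmul_eq_mul]
    ring
  have hbO : (fun n : ℕ => ∑ k ∈ Icc 1 n, b k) =O[atTop] fun n : ℕ => (n : ℝ) ^ (1 - η) := by
    refine IsBigO.of_bound C ?_
    filter_upwards [eventually_ge_atTop 1] with n hn
    rw [hbsum, Complex.norm_real, Real.norm_eq_abs, Real.norm_of_nonneg (by positivity)]
    exact hC n hn
  have haO : (fun n : ℕ => ∑ k ∈ Icc 1 n, a k) =O[atTop] fun n : ℕ => (n : ℝ) ^ (1 : ℝ) := by
    refine IsBigO.of_bound (C + |κ|) ?_
    filter_upwards [eventually_ge_atTop 1] with n hn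
    have h := hC n hn
    have hn' : (1 : ℝ) ≤ n := by exact_mod_cast hn
    rw [Real.rpow_one, Real.norm_eq_abs, Real.norm_of_nonneg (by positivity)]
    have h1 : |∑ k ∈ Icc 1 n, a k| ≤ |∑ k ∈ Icc 1 n, a k - κ * n| + |κ * n| := by
      have := abs_add_le (∑ k ∈ Icc 1 n, a k - κ * n) (κ * n)
      rwa [sub_add_cancel] at this
    have h2 : (n : ℝ) ^ (1 - η) ≤ n := by
      have := Real.rpow_le_rpow_of_exponent_le hn' (by linarith : 1 - η ≤ 1)
      rwa [Real.rpow_one] at this
    have h3 : |κ * n| = |κ| * n := by rw [abs_mul, abs_of_nonneg (by positivity : (0:ℝ) ≤ n)]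
    rw [h3] at h1
    have h4 : C * (n : ℝ) ^ (1 - η) ≤ C * n := mul_le_mul_of_nonneg_left h2 hC0
    linarith
  have hsum : ∀ s : ℂ, 1 < s.re → LSeriesSummable (fun n => (a n : ℂ)) s := fun s hs =>
    LSeriesSummable_of_sum_norm_bigO_and_nonneg haO ha zero_le_one hs
  set B : ℝ → ℂ := fun t => ∑ k ∈ Icc 1 ⌊t⌋₊, b k with hB
  have hBloc : MeasureTheory.LocallyIntegrableOn B (Set.Ioi 0) := by
    have h1 := locallyIntegrableOn_mul_sum_Icc (𝕜 := ℂ) b (m := 1) (a := 0) le_rfl
      (g := fun _ => (1 : ℂ)) (MeasureTheory.locallyIntegrableOn_const 1)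
    simp only [one_mul] at h1
    exact h1.mono_set Set.Ioi_subset_Ici_self
  have hBtop : B =O[atTop] fun t : ℝ => t ^ (-(-(1 - η))) := by
    rw [neg_neg]
    exact (hbO.comp_tendsto tendsto_nat_floor_atTop).trans
      (isEquivalent_nat_floor.isBigO.rpow hr0 (eventually_ge_atTop 0))
  have hBbot : ∀ c : ℝ, B =O[𝓝[>] 0] fun t : ℝ => t ^ (-c) := by
    intro c
    refine IsBigO.of_bound 0 ?_
    have hsmall : ∀ᶠ ε : ℝ in 𝓝[>] 0, ε < 1 := by
      have : ∀ᶠ ε : ℝ in 𝓝 0, ε < 1 := gt_mem_nhds (by norm_num)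
      exact this.filter_mono nhdsWithin_le_nhds
    filter_upwards [hsmall] with ε hε
    have : ⌊ε⌋₊ = 0 := Nat.floor_eq_zero.2 hε
    simp [hB, this]
  refine ⟨fun s => s * mellin B (-s), ?_, ?_⟩
  · intro s hs
    refine differentiableAt_id.mul ?_
    have h1 : DifferentiableAt ℂ (mellin B) (-s) :=
      mellin_differentiableAt_of_isBigO_rpow (a := -(1 - η)) (b := (-s).re - 1) hBloc hBtop
        (by rw [Complex.neg_re]; linarith) (hBbot _) (by linarith)
    exact h1.comp s differentiableAt_id.neg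
  · intro s hs
    have h1 : LSeriesSummable (1 : ℕ → ℂ) s := LSeriesSummable_one_iff.2 hs
    have hbs : LSeriesSummable b s := by
      have h2 := (hsum s hs).sub (h1.smul (κ : ℂ))
      have e : ((fun n => (a n : ℂ)) - (κ : ℂ) • (1 : ℕ → ℂ)) = b := by
        ext n
        simp [hb]
      rwa [e] at h2
    have h2 := LSeries_eq_mul_integral b hr0 (by linarith : 1 - η < s.re) hbs hbO
    have h3 : LSeries (fun n => (a n : ℂ)) s = κ * riemannZeta s + LSeries b s := by
      rw [← LSeries_one_eq_riemannZeta hs, ← LSeries_smul, ← LSeries_add (h1.smul _) hbs]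
      congr 1
      ext n
      simp [hb]
    rw [h3, h2]
    congr 2
    unfold mellin
    have h4 : ∫ t in Set.Ioi (0 : ℝ), (t : ℂ) ^ (-s - 1) • B t =
        ∫ t in Set.Ioi (1 : ℝ), (t : ℂ) ^ (-s - 1) • B t := by
      apply MeasureTheory.setIntegral_eq_of_subset_of_ae_sdiff_eq_zero
      · exact measurableSet_Ioi.nullMeasurableSet
      · exact Set.Ioi_subset_Ioi zero_le_one
      · have hne : ∀ᵐ x : ℝ, x ≠ 1 := by
          simp [MeasureTheory.ae_iff]
        filter_upwards [hne] with x hx1 hx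
        have h5 : x < 1 := by
          rcases hx with ⟨h5, h6⟩
          rw [Set.mem_Ioi, not_lt] at h6
          exact lt_of_le_of_ne h6 hx1
        have : ⌊x⌋₊ = 0 := Nat.floor_eq_zero.2 h5
        simp [hB, this]
    rw [h4]
    refine MeasureTheory.setIntegral_congr_fun measurableSet_Ioi fun t ht => ?_
    simp only [hB, smul_eq_mul]
    rw [mul_comm]
    congr 2
    ring

end Pool.Agent.MPfb225e.Cont
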