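import Mathlib
import Pool.Agent.Lib.MP_fb225e_nt.Interface
import Pool.Agent.Lib.MP_fb225e_nt.Classify
import Pool.Agent.Lib.MP_fb225e_nt.Curve

/-!
MP_fb225e_nt, module E: the zeros of `L(W/K, s)` on the edge `Re s = 3/2`.
-/

namespace Pool.Agent.MPfb225e.Edge

open NumberField IsDedekindDomain Filter Topology

universe u

theorem tendsto_log_inv : Tendsto (fun ε : ℝ => Real.log (1 / ε)) (𝓝[>] 0) atTop := by
  simp only [one_div]
  exact Real.tendsto_log_atTop.comp tendsto_inv_nhdsGT_zero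

/-- The growth of an analytic function near a zero. -/
theorem tendsto_log_norm_div {F : ℂ → ℂ} {s₀ : ℂ} (hF : AnalyticAt ℂ F s₀) {n : ℕ}
    (hn : analyticOrderAt F s₀ = n) :
    Tendsto (fun ε : ℝ => Real.log ‖F (s₀ + ε)‖ / Real.log (1 / ε)) (𝓝[>] 0) (𝓝 (-(n : ℝ))) := by
  obtain ⟨g, hg, hg0, hfg⟩ := (hF.analyticOrderAt_eq_natCast).mp hn
  have hline : Tendsto (fun ε : ℝ => s₀ + (ε : ℂ)) (𝓝[>] 0) (𝓝 s₀) := by
    have h1 : Tendsto (fun ε : ℝ => s₀ + (ε : ℂ)) (𝓝 0) (𝓝 (s₀ + ((0 : ℝ) : ℂ))) :=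
      (continuous_const.add Complex.continuous_ofReal).tendsto 0
    simp only [Complex.ofReal_zero, add_zero] at h1
    exact h1.mono_left nhdsWithin_le_nhds
  have hlogg : Tendsto (fun ε : ℝ => Real.log ‖g (s₀ + ε)‖) (𝓝[>] 0) (𝓝 (Real.log ‖g s₀‖)) := by
    have h2 : Tendsto (fun ε : ℝ => ‖g (s₀ + ε)‖) (𝓝[>] 0) (𝓝 ‖g s₀‖) :=
      (hg.continuousAt.tendsto.comp hline).norm
    exact (Real.continuousAt_log (norm_ne_zero_iff.mpr hg0)).tendsto.comp h2
  have hq : Tendsto (fun ε : ℝ => -(n : ℝ) + Real.log ‖g (s₀ + ε)‖ / Real.log (1 / ε)) (𝓝[>] 0)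
      (𝓝 (-(n : ℝ) + 0)) := tendsto_const_nhds.add (hlogg.div_atTop tendsto_log_inv)
  rw [add_zero] at hq
  refine hq.congr' ?_
  have hg0' : ∀ᶠ ε : ℝ in 𝓝[>] 0, g (s₀ + ε) ≠ 0 :=
    hline.eventually (hg.continuousAt.eventually_ne hg0)
  have hsmall : ∀ᶠ ε : ℝ in 𝓝[>] 0, ε < 1 := by
    have : ∀ᶠ ε : ℝ in 𝓝 0, ε < 1 := gt_mem_nhds (by norm_num)
    exact this.filter_mono nhdsWithin_le_nhds
  filter_upwards [hline.eventually hfg, hg0', self_mem_nhdsWithin, hsmall] with ε h1 h2 h3 h4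
  rw [Set.mem_Ioi] at h3
  have hl : Real.log (1 / ε) = -Real.log ε := by rw [one_div, Real.log_inv]
  have hl0 : Real.log ε < 0 := Real.log_neg h3 h4
  rw [h1, add_sub_cancel_left, norm_smul, norm_pow, Complex.norm_real, Real.norm_of_nonneg h3.le,
    Real.log_mul (pow_ne_zero _ h3.ne') (norm_ne_zero_iff.mpr h2), Real.log_pow, hl]
  have hl1 : Real.log ε ≠ 0 := hl0.ne
  rw [eq_div_iff (neg_ne_zero.mpr hl1), add_mul, div_mul_cancel₀ _ (neg_ne_zero.mpr hl1)]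
  ring

variable {K : Type u} [Field K] [NumberField K]

/-- The zeros on the edge, given the three inputs. -/
theorem edge (hO : Orthogonality K) (W : WeierstrassCurve K) (hL : LogExpansion W)
    (hC : Classification K) (F : ℂ → ℂ) (hF : Differentiable ℂ F)
    (hFL : ∀ s : ℂ, 3 / 2 < s.re → F s = W.LSeries s) :
    (∀ s : ℂ, 3 / 2 < s.re → F s ≠ 0) ∧
    ∃ t₀ : ℝ, 0 ≤ t₀ ∧ ∀ s : ℂ, s.re = 3 / 2 → F s = 0 →
      (s.im = t₀ ∨ s.im = -t₀) ∧ analyticOrderAt F s ≤ if t₀ = 0 then 2 else 1 := by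
  obtain ⟨x, hx, hne, hexp⟩ := hL
  have hFne : ∀ s : ℂ, 3 / 2 < s.re → F s ≠ 0 := fun s hs => by
    rw [hFL s hs]; exact hne s hs
  refine ⟨hFne, ?_⟩
  have han : ∀ s, AnalyticAt ℂ F s := fun s => hF.analyticAt s
  have htop : ∀ t : ℝ, analyticOrderAt F (3 / 2 + t * Complex.I) ≠ ⊤ := by
    intro t ht
    rw [analyticOrderAt_eq_top] at ht
    have hline : Tendsto (fun ε : ℝ => (3 / 2 + t * Complex.I) + (ε : ℂ)) (𝓝[>] 0)
        (𝓝 (3 / 2 + t * Complex.I)) := by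
      have h1 : Tendsto (fun ε : ℝ => (3 / 2 + t * Complex.I) + (ε : ℂ)) (𝓝 0)
        (𝓝 ((3 / 2 + t * Complex.I) + ((0 : ℝ) : ℂ))) :=
        (continuous_const.add Complex.continuous_ofReal).tendsto 0
      simp only [Complex.ofReal_zero, add_zero] at h1
      exact h1.mono_left nhdsWithin_le_nhds
    obtain ⟨ε, h1, h2⟩ := ((hline.eventually ht).and self_mem_nhdsWithin).exists
    have h2 : 0 < ε := h2
    refine hFne _ ?_ h1
    simp
    exact h2
  set m : ℝ → ℕ := fun t => analyticOrderNatAt F (3 / 2 + t * Complex.I) with hm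
  have hmeq : ∀ t : ℝ, analyticOrderAt F (3 / 2 + t * Complex.I) = (m t : ℕ∞) := fun t =>
    (Nat.cast_analyticOrderNatAt (htop t)).symm
  have hlim : ∀ t : ℝ, Tendsto (fun ε : ℝ => cosSum x t ε / Real.log (1 / ε)) (𝓝[>] 0)
      (𝓝 (-(m t : ℝ))) := by
    intro t
    have h1 := tendsto_log_norm_div (han (3 / 2 + t * Complex.I)) (hmeq t)
    obtain ⟨B, hB⟩ := hexp t
    have h2 : Tendsto (fun ε : ℝ => (cosSum x t ε - Real.log ‖F (3 / 2 + t * Complex.I + ε)‖) /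
        Real.log (1 / ε)) (𝓝[>] 0) (𝓝 0) := by
      have h3 : Tendsto (fun ε : ℝ => B / Real.log (1 / ε)) (𝓝[>] 0) (𝓝 0) :=
        tendsto_const_nhds.div_atTop tendsto_log_inv
      refine squeeze_zero_norm' ?_ h3
      have hsmall : ∀ᶠ ε : ℝ in 𝓝[>] 0, ε < 1 := by
        have : ∀ᶠ ε : ℝ in 𝓝 0, ε < 1 := gt_mem_nhds (by norm_num)
        exact this.filter_mono nhdsWithin_le_nhds
      filter_upwards [self_mem_nhdsWithin, hsmall] with ε h4 h5
      rw [Set.mem_Ioi] at h4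
      have hl : 0 < Real.log (1 / ε) := Real.log_pos (by rw [one_div]; exact (one_lt_inv₀ h4).mpr h5)
      rw [norm_div, Real.norm_of_nonneg hl.le, Real.norm_eq_abs]
      refine div_le_div_of_nonneg_right ?_ hl.le
      have h6 := hB ε h4 h5.le
      rw [abs_sub_comm] at h6
      have e : ((3 / 2 + ε : ℝ) : ℂ) + t * Complex.I = 3 / 2 + t * Complex.I + ε := by
        push_cast; ring
      rw [e] at h6
      rw [hFL _ (by simp; exact h4)]
      exact h6
    have h7 := h2.add h1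
    rw [zero_add] at h7
    refine h7.congr fun ε => ?_
    rw [← add_div]
    congr 1
    ring
  obtain ⟨t₀, ht₀, hcl⟩ := hC hO x m hx hlim
  refine ⟨t₀, ht₀, fun s hs hs0 => ?_⟩
  have hs' : s = 3 / 2 + s.im * Complex.I := by
    apply Complex.ext
    · simp [hs]
    · simp
  have hm0 : m s.im ≠ 0 := by
    intro h0
    have h1 := hmeq s.im
    rw [h0, ← hs'] at h1
    have h2 : analyticOrderAt F s = 0 := by simpa using h1
    rw [(han s).analyticOrderAt_eq_zero] at h2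
    exact h2 hs0
  obtain ⟨h1, h2⟩ := hcl s.im hm0
  refine ⟨h1, ?_⟩
  have h3 := hmeq s.im
  rw [← hs'] at h3
  rw [h3]
  split_ifs with h4
  · rw [if_pos h4] at h2
    exact_mod_cast h2
  · rw [if_neg h4] at h2
    exact_mod_cast h2

end Pool.Agent.MPfb225e.Edge
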