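import Mathlib
import Pool.Agent.Lib.MP_fb225e_nt.LogZetaDef
import Pool.Agent.Lib.MP_fb225e_nt.Continuation
import Pool.Agent.Lib.MP_fb225e_nt.Edge

/-!
MP_fb225e_nt, module B2, part 2: `IdealCount K → LogZeta K → Orthogonality K`.
-/

namespace Pool.Agent.MPfb225e.OrthogProof

open NumberField IsDedekindDomain Filter Topology Finset

universe u

variable {K : Type u} [Field K] [NumberField K]

theorem sum_coeff (n : ℕ) :
    ∑ k ∈ Icc 1 n, (Nat.card {I : Ideal (𝓞 K) // Ideal.absNorm I = k} : ℝ) =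
      (Nat.card {I : Ideal (𝓞 K) // I ≠ ⊥ ∧ (Ideal.absNorm I : ℝ) ≤ n} : ℝ) := by
  classical
  have hfin : ∀ k : Icc 1 n, Finite {I : Ideal (𝓞 K) // Ideal.absNorm I = k} := by
    intro k
    exact Ideal.finite_setOfPred_absNorm_eq (k : ℕ)
  have e : {I : Ideal (𝓞 K) // I ≠ ⊥ ∧ (Ideal.absNorm I : ℝ) ≤ n} ≃
      (Σ k : Icc 1 n, {I : Ideal (𝓞 K) // Ideal.absNorm I = k}) :=
    { toFun := fun I => ⟨⟨Ideal.absNorm I.1, by
        rw [Finset.mem_Icc]
        refine ⟨?_, by exact_mod_cast I.2.2⟩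
        have h := I.2.1
        rw [Nat.one_le_iff_ne_zero]
        exact fun h0 => h (Ideal.absNorm_eq_zero_iff.1 h0)⟩, I.1, rfl⟩
      invFun := fun p => ⟨p.2.1, by
        have h := Finset.mem_Icc.1 p.1.2
        refine ⟨?_, ?_⟩
        · intro h0
          have h1 := p.2.2
          rw [h0, Ideal.absNorm_bot] at h1
          omega
        · rw [p.2.2]
          exact_mod_cast h.2⟩
      left_inv := fun I => by simp
      right_inv := fun p => by
        obtain ⟨⟨k, hk⟩, ⟨I, (rfl : Ideal.absNorm I = k)⟩⟩ := p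
        rfl }
  rw [Nat.card_congr e, Nat.card_sigma]
  push_cast
  rw [← Finset.sum_coe_sort (Icc 1 n)]

theorem tendsto_line (s₀ : ℂ) : Tendsto (fun ε : ℝ => s₀ + (ε : ℂ)) (𝓝[>] 0) (𝓝 s₀) := by
  have h1 : Tendsto (fun ε : ℝ => s₀ + (ε : ℂ)) (𝓝 0) (𝓝 (s₀ + ((0 : ℝ) : ℂ))) :=
    (continuous_const.add Complex.continuous_ofReal).tendsto 0
  simp only [Complex.ofReal_zero, add_zero] at h1
  exact h1.mono_left nhdsWithin_le_nhds

theorem eventually_small : ∀ᶠ ε : ℝ in 𝓝[>] 0, ε < 1 := by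
  have : ∀ᶠ ε : ℝ in 𝓝 0, ε < 1 := gt_mem_nhds (by norm_num)
  exact this.filter_mono nhdsWithin_le_nhds

/-- transfer of limits from `log |ζ_K|` to the cosine sum -/
theorem transfer (hL : LogZeta K) (t l : ℝ)
    (h : Tendsto (fun ε : ℝ => Real.log ‖zetaK K ((1 + ε : ℝ) + t * Complex.I)‖ / Real.log (1 / ε))
      (𝓝[>] 0) (𝓝 l)) :
    Tendsto (fun ε : ℝ => cosSum (K := K) (fun _ => 1) t ε / Real.log (1 / ε)) (𝓝[>] 0) (𝓝 l) := by
  obtain ⟨B, hB⟩ := hL.2.2 t
  have h2 : Tendsto (fun ε : ℝ => (cosSum (K := K) (fun _ => 1) t ε -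
      Real.log ‖zetaK K ((1 + ε : ℝ) + t * Complex.I)‖) / Real.log (1 / ε)) (𝓝[>] 0) (𝓝 0) := by
    have h3 : Tendsto (fun ε : ℝ => B / Real.log (1 / ε)) (𝓝[>] 0) (𝓝 0) :=
      tendsto_const_nhds.div_atTop Edge.tendsto_log_inv
    refine squeeze_zero_norm' ?_ h3
    filter_upwards [self_mem_nhdsWithin, eventually_small] with ε h4 h5
    rw [Set.mem_Ioi] at h4
    have hl : 0 < Real.log (1 / ε) := Real.log_pos (by rw [one_div]; exact (one_lt_inv₀ h4).mpr h5)
    rw [norm_div, Real.norm_of_nonneg hl.le, Real.norm_eq_abs]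
    refine div_le_div_of_nonneg_right ?_ hl.le
    have h6 := hB ε h4 h5.le
    rwa [abs_sub_comm] at h6
  have h7 := h2.add h
  rw [zero_add] at h7
  refine h7.congr fun ε => ?_
  rw [← add_div]
  congr 1
  ring

theorem summable_cos (hL : LogZeta K) (t ε : ℝ) (hε : 0 < ε) :
    Summable fun v : HeightOneSpectrum (𝓞 K) =>
      nrm v ^ (-(1 + ε)) * Real.cos (t * Real.log (nrm v)) := by
  have h1 := hL.1 (1 + ε) (by linarith)
  refine Summable.of_norm_bounded h1 fun v => ?_
  have h0 : 0 ≤ nrm v := by unfold nrm; positivity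
  rw [norm_mul, Real.norm_of_nonneg (Real.rpow_nonneg h0 _), Real.norm_eq_abs]
  exact mul_le_of_le_one_right (Real.rpow_nonneg h0 _) (Real.abs_cos_le_one _)

/-- `3-4-1` -/
theorem mertens (hL : LogZeta K) (t ε : ℝ) (hε : 0 < ε) :
    0 ≤ 3 * cosSum (K := K) (fun _ => 1) 0 ε + 4 * cosSum (K := K) (fun _ => 1) t ε +
      cosSum (K := K) (fun _ => 1) (2 * t) ε := by
  unfold cosSum
  simp only [one_mul]
  have h0 := summable_cos hL 0 ε hε
  have h1 := summable_cos hL t ε hε
  have h2 := summable_cos hL (2 * t) ε hε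
  rw [← tsum_mul_left, ← tsum_mul_left, ← (h0.mul_left 3).tsum_add (h1.mul_left 4),
    ← ((h0.mul_left 3).add (h1.mul_left 4)).tsum_add h2]
  refine tsum_nonneg fun v => ?_
  have hn : 0 ≤ nrm v := by unfold nrm; positivity
  have hp : 0 ≤ nrm v ^ (-(1 + ε)) := Real.rpow_nonneg hn _
  have e1 : Real.cos (2 * t * Real.log (nrm v)) = 2 * Real.cos (t * Real.log (nrm v)) ^ 2 - 1 := by
    rw [mul_assoc, Real.cos_two_mul]
  rw [zero_mul, Real.cos_zero, e1]
  have e2 : 3 * (nrm v ^ (-(1 + ε)) * 1) + 4 * (nrm v ^ (-(1 + ε)) * Real.cos (t * Real.log (nrm v))) +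
      nrm v ^ (-(1 + ε)) * (2 * Real.cos (t * Real.log (nrm v)) ^ 2 - 1) =
      nrm v ^ (-(1 + ε)) * (2 * (Real.cos (t * Real.log (nrm v)) + 1) ^ 2) := by ring
  rw [e2]
  positivity

theorem orthogonality (hI : IdealCount K) (hL : LogZeta K) : Orthogonality K := by
  obtain ⟨κ, hκ, η, hη0, hη1, C, hC⟩ := hI
  obtain ⟨G, hG, hZ⟩ := Cont.continuation
    (fun k => (Nat.card {I : Ideal (𝓞 K) // Ideal.absNorm I = k} : ℝ)) (fun n => by positivity)
    κ C η hη0 hη1 (fun n hn => by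
      rw [sum_coeff]
      exact hC n (by exact_mod_cast hn))
  have hZ' : ∀ s : ℂ, 1 < s.re → zetaK K s = κ * riemannZeta s + G s := fun s hs => by
    rw [← hZ s hs]
    simp [zetaK]
  -- the limit at 0
  have hlim0 : Tendsto (fun ε : ℝ => cosSum (K := K) (fun _ => 1) 0 ε / Real.log (1 / ε))
      (𝓝[>] 0) (𝓝 1) := by
    apply transfer hL
    have h1 : Tendsto (fun ε : ℝ => (ε : ℂ) * (κ * riemannZeta (1 + ε) + G (1 + ε))) (𝓝[>] 0)
        (𝓝 κ) := by
      have hz : Tendsto (fun ε : ℝ => ((1 : ℂ) + ε - 1) * riemannZeta (1 + ε)) (𝓝[>] 0) (𝓝 1) := by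
        refine riemannZeta_residue_one.comp ?_
        rw [tendsto_nhdsWithin_iff]
        refine ⟨tendsto_line 1, ?_⟩
        filter_upwards [self_mem_nhdsWithin] with ε hε
        rw [Set.mem_Ioi] at hε
        simp [hε.ne']
      have hg : Tendsto (fun ε : ℝ => (ε : ℂ) * G (1 + ε)) (𝓝[>] 0) (𝓝 (0 * G 1)) := by
        refine Tendsto.mul ?_ ?_
        · have := tendsto_line 0
          simpa using this
        · exact (hG 1 (by simp; linarith)).continuousAt.tendsto.comp (tendsto_line 1)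
      have h2 := (hz.const_mul (κ : ℂ)).add hg
      simp only [mul_one, zero_mul, add_zero] at h2
      refine h2.congr fun ε => ?_
      ring
    have h3 : Tendsto (fun ε : ℝ => Real.log ‖(ε : ℂ) * (κ * riemannZeta (1 + ε) + G (1 + ε))‖)
        (𝓝[>] 0) (𝓝 (Real.log κ)) := by
      have h4 := h1.norm
      rw [Complex.norm_real, Real.norm_of_nonneg hκ.le] at h4
      exact (Real.continuousAt_log hκ.ne').tendsto.comp h4
    have h5 : Tendsto (fun ε : ℝ => 1 + Real.log ‖(ε : ℂ) * (κ * riemannZeta (1 + ε) + G (1 + ε))‖ /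
        Real.log (1 / ε)) (𝓝[>] 0) (𝓝 (1 + 0)) :=
      tendsto_const_nhds.add (h3.div_atTop Edge.tendsto_log_inv)
    rw [add_zero] at h5
    refine h5.congr' ?_
    filter_upwards [self_mem_nhdsWithin, eventually_small] with ε h6 h7
    rw [Set.mem_Ioi] at h6
    have hl : 0 < Real.log (1 / ε) := Real.log_pos (by rw [one_div]; exact (one_lt_inv₀ h6).mpr h7)
    have e0 : (((1 + ε : ℝ) : ℂ) + (0 : ℝ) * Complex.I) = 1 + ε := by push_cast; ring
    rw [e0]
    have hre : 1 < ((1 : ℂ) + ε).re := by simp; exact h6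
    have hne : zetaK K (1 + ε) ≠ 0 := hL.2.1 _ hre
    rw [← hZ' _ hre, norm_mul, Complex.norm_real, Real.norm_of_nonneg h6.le,
      Real.log_mul h6.ne' (norm_ne_zero_iff.2 hne)]
    have hl' : Real.log (1 / ε) = -Real.log ε := by rw [one_div, Real.log_inv]
    rw [eq_div_iff hl.ne', add_mul, div_mul_cancel₀ _ hl.ne', hl']
    ring
  -- orders
  have hord : ∀ t : ℝ, t ≠ 0 → ∃ m : ℕ,
      Tendsto (fun ε : ℝ => cosSum (K := K) (fun _ => 1) t ε / Real.log (1 / ε))
        (𝓝[>] 0) (𝓝 (-(m : ℝ))) := by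
    intro t ht
    set s₀ : ℂ := 1 + t * Complex.I with hs₀
    have hs₀re : s₀.re = 1 := by simp [hs₀]
    have hs₀1 : s₀ ≠ 1 := by
      intro h
      have := congrArg Complex.im h
      simp [hs₀] at this
      exact ht this
    set F : ℂ → ℂ := fun s => κ * riemannZeta s + G s with hF
    have hFan : AnalyticAt ℂ F s₀ := by
      apply DifferentiableOn.analyticAt (s := {s : ℂ | 1 - η < s.re} ∩ {1}ᶜ)
      · intro s hs
        apply DifferentiableAt.differentiableWithinAt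
        exact ((differentiableAt_riemannZeta hs.2).const_mul _).add (hG s hs.1)
      · apply IsOpen.mem_nhds
        · exact (isOpen_lt continuous_const Complex.continuous_re).inter isOpen_compl_singleton
        · refine ⟨?_, hs₀1⟩
          rw [Set.mem_ofPred_eq, hs₀re]
          linarith
    have htop : analyticOrderAt F s₀ ≠ ⊤ := by
      intro h
      rw [analyticOrderAt_eq_top] at h
      obtain ⟨ε, h1, h2⟩ := (((tendsto_line s₀).eventually h).and self_mem_nhdsWithin).exists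
      have h2 : 0 < ε := h2
      have hre : 1 < (s₀ + ε).re := by
        rw [Complex.add_re, hs₀re, Complex.ofReal_re]; linarith
      refine hL.2.1 _ hre ?_
      rw [hZ' _ hre]
      exact h1
    refine ⟨analyticOrderNatAt F s₀, transfer hL _ _ ?_⟩
    have h3 := Edge.tendsto_log_norm_div hFan (Nat.cast_analyticOrderNatAt htop).symm
    refine h3.congr' ?_
    filter_upwards [self_mem_nhdsWithin] with ε h6
    rw [Set.mem_Ioi] at h6
    have e0 : (((1 + ε : ℝ) : ℂ) + t * Complex.I) = s₀ + ε := by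
      rw [hs₀]; push_cast; ring
    have hre : 1 < (s₀ + ε).re := by
      rw [Complex.add_re, hs₀re, Complex.ofReal_re]; linarith
    rw [e0, hZ' _ hre]
  refine ⟨hL.1, hlim0, fun t ht => ?_⟩
  obtain ⟨m, hm⟩ := hord t ht
  obtain ⟨m', hm'⟩ := hord (2 * t) (mul_ne_zero two_ne_zero ht)
  have hlim := ((hlim0.const_mul 3).add (hm.const_mul 4)).add hm'
  have hge : 0 ≤ 3 * (1 : ℝ) + 4 * (-(m : ℝ)) + (-(m' : ℝ)) := by
    refine ge_of_tendsto hlim ?_
    filter_upwards [self_mem_nhdsWithin, eventually_small] with ε h6 h7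
    rw [Set.mem_Ioi] at h6
    have hl : 0 < Real.log (1 / ε) := Real.log_pos (by rw [one_div]; exact (one_lt_inv₀ h6).mpr h7)
    have := mertens hL t ε h6
    have e : 3 * (cosSum (K := K) (fun _ => 1) 0 ε / Real.log (1 / ε)) +
        4 * (cosSum (K := K) (fun _ => 1) t ε / Real.log (1 / ε)) +
        cosSum (K := K) (fun _ => 1) (2 * t) ε / Real.log (1 / ε) =
        (3 * cosSum (K := K) (fun _ => 1) 0 ε + 4 * cosSum (K := K) (fun _ => 1) t ε +
      cosSum (K := K) (fun _ => 1) (2 * t) ε) / Real.log (1 / ε) := by ring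
    rw [e]
    exact div_nonneg this hl.le
  have hm0 : m = 0 := by
    by_contra h
    have h1 : (1 : ℝ) ≤ m := by exact_mod_cast Nat.one_le_iff_ne_zero.2 h
    have h2 : (0 : ℝ) ≤ m' := by positivity
    linarith
  rw [hm0] at hm
  simpa using hm

end Pool.Agent.MPfb225e.OrthogProof
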