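import Mathlib

namespace Pool.Agent.MPfb225e.HasseProof

open Polynomial

variable {k : Type*} [Field k]

/-- first form -/
noncomputable def fA (a b : k) (f g : k[X]) : k[X] :=
  (f * X - C a * g) ^ 2 - 4 * C b * g * (f + g * X)
noncomputable def fB (a b : k) (f g : k[X]) : k[X] :=
  2 * (f * X + C a * g) * (f + g * X) + 4 * C b * g ^ 2
noncomputable def fC (f g : k[X]) : k[X] := (f - g * X) ^ 2

theorem prim_forms {a b : k} (h2 : (2 : k) ≠ 0) (hΔ : 4 * a ^ 3 + 27 * b ^ 2 ≠ 0)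
    {f g : k[X]} (hfg : IsCoprime f g) (p : k[X]) (hp : Prime p)
    (hA : p ∣ fA a b f g) (hB : p ∣ fB a b f g) (hC : p ∣ fC f g) : False := by
  have he : p ∣ f - g * X := hp.dvd_of_dvd_pow hC
  have h1 : p ∣ g ^ 2 * ((X ^ 2 - C a) ^ 2 - 8 * C b * X) := by
    have : g ^ 2 * ((X ^ 2 - C a) ^ 2 - 8 * C b * X) = fA a b f g - (f - g * X) *
        (2 * g * (X ^ 2 - C a) * X + X ^ 2 * (f - g * X) - 4 * C b * g) := by
      unfold fA; ring
    rw [this]
    exact dvd_sub hA (Dvd.dvd.mul_right he _)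
  have h2' : p ∣ g ^ 2 * (4 * (X ^ 3 + C a * X + C b)) := by
    have : g ^ 2 * (4 * (X ^ 3 + C a * X + C b)) = fB a b f g - (f - g * X) *
        (2 * (g * (X ^ 2 + C a)) + 4 * X ^ 2 * g + 2 * X * (f - g * X)) := by
      unfold fB; ring
    rw [this]
    exact dvd_sub hB (Dvd.dvd.mul_right he _)
  have h3 : p ∣ g ^ 2 * (C (4 * (4 * a ^ 3 + 27 * b ^ 2))) := by
    have : g ^ 2 * (C (4 * (4 * a ^ 3 + 27 * b ^ 2))) =
        (g ^ 2 * ((X ^ 2 - C a) ^ 2 - 8 * C b * X)) * (4 * (3 * X ^ 2 + 4 * C a)) -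
        (g ^ 2 * (4 * (X ^ 3 + C a * X + C b))) * (3 * X ^ 3 - 5 * C a * X - 27 * C b) := by
      simp only [C_mul, C_add, C_pow, map_ofNat]
      ring
    rw [this]
    exact dvd_sub (Dvd.dvd.mul_right h1 _) (Dvd.dvd.mul_right h2' _)
  have h4 : IsUnit (C (4 * (4 * a ^ 3 + 27 * b ^ 2)) : k[X]) := by
    rw [isUnit_C]
    refine IsUnit.mk0 _ (mul_ne_zero ?_ hΔ)
    have : (4 : k) = 2 * 2 := by norm_num
    rw [this]
    exact mul_ne_zero h2 h2
  have h5 : p ∣ g := by
    rcases hp.dvd_or_dvd h3 with h | h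
    · exact hp.dvd_of_dvd_pow h
    · exact absurd (isUnit_of_dvd_unit h h4) hp.not_isUnit
  have h6 : p ∣ f := by
    have : f = (f - g * X) + g * X := by ring
    rw [this]
    exact dvd_add he (Dvd.dvd.mul_right h5 _)
  exact hp.not_isUnit (hfg.isUnit_of_dvd' h6 h5)

theorem prim_prod {f g f' g' : k[X]} (h : IsCoprime f g) (h' : IsCoprime f' g') (p : k[X])
    (hp : Prime p) (hA : p ∣ f * f') (hB : p ∣ f * g' + f' * g) (hC : p ∣ g * g') : False := by
  have key : ∀ {f g f' g' : k[X]}, IsCoprime f g → IsCoprime f' g' → p ∣ f → 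
      p ∣ f * g' + f' * g → p ∣ g * g' → False := by
    intro f g f' g' h h' h1 h2 h3
    have h4 : ¬ p ∣ g := fun h4 => hp.not_isUnit (h.isUnit_of_dvd' h1 h4)
    have h5 : p ∣ g' := (hp.dvd_or_dvd h3).resolve_left h4
    have h6 : p ∣ f' * g := by
      have : f' * g = (f * g' + f' * g) - f * g' := by ring
      rw [this]
      exact dvd_sub h2 (Dvd.dvd.mul_right h1 _)
    have h7 : p ∣ f' := (hp.dvd_or_dvd h6).resolve_right h4
    exact hp.not_isUnit (h'.isUnit_of_dvd' h7 h5)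
  rcases hp.dvd_or_dvd hA with h1 | h1
  · exact key h h' h1 hB hC
  · refine key h' h h1 ?_ ?_
    · have : f' * g + f * g' = f * g' + f' * g := by ring
      rw [this]; exact hB
    · rw [mul_comm]; exact hC

theorem bezout_of_prim {A B D : k[X]} (h : ∀ p, Prime p → p ∣ A → p ∣ B → p ∣ D → False) :
    ∃ u v w, u * A + v * B + w * D = 1 := by
  classical
  have hex : ∃ p : k[X], Prime p := ⟨X, prime_X⟩
  obtain ⟨p0, hp0⟩ := hex
  have h1 : IsCoprime A (EuclideanDomain.gcd B D) := by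
    apply isCoprime_of_prime_dvd
    · rintro ⟨h1, h2⟩
      rw [EuclideanDomain.gcd_eq_zero_iff] at h2
      exact h p0 hp0 (h1 ▸ dvd_zero _) (h2.1 ▸ dvd_zero _) (h2.2 ▸ dvd_zero _)
    · intro z hz h1 h2
      exact h z hz h1 (h2.trans (EuclideanDomain.gcd_dvd_left _ _))
        (h2.trans (EuclideanDomain.gcd_dvd_right _ _))
  obtain ⟨u, v, huv⟩ := h1
  rw [EuclideanDomain.gcd_eq_gcd_ab] at huv
  exact ⟨u, v * EuclideanDomain.gcdA B D, v * EuclideanDomain.gcdB B D, by rw [← huv]; ring⟩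

theorem scale_of_minors {A B D A' B' D' : k[X]}
    (h : ∀ p, Prime p → p ∣ A → p ∣ B → p ∣ D → False)
    (h' : ∀ p, Prime p → p ∣ A' → p ∣ B' → p ∣ D' → False)
    (h1 : A * B' = A' * B) (h2 : A * D' = A' * D) (h3 : B * D' = B' * D) :
    ∃ e : k[X], IsUnit e ∧ A = A' * e ∧ B = B' * e ∧ D = D' * e := by
  obtain ⟨u, v, w, huvw⟩ := bezout_of_prim h'
  refine ⟨u * A + v * B + w * D, ?_, ?_, ?_, ?_⟩
  · have hA : A = A' * (u * A + v * B + w * D) := by
      linear_combination (-A) * huvw + v * h1 + w * h2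
    have hB : B = B' * (u * A + v * B + w * D) := by
      linear_combination (-B) * huvw - u * h1 + w * h3
    have hD : D = D' * (u * A + v * B + w * D) := by
      linear_combination (-D) * huvw - u * h2 - v * h3
    by_contra hu
    by_cases h0 : u * A + v * B + w * D = 0
    · rw [h0, mul_zero] at hA hB hD
      exact h X prime_X (hA ▸ dvd_zero _) (hB ▸ dvd_zero _) (hD ▸ dvd_zero _)
    · obtain ⟨p, hp, hpd⟩ := WfDvdMonoid.exists_irreducible_factor hu h0
      exact h p hp.prime (hA ▸ Dvd.dvd.mul_left hpd _) (hB ▸ Dvd.dvd.mul_left hpd _)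
        (hD ▸ Dvd.dvd.mul_left hpd _)
  · linear_combination (-A) * huvw + v * h1 + w * h2
  · linear_combination (-B) * huvw - u * h1 + w * h3
  · linear_combination (-D) * huvw - u * h2 - v * h3

end Pool.Agent.MPfb225e.HasseProof
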