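import Mathlib
import Pool.Agent.Lib.MP_fb225e_nt.Hasse1

namespace Pool.Agent.MPfb225e.HasseProof

open Polynomial

variable {k : Type*} [Field k]

theorem natDegree_lt_of {f g : k[X]} (h : degree g < degree f) : g = 0 ∨ g.natDegree < f.natDegree := by
  by_cases hg : g = 0
  · exact Or.inl hg
  · exact Or.inr (natDegree_lt_natDegree hg h)

theorem natDegree_two_mul_le (f : k[X]) : (2 * f).natDegree ≤ f.natDegree := by
  have : (2 : k[X]) = C 2 := (map_ofNat C 2).symm
  rw [this]; exact natDegree_C_mul_le _ _
theorem natDegree_four_mul_le (f : k[X]) : (4 * f).natDegree ≤ f.natDegree := by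
  have : (4 : k[X]) = C 4 := (map_ofNat C 4).symm
  rw [this]; exact natDegree_C_mul_le _ _

theorem natDegree_fC {f g : k[X]} (h : degree g < degree f) : (fC f g).natDegree ≤ 2 * f.natDegree := by
  unfold fC
  rcases natDegree_lt_of h with rfl | h
  · simp
  · refine (natDegree_pow_le).trans ?_
    have : (f - g * X).natDegree ≤ f.natDegree := by
      have h2 : (g * X).natDegree ≤ g.natDegree + 1 := natDegree_mul_le.trans (by rw [natDegree_X])
      have h3 := natDegree_sub_le_of_le (le_refl f.natDegree) h2
      rw [max_eq_left (by omega)] at h3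
      exact h3
    omega

theorem natDegree_fB (a b : k) {f g : k[X]} (h : degree g < degree f) :
    (fB a b f g).natDegree ≤ 2 * f.natDegree + 1 := by
  unfold fB
  rcases natDegree_lt_of h with rfl | h
  · simp only [mul_zero, add_zero, zero_mul, ne_eq, OfNat.ofNat_ne_zero, not_false_eq_true,
      zero_pow]
    refine natDegree_mul_le.trans ?_
    have := natDegree_two_mul_le (f * X)
    have h2 : (f * X).natDegree ≤ f.natDegree + 1 := natDegree_mul_le.trans (by rw [natDegree_X])
    omega
  · have h1 : (f * X).natDegree ≤ f.natDegree + 1 := natDegree_mul_le.trans (by rw [natDegree_X])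
    have h2 : (g * X).natDegree ≤ g.natDegree + 1 := natDegree_mul_le.trans (by rw [natDegree_X])
    have h3 : (C a * g).natDegree ≤ g.natDegree := natDegree_C_mul_le _ _
    have h4 : (f * X + C a * g).natDegree ≤ f.natDegree + 1 :=
      natDegree_add_le_of_degree_le h1 (by omega)
    have h5 : (f + g * X).natDegree ≤ f.natDegree :=
      natDegree_add_le_of_degree_le le_rfl (by omega)
    have h6 : (2 * (f * X + C a * g)).natDegree ≤ f.natDegree + 1 :=
      (natDegree_two_mul_le _).trans h4
    refine natDegree_add_le_of_degree_le (natDegree_mul_le.trans (by omega)) ?_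
    refine natDegree_mul_le.trans ?_
    have h7 : (4 * C b : k[X]).natDegree ≤ 0 := (natDegree_four_mul_le _).trans (by simp)
    have h8 : (g ^ 2).natDegree ≤ 2 * g.natDegree := natDegree_pow_le
    omega

theorem natDegree_fA (a b : k) {f g : k[X]} (h : degree g < degree f) :
    fA a b f g ≠ 0 ∧ (fA a b f g).natDegree = 2 * f.natDegree + 2 := by
  have hf : f ≠ 0 := by
    rintro rfl
    simp at h
  have key : fA a b f g = (f * X) ^ 2 + (-(2 * (C a * (f * (g * X)))) + C a ^ 2 * g ^ 2 
      - (4 * C b) * (g * (f + g * X))) := by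
    unfold fA; ring
  have h0 : ((f * X) ^ 2).natDegree = 2 * f.natDegree + 2 := by
    rw [natDegree_pow, natDegree_mul_X hf]; ring
  have hR : (-(2 * (C a * (f * (g * X)))) + C a ^ 2 * g ^ 2 
      - (4 * C b) * (g * (f + g * X))).natDegree < 2 * f.natDegree + 2 := by
    rcases natDegree_lt_of h with rfl | h
    · simp
    · have h1 : (f * X).natDegree ≤ f.natDegree + 1 := natDegree_mul_le.trans (by rw [natDegree_X])
      have h2 : (g * X).natDegree ≤ g.natDegree + 1 := natDegree_mul_le.trans (by rw [natDegree_X])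
      have h7 : (4 * C b : k[X]).natDegree ≤ 0 := (natDegree_four_mul_le _).trans (by simp)
      have h5 : (f + g * X).natDegree ≤ f.natDegree :=
        natDegree_add_le_of_degree_le le_rfl (by omega)
      have h8 : (g ^ 2).natDegree ≤ 2 * g.natDegree := natDegree_pow_le
      have h9 : (f * (g * X)).natDegree ≤ 2 * f.natDegree := natDegree_mul_le.trans (by omega)
      have h10 : (g * (f + g * X)).natDegree ≤ 2 * f.natDegree := natDegree_mul_le.trans (by omega)
      have h11 : (C a ^ 2 * g ^ 2).natDegree ≤ 2 * f.natDegree := by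
        rw [← C_pow]
        exact (natDegree_C_mul_le _ _).trans (by omega)
      have h12 : ((4 * C b) * (g * (f + g * X))).natDegree ≤ 2 * f.natDegree :=
        natDegree_mul_le.trans (by omega)
      have h13 : (-(2 * (C a * (f * (g * X))))).natDegree ≤ 2 * f.natDegree := by
        rw [natDegree_neg]
        exact (natDegree_two_mul_le _).trans ((natDegree_C_mul_le _ _).trans h9)
      have h14 := natDegree_sub_le_of_le (natDegree_add_le_of_degree_le h13 h11) h12
      simp only [max_self] at h14
      omega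
  have hd : (fA a b f g).natDegree = 2 * f.natDegree + 2 := by
    rw [key, natDegree_add_eq_left_of_natDegree_lt (by rw [h0]; exact hR), h0]
  refine ⟨?_, hd⟩
  intro h00
  rw [h00] at hd
  simp at hd

theorem degree_split {p q r s : k[X]} (hpq : p * q ≠ 0)
    (h1 : (p * s + q * r).natDegree < (p * q).natDegree) (h2 : (r * s).natDegree < (p * q).natDegree) :
    degree r < degree p ∧ degree s < degree q := by
  have key : ∀ {p q r s : k[X]}, p * q ≠ 0 → (p * s + q * r).natDegree < (p * q).natDegree →
      (r * s).natDegree < (p * q).natDegree → degree r < degree p := by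
    intro p q r s hpq h1 h2
    have hp : p ≠ 0 := left_ne_zero_of_mul hpq
    have hq : q ≠ 0 := right_ne_zero_of_mul hpq
    by_contra hr
    rw [not_lt] at hr
    have hr0 : r ≠ 0 := by
      rintro rfl
      rw [degree_zero, le_bot_iff, degree_eq_bot] at hr
      exact hp hr
    have hrp : p.natDegree ≤ r.natDegree := natDegree_le_natDegree hr
    rw [natDegree_mul hp hq] at h1 h2
    by_cases hs : s = 0
    · subst hs
      rw [mul_zero, zero_add, natDegree_mul hq hr0] at h1
      omega
    · rw [natDegree_mul hr0 hs] at h2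
      have h3 : s.natDegree < q.natDegree := by omega
      have h4 : (p * s + q * r).natDegree = (q * r).natDegree := by
        apply natDegree_add_eq_right_of_natDegree_lt
        rw [natDegree_mul hp hs, natDegree_mul hq hr0]
        omega
      rw [h4, natDegree_mul hq hr0] at h1
      omega
  refine ⟨key hpq h1 h2, ?_⟩
  refine key (p := q) (q := p) (r := s) (s := r) (by rwa [mul_comm]) ?_ ?_
  · rw [mul_comm q p]
    have : q * r + p * s = p * s + q * r := by ring
    rw [this]; exact h1
  · rw [mul_comm q p, mul_comm s r]; exact h2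

/-- The polynomial form of the parallelogram law. -/
theorem parallelogram_poly {a b : k} (h2 : (2 : k) ≠ 0) (hΔ : 4 * a ^ 3 + 27 * b ^ 2 ≠ 0)
    {f g f₁ g₁ f₂ g₂ : k[X]} (hc : IsCoprime f g) (hc₁ : IsCoprime f₁ g₁) (hc₂ : IsCoprime f₂ g₂)
    (hdeg : degree g < degree f)
    (m1 : fA a b f g * (f₁ * g₂ + f₂ * g₁) = (f₁ * f₂) * fB a b f g)
    (m2 : fA a b f g * (g₁ * g₂) = (f₁ * f₂) * fC f g)
    (m3 : fB a b f g * (g₁ * g₂) = (f₁ * g₂ + f₂ * g₁) * fC f g) :
    degree g₁ < degree f₁ ∧ degree g₂ < degree f₂ ∧
      f₁.natDegree + f₂.natDegree = 2 * f.natDegree + 2 := by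
  obtain ⟨e, he, e1, e2, e3⟩ := scale_of_minors (prim_forms h2 hΔ hc) (prim_prod hc₁ hc₂) m1 m2 m3
  obtain ⟨hA0, hA⟩ := natDegree_fA a b hdeg
  have hB := natDegree_fB a b hdeg
  have hC := natDegree_fC hdeg
  obtain ⟨c, hc0, rfl⟩ := Polynomial.isUnit_iff.1 he
  have hc0' : c ≠ 0 := hc0.ne_zero
  rw [e1] at hA hA0
  rw [e2] at hB
  rw [e3] at hC
  rw [natDegree_mul_C hc0'] at hA hB hC
  have h0 : f₁ * f₂ ≠ 0 := left_ne_zero_of_mul hA0
  obtain ⟨d1, d2⟩ := degree_split (p := f₁) (q := f₂) (r := g₁) (s := g₂) h0 (by omega) (by omega)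
  refine ⟨d1, d2, ?_⟩
  rw [natDegree_mul (left_ne_zero_of_mul h0) (right_ne_zero_of_mul h0)] at hA
  exact hA

end Pool.Agent.MPfb225e.HasseProof
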