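import Mathlib

namespace Pool.Agent.MPfb225e.HasseProof

open WeierstrassCurve WeierstrassCurve.Affine

variable {K : Type*} [Field K]

/-- The curve `y² = x³ + a x + b`. -/
def short (a b : K) : WeierstrassCurve K := ⟨0, 0, 0, a, b⟩

theorem short_eq_iff (a b x y : K) : (short a b).toAffine.Equation x y ↔ y ^ 2 = x ^ 3 + a * x + b := by
  rw [WeierstrassCurve.Affine.equation_iff]
  simp [short]

theorem short_negY (a b x y : K) : (short a b).toAffine.negY x y = -y := by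
  simp [WeierstrassCurve.Affine.negY, short]

theorem short_addX (a b x₁ x₂ l : K) : (short a b).toAffine.addX x₁ x₂ l = l ^ 2 - x₁ - x₂ := by
  simp [WeierstrassCurve.Affine.addX, short]

/-- generic forms in coordinates -/
def eA (a b z0 z1 p0 p1 : K) : K :=
  (z0 * p0 - a * (z1 * p1)) ^ 2 - 4 * b * (z1 * p1) * (z0 * p1 + z1 * p0)
def eB (a b z0 z1 p0 p1 : K) : K :=
  2 * (z0 * p0 + a * (z1 * p1)) * (z0 * p1 + z1 * p0) + 4 * b * (z1 * p1) ^ 2
def eC (z0 z1 p0 p1 : K) : K := (z0 * p1 - z1 * p0) ^ 2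

def Minors (a b : K) (z p s t : Fin 2 → K) : Prop :=
  eA a b (z 0) (z 1) (p 0) (p 1) * (s 0 * t 1 + t 0 * s 1) =
    (s 0 * t 0) * eB a b (z 0) (z 1) (p 0) (p 1) ∧
  eA a b (z 0) (z 1) (p 0) (p 1) * (s 1 * t 1) =
    (s 0 * t 0) * eC (z 0) (z 1) (p 0) (p 1) ∧
  eB a b (z 0) (z 1) (p 0) (p 1) * (s 1 * t 1) =
    (s 0 * t 1 + t 0 * s 1) * eC (z 0) (z 1) (p 0) (p 1)

theorem minors_comm {a b : K} {z p s t : Fin 2 → K} (h : Minors a b z p s t) :
    Minors a b z p t s := by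
  obtain ⟨h1, h2, h3⟩ := h
  refine ⟨?_, ?_, ?_⟩
  · linear_combination h1
  · linear_combination h2
  · linear_combination h3

variable [DecidableEq K]

theorem double_minors (a b : K) (P : (short a b).toAffine.Point) :
    Minors a b P.xRep P.xRep (P + P).xRep (P - P).xRep := by
  rw [sub_self]
  match P with
  | 0 => 
    simp [Minors, eA, eB, eC]
  | .some x y h =>
    have hE := (short_eq_iff a b x y).1 h.1
    by_cases hy : y = (short a b).toAffine.negY x y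
    · rw [Point.add_self_of_Y_eq hy]
      rw [short_negY] at hy
      have h2y : 2 * y = 0 := by linear_combination hy
      have hB : eB a b x 1 x 1 = 0 := by
        unfold eB
        linear_combination (-4) * hE + (2 * y) * h2y
      refine ⟨?_, ?_, ?_⟩
      · simp [hB]
      · simp [eC]
      · simp [hB, eC]
    · rw [Point.add_self_of_Y_ne hy]
      have hl := slope_of_Y_ne (W := (short a b).toAffine) (x₁ := x) (x₂ := x) rfl hy
      set l := (short a b).toAffine.slope x x y y with hl0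
      have hy' := hy
      rw [short_negY] at hy'
      have h2y : y - -y ≠ 0 := fun h => hy' (by linear_combination h)
      have hl1 : l * (2 * y) = 3 * x ^ 2 + a := by
        rw [hl, short_negY]
        simp only [short]
        have : 2 * y = y - -y := by ring
        rw [this, div_mul_cancel₀ _ h2y]
        ring
      refine ⟨?_, ?_, ?_⟩
      · simp only [Point.xRep_some, Point.xRep_zero, Matrix.cons_val_zero, Matrix.cons_val_one,
          Matrix.cons_val_fin_one, short_addX, eA, eB]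
        linear_combination (-(l * (2 * y) + (3 * x ^ 2 + a))) * hl1 +
          (4 * l ^ 2) * hE
      · simp [eC]
      · simp [eC]

theorem add_minors_some (a b : K) {x₁ y₁ x₂ y₂ : K} (h₁ : (short a b).toAffine.Nonsingular x₁ y₁)
    (h₂ : (short a b).toAffine.Nonsingular x₂ y₂) (hx : x₁ ≠ x₂) :
    Minors a b (Point.some x₁ y₁ h₁).xRep (Point.some x₂ y₂ h₂).xRep
      (Point.some x₁ y₁ h₁ + Point.some x₂ y₂ h₂).xRep
      (Point.some x₁ y₁ h₁ - Point.some x₂ y₂ h₂).xRep := by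
  have hE₁ := (short_eq_iff a b x₁ y₁).1 h₁.1
  have hE₂ := (short_eq_iff a b x₂ y₂).1 h₂.1
  rw [sub_eq_add_neg, Point.neg_some, Point.add_of_X_ne hx, Point.add_of_X_ne hx]
  have hx' : x₁ - x₂ ≠ 0 := sub_ne_zero.2 hx
  have hl : (short a b).toAffine.slope x₁ x₂ y₁ y₂ * (x₁ - x₂) = y₁ - y₂ := by
    rw [slope_of_X_ne hx, div_mul_cancel₀ _ hx']
  have hm : (short a b).toAffine.slope x₁ x₂ y₁ ((short a b).toAffine.negY x₂ y₂) * (x₁ - x₂) =
      y₁ + y₂ := by
    rw [slope_of_X_ne hx, div_mul_cancel₀ _ hx', short_negY]; ring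
  set l := (short a b).toAffine.slope x₁ x₂ y₁ y₂
  set m := (short a b).toAffine.slope x₁ x₂ y₁ ((short a b).toAffine.negY x₂ y₂)
  have hs : (l ^ 2 - x₁ - x₂ + (m ^ 2 - x₁ - x₂)) * (x₁ - x₂) ^ 2 =
      2 * (x₁ * x₂ + a) * (x₁ + x₂) + 4 * b := by
    linear_combination (l * (x₁ - x₂) + (y₁ - y₂)) * hl + (m * (x₁ - x₂) + (y₁ + y₂)) * hm +
      2 * hE₁ + 2 * hE₂
  have hp : ((l ^ 2 - x₁ - x₂) * (m ^ 2 - x₁ - x₂)) * (x₁ - x₂) ^ 2 =
      (x₁ * x₂ - a) ^ 2 - 4 * b * (x₁ + x₂) := by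
    have h4 : ((l ^ 2 - x₁ - x₂) * (m ^ 2 - x₁ - x₂)) * (x₁ - x₂) ^ 4 =
        ((x₁ * x₂ - a) ^ 2 - 4 * b * (x₁ + x₂)) * (x₁ - x₂) ^ 2 := by
      have e1 : (l ^ 2 - x₁ - x₂) * (x₁ - x₂) ^ 2 = (y₁ - y₂) ^ 2 - (x₁ + x₂) * (x₁ - x₂) ^ 2 := by
        linear_combination (l * (x₁ - x₂) + (y₁ - y₂)) * hl
      have e2 : (m ^ 2 - x₁ - x₂) * (x₁ - x₂) ^ 2 = (y₁ + y₂) ^ 2 - (x₁ + x₂) * (x₁ - x₂) ^ 2 := by
        linear_combination (m * (x₁ - x₂) + (y₁ + y₂)) * hm
      have e3 : ((l ^ 2 - x₁ - x₂) * (m ^ 2 - x₁ - x₂)) * (x₁ - x₂) ^ 4 =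
          ((l ^ 2 - x₁ - x₂) * (x₁ - x₂) ^ 2) * ((m ^ 2 - x₁ - x₂) * (x₁ - x₂) ^ 2) := by ring
      rw [e3, e1, e2]
      have e4 : ((y₁ - y₂) ^ 2 - (x₁ + x₂) * (x₁ - x₂) ^ 2) *
          ((y₁ + y₂) ^ 2 - (x₁ + x₂) * (x₁ - x₂) ^ 2) =
          (y₁ ^ 2 - y₂ ^ 2) ^ 2 - 2 * (y₁ ^ 2 + y₂ ^ 2) * ((x₁ + x₂) * (x₁ - x₂) ^ 2) +
          ((x₁ + x₂) * (x₁ - x₂) ^ 2) ^ 2 := by ring
      rw [e4, hE₁, hE₂]
      ring
    have h5 : (x₁ - x₂) ^ 2 ≠ 0 := pow_ne_zero 2 hx'
    apply mul_right_cancel₀ h5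
    linear_combination h4
  refine ⟨?_, ?_, ?_⟩
  · simp only [Point.xRep_some, Matrix.cons_val_zero, Matrix.cons_val_one,
      Matrix.cons_val_fin_one, short_addX, eA, eB]
    have h5 : (x₁ - x₂) ^ 2 ≠ 0 := pow_ne_zero 2 hx'
    apply mul_right_cancel₀ h5
    linear_combination ((x₁ * x₂ - a) ^ 2 - 4 * b * (x₁ + x₂)) * hs -
      (2 * (x₁ * x₂ + a) * (x₁ + x₂) + 4 * b) * hp
  · simp only [Point.xRep_some, Matrix.cons_val_zero, Matrix.cons_val_one,
      Matrix.cons_val_fin_one, short_addX, eA, eC]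
    linear_combination - hp
  · simp only [Point.xRep_some, Matrix.cons_val_zero, Matrix.cons_val_one,
      Matrix.cons_val_fin_one, short_addX, eB, eC]
    linear_combination - hs

theorem add_minors (a b : K) (Z P : (short a b).toAffine.Point) :
    Minors a b Z.xRep P.xRep (Z + P).xRep (Z - P).xRep := by
  by_cases h1 : Z = P
  · subst h1
    exact double_minors a b Z
  by_cases h2 : Z = -P
  · subst h2
    have h3 := minors_comm (double_minors a b P)
    rw [Point.xRep_neg]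
    have e1 : -P + P = P - P := by abel
    have e2 : (-P - P).xRep = (P + P).xRep := by
      rw [← Point.xRep_neg]
      congr 1
      abel
    rw [e1, e2]
    exact h3
  match Z, P with
  | 0, P =>
    rw [zero_add, zero_sub, Point.xRep_neg]
    refine ⟨?_, ?_, ?_⟩ <;>
    · simp only [Point.xRep_zero, Matrix.cons_val_zero, Matrix.cons_val_one,
        Matrix.cons_val_fin_one, eA, eB, eC]
      ring
  | .some x y h, 0 =>
    rw [add_zero, sub_zero]
    refine ⟨?_, ?_, ?_⟩ <;>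
    · simp only [Point.xRep_zero, Matrix.cons_val_zero, Matrix.cons_val_one,
        Matrix.cons_val_fin_one, eA, eB, eC]
      ring
  | .some x₁ y₁ h₁, .some x₂ y₂ h₂ =>
    apply add_minors_some
    intro hx
    rcases Point.X_eq_iff (h₁ := h₁) (h₂ := h₂) |>.1 hx with h | h
    · exact h1 h
    · exact h2 h

end Pool.Agent.MPfb225e.HasseProof
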