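import Mathlib
import Pool.Agent.Lib.MP_fb225e_nt.Hasse2
import Pool.Agent.Lib.MP_fb225e_nt.Hasse3

namespace Pool.Agent.MPfb225e.HasseProof

open Polynomial WeierstrassCurve WeierstrassCurve.Affine

variable {k : Type*} [Field k] (a b : k) (K : Type*) [Field K] [Algebra k[X] K]
  [IsFractionRing k[X] K]

/-- `λ = X³ + a X + b` -/
noncomputable def lam : k[X] := X ^ 3 + C a * X + C b

/-- The quadratic twist of `y² = x³ + a x + b` by `λ`. -/
noncomputable abbrev tw : WeierstrassCurve K :=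
  short (algebraMap k[X] K (C a * lam a b ^ 2)) (algebraMap k[X] K (C b * lam a b ^ 3))

theorem lam_monic : (lam a b).Monic := by
  unfold lam
  monicity!

theorem lam_ne_zero : lam a b ≠ 0 := (lam_monic a b).ne_zero

theorem natDegree_lam : (lam a b).natDegree ≤ 3 := by
  unfold lam
  compute_degree

variable {K} in
theorem iota_ne_zero {f : k[X]} (hf : f ≠ 0) : algebraMap k[X] K f ≠ 0 := by
  intro h
  exact hf ((IsFractionRing.injective k[X] K) (by rw [h, map_zero]))

/-- `(f, g)` are coprime homogeneous coordinates of `x(Z) / λ`. -/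
def Rep (Z : (tw a b K).toAffine.Point) (f g : k[X]) : Prop :=
  IsCoprime f g ∧ ∃ c : K, c ≠ 0 ∧ Z.xRep 0 = c * algebraMap k[X] K (lam a b) * algebraMap k[X] K f ∧
    Z.xRep 1 = c * algebraMap k[X] K g

theorem exists_rep (Z : (tw a b K).toAffine.Point) : ∃ f g, Rep a b K Z f g := by
  have hL := iota_ne_zero (K := K) (lam_ne_zero a b)
  match Z with
  | 0 =>
    refine ⟨1, 0, isCoprime_one_left, (algebraMap k[X] K (lam a b))⁻¹, inv_ne_zero hL, ?_, ?_⟩
    · simp [hL]
    · simp
  | .some x y h =>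
    obtain ⟨f, g, hfg, hx⟩ := IsFractionRing.exists_reduced_fraction (A := k[X])
      (x / algebraMap k[X] K (lam a b))
    have hg := iota_ne_zero (K := K) (nonZeroDivisors.ne_zero g.2)
    refine ⟨f, g, hfg.isCoprime, (algebraMap k[X] K g)⁻¹, inv_ne_zero hg, ?_, ?_⟩
    · rw [Point.xRep_some]
      rw [IsFractionRing.mk'_eq_div] at hx
      rw [eq_div_iff hL] at hx
      simp only [Matrix.cons_val_zero]
      rw [← hx]
      field_simp
    · rw [Point.xRep_some]
      simp only [Matrix.cons_val_one, Matrix.cons_val_fin_one]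
      field_simp

variable {a b K}

theorem rep_cross {Z : (tw a b K).toAffine.Point} {f g f' g' : k[X]} (h : Rep a b K Z f g)
    (h' : Rep a b K Z f' g') : f * g' = f' * g := by
  obtain ⟨_, c, hc, e0, e1⟩ := h
  obtain ⟨_, c', hc', e0', e1'⟩ := h'
  apply IsFractionRing.injective k[X] K
  rw [map_mul, map_mul]
  have hL := iota_ne_zero (K := K) (lam_ne_zero a b)
  rw [e0] at e0'
  rw [e1] at e1'
  apply mul_left_cancel₀ (mul_ne_zero (mul_ne_zero hc hc') hL)
  linear_combination (c' * algebraMap k[X] K g') * e0' - (c' * algebraMap k[X] K (lam a b) * algebraMap k[X] K f') * e1'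

theorem rep_unique {Z : (tw a b K).toAffine.Point} {f g f' g' : k[X]} (h : Rep a b K Z f g)
    (h' : Rep a b K Z f' g') : degree f = degree f' ∧ degree g = degree g' := by
  have h1 := rep_cross h h'
  have c := h.1
  have c' := h'.1
  constructor
  · apply degree_eq_degree_of_associated
    apply associated_of_dvd_dvd
    · exact c.dvd_of_dvd_mul_right (Dvd.intro _ h1)
    · exact c'.dvd_of_dvd_mul_right (Dvd.intro _ h1.symm)
  · apply degree_eq_degree_of_associated
    apply associated_of_dvd_dvd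
    · exact c.symm.dvd_of_dvd_mul_left (Dvd.intro_left _ h1.symm)
    · exact c'.symm.dvd_of_dvd_mul_left (Dvd.intro_left _ h1)

variable [DecidableEq K]

theorem step (h2 : (2 : k) ≠ 0) (hΔ : 4 * a ^ 3 + 27 * b ^ 2 ≠ 0)
    {P : (tw a b K).toAffine.Point} (hP : P.xRep = ![algebraMap k[X] K (lam a b * X), 1])
    {Z : (tw a b K).toAffine.Point} {f g f₁ g₁ f₂ g₂ : k[X]}
    (h : Rep a b K Z f g) (h₁ : Rep a b K (Z + P) f₁ g₁) (h₂' : Rep a b K (Z - P) f₂ g₂)
    (hdeg : degree g < degree f) :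
    degree g₁ < degree f₁ ∧ degree g₂ < degree f₂ ∧
      f₁.natDegree + f₂.natDegree = 2 * f.natDegree + 2 := by
  obtain ⟨hc, c, hc0, e0, e1⟩ := h
  obtain ⟨hc₁, c₁, hc₁0, e₁0, e₁1⟩ := h₁
  obtain ⟨hc₂, c₂, hc₂0, e₂0, e₂1⟩ := h₂'
  have hL := iota_ne_zero (K := K) (lam_ne_zero a b)
  have hinj := IsFractionRing.injective k[X] K
  obtain ⟨m1, m2, m3⟩ := add_minors _ _ Z P
  rw [hP, e0, e1, e₁0, e₁1, e₂0, e₂1] at m1 m2 m3
  simp only [Matrix.cons_val_zero, Matrix.cons_val_one, Matrix.cons_val_fin_one, eA, eB, eC,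
    map_mul, map_pow] at m1 m2 m3
  refine parallelogram_poly (a := a) (b := b) h2 hΔ hc hc₁ hc₂ hdeg (hinj ?_) (hinj ?_) (hinj ?_)
  · simp only [fA, fB, map_mul, map_sub, map_add, map_pow, map_ofNat]
    apply mul_left_cancel₀ (mul_ne_zero (mul_ne_zero (pow_ne_zero 2 hc0) (mul_ne_zero hc₁0 hc₂0))
      (pow_ne_zero 5 hL))
    linear_combination m1
  · simp only [fA, fC, map_mul, map_sub, map_add, map_pow, map_ofNat]
    apply mul_left_cancel₀ (mul_ne_zero (mul_ne_zero (pow_ne_zero 2 hc0) (mul_ne_zero hc₁0 hc₂0))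
      (pow_ne_zero 4 hL))
    linear_combination m2
  · simp only [fB, fC, map_mul, map_sub, map_add, map_pow, map_ofNat]
    apply mul_left_cancel₀ (mul_ne_zero (mul_ne_zero (pow_ne_zero 2 hc0) (mul_ne_zero hc₁0 hc₂0))
      (pow_ne_zero 3 hL))
    linear_combination m3

omit [DecidableEq K] [IsFractionRing k[X] K] in
theorem eq_zero_of_rep {Z : (tw a b K).toAffine.Point} {f g : k[X]} (h : Rep a b K Z f g)
    (hdeg : degree g < degree f) (h0 : f.natDegree = 0) : Z = 0 := by
  have hg : g = 0 := by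
    by_contra hg
    have := natDegree_lt_natDegree hg hdeg
    omega
  obtain ⟨_, c, hc, _, e1⟩ := h
  rw [hg, map_zero, mul_zero] at e1
  match Z with
  | 0 => rfl
  | .some x y h => simp at e1

end Pool.Agent.MPfb225e.HasseProof
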