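import Mathlib
import Pool.Agent.Lib.MP_fb225e_nt.Hasse4

namespace Pool.Agent.MPfb225e.HasseProof

open Polynomial

theorem quad_formula (D : ℤ → ℤ) (h : ∀ n, D (n + 1) + D (n - 1) = 2 * D n + 2) (n : ℤ) :
    D n = n ^ 2 + (D 0 + 1 - D (-1)) * n + D 0 := by
  have key : ∀ n : ℤ, D n = n ^ 2 + (D 0 + 1 - D (-1)) * n + D 0 ∧
      D (n - 1) = (n - 1) ^ 2 + (D 0 + 1 - D (-1)) * (n - 1) + D 0 := by
    intro n
    induction n using Int.induction_on with
    | zero => 
      refine ⟨by ring, ?_⟩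
      rw [zero_sub]; ring
    | succ i ih =>
      obtain ⟨h1, h2⟩ := ih
      have h3 := h i
      refine ⟨?_, ?_⟩
      · linear_combination h3 + 2 * h1 - h2
      · rw [add_sub_cancel_right]; linear_combination h1
    | pred i ih =>
      obtain ⟨h1, h2⟩ := ih
      have h3 := h (-i - 1)
      rw [sub_add_cancel] at h3
      refine ⟨h2, ?_⟩
      linear_combination h3 + 2 * h2 - h1
  exact (key n).1

theorem disc_le (D : ℤ → ℤ) (h : ∀ n, D (n + 1) + D (n - 1) = 2 * D n + 2)
    (hnn : ∀ n, 0 ≤ D n) (hz : ∀ n, D n = 0 → D (n + 1) = 0 → False) :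
    (D 0 + 1 - D (-1)) ^ 2 ≤ 4 * D 0 := by
  have hf := quad_formula D h
  set α := D 0 + 1 - D (-1) with hα
  rcases Int.even_or_odd' α with ⟨m, hm | hm⟩
  · have h1 := hnn (-m)
    rw [hf, hm] at h1
    rw [hm]
    nlinarith
  · have h1 := hf (-m)
    have h2 := hf (-m - 1)
    rw [hm] at h1 h2
    rw [hm]
    by_contra hcon
    rw [not_le] at hcon
    have h3 := hnn (-m)
    have h4 : D (-m) = 0 := by nlinarith
    have h5 : D (-m - 1) = 0 := by nlinarith
    apply hz (-m - 1) h5
    rw [sub_add_cancel]; exact h4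

variable {k : Type*} [Field k]

/-- numerators -/
noncomputable def Neps (a b e : k) (q m : ℕ) : k[X] :=
  lam a b * (lam a b ^ m - C e) ^ 2 - (X ^ q + X) * (X ^ q - X) ^ 2

theorem natDegree_Neps {a b e : k} {q m : ℕ} (hq : q = 2 * m + 1) (he : e ^ 2 = 1) (hm : 1 ≤ m)
    (hlam : lam a b ^ q = X ^ (3 * q) + C a * X ^ q + C b) :
    (Neps a b e q m).natDegree ≤ 2 * q + 1 := by
  have key : Neps a b e q m = C a * X ^ q + C b - C (2 * e) * lam a b ^ (m + 1) + lam a b +
      X ^ (2 * q + 1) + X ^ (q + 2) - X ^ 3 := by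
    have h1 : lam a b * (lam a b ^ m) ^ 2 = X ^ (3 * q) + C a * X ^ q + C b := by
      rw [← hlam, hq]; ring
    have h2 : (C e : k[X]) ^ 2 = 1 := by rw [← C_pow, he, C_1]
    have h3 : (X : k[X]) ^ (3 * q) = X ^ q * X ^ q * X ^ q := by ring
    have h4 : (X : k[X]) ^ (2 * q + 1) = X ^ q * X ^ q * X := by ring
    have h5 : (X : k[X]) ^ (q + 2) = X ^ q * X ^ 2 := by ring
    rw [h4, h5]
    rw [h3] at h1
    unfold Neps
    rw [C_mul, map_ofNat]
    linear_combination h1 + lam a b * h2
  rw [key]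
  have hl := natDegree_lam a b
  have hl2 : (lam a b ^ (m + 1)).natDegree ≤ 2 * q + 1 := natDegree_pow_le.trans (by
    have : (m + 1) * (lam a b).natDegree ≤ (m + 1) * 3 := Nat.mul_le_mul_left _ hl
    omega)
  have a1 : (C a * X ^ q : k[X]).natDegree ≤ 2 * q + 1 :=
    (natDegree_C_mul_X_pow_le _ _).trans (by omega)
  have a2 : (C b : k[X]).natDegree ≤ 2 * q + 1 := by simp
  have a3 : (C (2 * e) * lam a b ^ (m + 1)).natDegree ≤ 2 * q + 1 :=
    (natDegree_C_mul_le _ _).trans hl2
  have a4 : (X ^ (2 * q + 1) : k[X]).natDegree ≤ 2 * q + 1 := natDegree_X_pow_le _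
  have a5 : (X ^ (q + 2) : k[X]).natDegree ≤ 2 * q + 1 := (natDegree_X_pow_le _).trans (by omega)
  have a6 : (X ^ 3 : k[X]).natDegree ≤ 2 * q + 1 := (natDegree_X_pow_le _).trans (by omega)
  have b1 := natDegree_add_le_of_degree_le a1 a2
  have b2 := natDegree_sub_le_of_le b1 a3
  rw [max_self] at b2
  have b3 := natDegree_add_le_of_degree_le b2 (hl.trans (by omega) : (lam a b).natDegree ≤ 2 * q + 1)
  have b4 := natDegree_add_le_of_degree_le (natDegree_add_le_of_degree_le b3 a4) a5
  have b5 := natDegree_sub_le_of_le b4 a6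
  rw [max_self] at b5
  exact b5

theorem common_factor {f g D N G : k[X]} (h : IsCoprime f g) (hf : f ≠ 0) (hD : D ≠ 0)
    (hfg : f * D = g * N) (h1 : G ∣ N) (h2 : G ∣ D) :
    f.natDegree + G.natDegree ≤ N.natDegree := by
  have hN : N ≠ 0 := by
    rintro rfl
    rw [mul_zero] at hfg
    rcases mul_eq_zero.1 hfg with h | h
    · exact hf h
    · exact hD h
  obtain ⟨e, he⟩ : f ∣ N := h.dvd_of_dvd_mul_left (Dvd.intro _ hfg)
  have hDe : D = g * e := by
    apply mul_left_cancel₀ hf
    rw [hfg, he]; ring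
  have he0 : e ≠ 0 := by
    rintro rfl
    rw [mul_zero] at he
    exact hN he
  have hGe : G ∣ e := by
    obtain ⟨u, v, huv⟩ := h
    have : e = u * N + v * D := by
      rw [he, hDe]
      linear_combination (-e) * huv
    rw [this]
    exact dvd_add (Dvd.dvd.mul_left h1 _) (Dvd.dvd.mul_left h2 _)
  rw [he, natDegree_mul hf he0]
  exact Nat.add_le_add_left (natDegree_le_of_dvd hGe he0) _

/-- multiplicity to be used at `c` -/
noncomputable def nu [DecidableEq k] (a b e : k) (m : ℕ) (c : k) : ℕ :=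
  if (lam a b).eval c = 0 then 1 else if ((lam a b).eval c) ^ m = e then 2 else 0

theorem nu_dvd [DecidableEq k] [Fintype k] (a b e : k) {m : ℕ} (c : k) :
    (X - C c) ^ nu a b e m c ∣ Neps a b e (Fintype.card k) m ∧
    (X - C c) ^ nu a b e m c ∣ (X ^ (Fintype.card k) - X) ^ 2 := by
  have h0 : X - C c ∣ (X ^ (Fintype.card k) - X : k[X]) := by
    rw [dvd_iff_isRoot, IsRoot.def]
    simp [FiniteField.pow_card]
  have h0' : (X - C c) ^ 2 ∣ (X ^ (Fintype.card k) - X : k[X]) ^ 2 := pow_dvd_pow_of_dvd h0 2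
  unfold nu
  split_ifs with h1 h2
  · have h3 : X - C c ∣ lam a b := by
      rw [dvd_iff_isRoot, IsRoot.def]; exact h1
    rw [pow_one]
    refine ⟨?_, h0.trans (Dvd.intro_left _ (sq _).symm)⟩
    unfold Neps
    refine dvd_sub (Dvd.dvd.mul_right h3 _) (Dvd.dvd.mul_left ?_ _)
    exact h0.trans (Dvd.intro_left _ (sq _).symm)
  · refine ⟨?_, h0'⟩
    have h3 : X - C c ∣ lam a b ^ m - C e := by
      rw [dvd_iff_isRoot, IsRoot.def]
      simp [h2]
    unfold Neps
    exact dvd_sub (Dvd.dvd.mul_left (pow_dvd_pow_of_dvd h3 2) _) (Dvd.dvd.mul_left h0' _)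
  · simp

theorem prod_dvd [DecidableEq k] [Fintype k] (a b e : k) {m : ℕ} :
    (∏ c : k, (X - C c) ^ nu a b e m c) ∣ Neps a b e (Fintype.card k) m ∧
    (∏ c : k, (X - C c) ^ nu a b e m c) ∣ (X ^ (Fintype.card k) - X) ^ 2 := by
  constructor
  · apply Finset.prod_dvd_of_coprime
    · intro c _ d _ hcd
      exact (IsCoprime.pow (pairwise_coprime_X_sub_C (fun x y h => h) hcd))
    · intro c _
      exact (nu_dvd a b e c).1
  · apply Finset.prod_dvd_of_coprime
    · intro c _ d _ hcd
      exact (IsCoprime.pow (pairwise_coprime_X_sub_C (fun x y h => h) hcd))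
    · intro c _
      exact (nu_dvd a b e c).2

theorem natDegree_prod_nu [DecidableEq k] [Fintype k] (a b e : k) {m : ℕ} :
    (∏ c : k, (X - C c) ^ nu a b e m c).natDegree = ∑ c, nu a b e m c := by
  rw [natDegree_prod_of_monic]
  · refine Finset.sum_congr rfl fun c _ => ?_
    rw [natDegree_pow, natDegree_X_sub_C, mul_one]
  · intro c _
    exact (monic_X_sub_C c).pow _

theorem nu_add_nu [DecidableEq k] [Fintype k] (h2 : (2 : k) ≠ 0) (a b c : k) :
    nu a b 1 (Fintype.card k / 2) c + nu a b (-1) (Fintype.card k / 2) c = 2 := by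
  have hchar : ringChar k ≠ 2 := by
    intro h
    have := ringChar.Nat.cast_ringChar (R := k)
    rw [h] at this
    exact h2 (by exact_mod_cast this)
  unfold nu
  split_ifs with h1 h3 h4 h5
  · rfl
  · exfalso
    rw [h3] at h4
    exact h2 (by linear_combination h4)
  · rfl
  · rfl
  · exfalso
    rcases FiniteField.pow_dichotomy hchar h1 with h | h
    · exact h3 h
    · exact h5 h

theorem nu_one [DecidableEq k] [Fintype k] (h2 : (2 : k) ≠ 0) (a b c : k) :
    nu a b 1 (Fintype.card k / 2) c = Nat.card {y : k // y ^ 2 = (lam a b).eval c} := by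
  have hchar : ringChar k ≠ 2 := by
    intro h
    have := ringChar.Nat.cast_ringChar (R := k)
    rw [h] at this
    exact h2 (by exact_mod_cast this)
  have h3 := quadraticChar_card_sqrts hchar ((lam a b).eval c)
  have h4 : Nat.card {y : k // y ^ 2 = (lam a b).eval c} =
      {x : k | x ^ 2 = (lam a b).eval c}.toFinset.card := by
    rw [Nat.card_eq_fintype_card, Set.toFinset_card]
    rfl
  rw [h4]
  have h5 := quadraticChar_eq_pow_of_char_ne_two' hchar ((lam a b).eval c)
  have h2c : (1 : k) ≠ -1 := fun h => h2 (by linear_combination h)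
  zify
  rw [h3]
  unfold nu
  split_ifs with h1 h6
  · rw [h1]; simp
  · rcases quadraticChar_dichotomy h1 with h | h
    · rw [h]; norm_num
    · exfalso
      rw [h, h6] at h5
      apply h2c
      have h7 : ((-1 : ℤ) : k) = -1 := by norm_num
      rw [h7] at h5
      exact h5.symm
  · rcases quadraticChar_dichotomy h1 with h | h
    · exfalso
      rw [h] at h5
      apply h6
      rw [← h5]; simp
    · rw [h]; norm_num

end Pool.Agent.MPfb225e.HasseProof
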