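import Mathlib
import Pool.Agent.Lib.MP_fb225e_nt.Hasse5

namespace Pool.Agent.MPfb225e.HasseProof

open Polynomial WeierstrassCurve WeierstrassCurve.Affine

theorem lam_pow_card {k : Type*} [Field k] [Fintype k] (a b : k) :
    lam a b ^ Fintype.card k = X ^ (3 * Fintype.card k) + C a * X ^ Fintype.card k + C b := by
  have h := FiniteField.expand_card (lam a b)
  rw [← h]
  simp only [lam, map_add, map_mul, map_pow, expand_X, expand_C, ← pow_mul]
  rw [mul_comm 3]

theorem tw_nonsing {k : Type*} [Field k] {a b : k} {K : Type*} [Field K] [Algebra k[X] K]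
    [IsFractionRing k[X] K] (h2 : (2 : k) ≠ 0) (hΔ : 4 * a ^ 3 + 27 * b ^ 2 ≠ 0) {f g : k[X]}
    (h : g ^ 2 = f ^ 3 + (C a * lam a b ^ 2) * f + C b * lam a b ^ 3) :
    (tw a b K).toAffine.Nonsingular (algebraMap k[X] K f) (algebraMap k[X] K g) := by
  rw [← equation_iff_nonsingular_of_Δ_ne_zero]
  · rw [short_eq_iff]
    simp only [← map_pow, ← map_mul, ← map_add]
    rw [h]
  · have h16 : (16 : k) ≠ 0 := by
      have : (16 : k) = 2 * 2 * 2 * 2 := by norm_num
      rw [this]
      simp [h2]
    have : (tw a b K).toAffine.Δ = algebraMap k[X] K (C (-16 * (4 * a ^ 3 + 27 * b ^ 2)) * lam a b ^ 6) := by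
      simp only [tw, short, WeierstrassCurve.Δ, WeierstrassCurve.b₂, WeierstrassCurve.b₄,
        WeierstrassCurve.b₆, WeierstrassCurve.b₈, map_mul, map_pow, map_add, map_neg, map_ofNat]
      ring
    rw [this]
    apply iota_ne_zero
    refine mul_ne_zero ?_ (pow_ne_zero 6 (lam_ne_zero a b))
    rw [C_ne_zero]
    exact mul_ne_zero (neg_ne_zero.2 h16) hΔ

section main

variable {k : Type*} [Field k] [Fintype k] {a b : k}

omit [Fintype k] in
theorem P_eq (a b e : k) (he : e ^ 2 = 1) : (C e * lam a b ^ 2) ^ 2 =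
    (lam a b * X) ^ 3 + (C a * lam a b ^ 2) * (lam a b * X) + C b * lam a b ^ 3 := by
  have h1 : (C e : k[X]) ^ 2 = 1 := by rw [← C_pow, he, C_1]
  have h2 : lam a b = X ^ 3 + C a * X + C b := rfl
  linear_combination lam a b ^ 4 * h1 + lam a b ^ 3 * h2

theorem Q_eq (a b : k) {m : ℕ} (hq : Fintype.card k = 2 * m + 1) : (lam a b ^ (m + 2)) ^ 2 =
    (lam a b * X ^ Fintype.card k) ^ 3 + (C a * lam a b ^ 2) * (lam a b * X ^ Fintype.card k) +
      C b * lam a b ^ 3 := by
  have h := lam_pow_card a b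
  have h1 : (lam a b ^ (m + 2)) ^ 2 = lam a b ^ 3 * lam a b ^ Fintype.card k := by
    rw [hq]; ring
  rw [h1, h]
  ring

variable (K : Type*) [Field K] [DecidableEq K] [Algebra k[X] K] [IsFractionRing k[X] K]

theorem add_cross {m : ℕ} {e : k}
    (hQ : (tw a b K).toAffine.Nonsingular (algebraMap k[X] K (lam a b * X ^ Fintype.card k))
      (algebraMap k[X] K (lam a b ^ (m + 2))))
    (hP : (tw a b K).toAffine.Nonsingular (algebraMap k[X] K (lam a b * X))
      (algebraMap k[X] K (C e * lam a b ^ 2))) {f g : k[X]}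
    (h : Rep a b K (Point.some _ _ hQ + Point.some _ _ hP) f g) :
    f * (X ^ Fintype.card k - X) ^ 2 = g * Neps a b e (Fintype.card k) m := by
  have hXX : (X ^ Fintype.card k - X : k[X]) ≠ 0 := 
    FiniteField.X_pow_card_sub_X_ne_zero k (Fintype.one_lt_card)
  have hL := iota_ne_zero (K := K) (lam_ne_zero a b)
  have hXX' := iota_ne_zero (K := K) hXX
  have hinj := IsFractionRing.injective k[X] K
  have hx : algebraMap k[X] K (lam a b * X ^ Fintype.card k) ≠ algebraMap k[X] K (lam a b * X) := by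
    intro h
    have h1 := hinj h
    apply hXX
    apply mul_left_cancel₀ (lam_ne_zero a b)
    linear_combination h1
  rw [Point.add_of_X_ne hx] at h
  have hsub : algebraMap k[X] K (lam a b * X ^ Fintype.card k) - algebraMap k[X] K (lam a b * X) ≠ 0 :=
    sub_ne_zero.2 hx
  have hl := div_mul_cancel₀ (algebraMap k[X] K (lam a b ^ (m + 2)) -
    algebraMap k[X] K (C e * lam a b ^ 2)) hsub
  obtain ⟨hc, c, hc0, e0, e1⟩ := h
  simp only [Point.xRep_some, Matrix.cons_val_zero, Matrix.cons_val_one, Matrix.cons_val_fin_one,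
    short_addX] at e0 e1
  rw [slope_of_X_ne hx] at e0
  set l := (algebraMap k[X] K (lam a b ^ (m + 2)) - algebraMap k[X] K (C e * lam a b ^ 2)) /
    (algebraMap k[X] K (lam a b * X ^ Fintype.card k) - algebraMap k[X] K (lam a b * X))
  have hl2 : l * (algebraMap k[X] K (X ^ Fintype.card k - X)) =
      algebraMap k[X] K (lam a b * (lam a b ^ m - C e)) := by
    apply mul_left_cancel₀ hL
    simp only [map_mul, map_pow, map_sub] at hl ⊢
    linear_combination hl
  apply hinj
  apply mul_left_cancel₀ (mul_ne_zero hc0 hL)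
  simp only [Neps, map_mul, map_pow, map_sub, map_add] at e0 e1 hl2 ⊢
  set L := algebraMap k[X] K (lam a b)
  set T := algebraMap k[X] K X
  set E := algebraMap k[X] K (C e)
  set F := algebraMap k[X] K f
  set G := algebraMap k[X] K g
  linear_combination (-(T ^ Fintype.card k - T) ^ 2) * e0 +
    (l * (T ^ Fintype.card k - T) + (L * (L ^ m - E))) * hl2 +
    (L * (L * (L ^ m - E) ^ 2 - (T ^ Fintype.card k + T) * (T ^ Fintype.card k - T) ^ 2)) * e1

theorem frob_bound (a b : k) (h2 : (2 : k) ≠ 0) (hΔ : 4 * a ^ 3 + 27 * b ^ 2 ≠ 0) {m : ℕ}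
    (hq : Fintype.card k = 2 * m + 1) (s : ℕ)
    (hs1 : ∀ f g : k[X], IsCoprime f g → f ≠ 0 →
      f * (X ^ Fintype.card k - X) ^ 2 = g * Neps a b 1 (Fintype.card k) m →
      f.natDegree + s ≤ 2 * Fintype.card k + 1)
    (hs2 : ∀ f g : k[X], IsCoprime f g → f ≠ 0 →
      f * (X ^ Fintype.card k - X) ^ 2 = g * Neps a b (-1) (Fintype.card k) m →
      f.natDegree + (2 * Fintype.card k - s) ≤ 2 * Fintype.card k + 1)
    (hs : s ≤ 2 * Fintype.card k) :
    ((Fintype.card k : ℤ) + 1 - (s + 1)) ^ 2 ≤ 4 * (Fintype.card k : ℤ) := by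
  classical
  have hPns : (tw a b (FractionRing k[X])).toAffine.Nonsingular (algebraMap k[X] (FractionRing k[X]) (lam a b * X))
      (algebraMap k[X] (FractionRing k[X]) (C 1 * lam a b ^ 2)) := tw_nonsing h2 hΔ (P_eq a b 1 (by ring))
  have hPns' : (tw a b (FractionRing k[X])).toAffine.Nonsingular (algebraMap k[X] (FractionRing k[X]) (lam a b * X))
      (algebraMap k[X] (FractionRing k[X]) (C (-1) * lam a b ^ 2)) := tw_nonsing h2 hΔ (P_eq a b (-1) (by ring))
  have hQns : (tw a b (FractionRing k[X])).toAffine.Nonsingular (algebraMap k[X] (FractionRing k[X]) (lam a b * X ^ Fintype.card k))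
      (algebraMap k[X] (FractionRing k[X]) (lam a b ^ (m + 2))) := tw_nonsing h2 hΔ (Q_eq a b hq)
  set P : (tw a b (FractionRing k[X])).toAffine.Point := Point.some _ _ hPns with hPdef
  set Q : (tw a b (FractionRing k[X])).toAffine.Point := Point.some _ _ hQns with hQdef
  have hP0 : P ≠ 0 := Point.some_ne_zero _
  have hnegP : -P = Point.some _ _ hPns' := by
    rw [hPdef, Point.neg_some]
    congr 1
    rw [short_negY, ← map_neg]
    congr 1
    simp
  have hPx : P.xRep = ![algebraMap k[X] (FractionRing k[X]) (lam a b * X), 1] := rfl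
  choose F G hFG using exists_rep a b (FractionRing k[X])
  have hst : ∀ Z, degree (G Z) < degree (F Z) →
      degree (G (Z + P)) < degree (F (Z + P)) ∧ degree (G (Z - P)) < degree (F (Z - P)) ∧
      (F (Z + P)).natDegree + (F (Z - P)).natDegree = 2 * (F Z).natDegree + 2 :=
    fun Z hZ => step h2 hΔ hPx (hFG Z) (hFG _) (hFG _) hZ
  have hL := iota_ne_zero (K := FractionRing k[X]) (lam_ne_zero a b)
  have hQrep : Rep a b (FractionRing k[X]) Q (X ^ Fintype.card k) 1 := by
    refine ⟨isCoprime_one_right, 1, one_ne_zero, ?_, ?_⟩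
    · rw [hQdef, Point.xRep_some]
      simp
    · rw [hQdef, Point.xRep_some]
      simp
  obtain ⟨hd1, hd2⟩ := rep_unique (hFG Q) hQrep
  have hcard : 1 < Fintype.card k := Fintype.one_lt_card
  have hQgood : degree (G Q) < degree (F Q) := by
    rw [hd1, hd2, degree_X_pow, degree_one]
    exact_mod_cast (by omega : 0 < Fintype.card k)
  have hgood : ∀ n : ℤ, degree (G (Q + n • P)) < degree (F (Q + n • P)) := by
    intro n
    induction n using Int.induction_on with
    | zero => rw [zero_zsmul, add_zero]; exact hQgood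
    | succ i ih =>
      have := (hst _ ih).1
      rw [add_assoc, ← add_one_zsmul] at this
      exact this
    | pred i ih =>
      have := (hst _ ih).2.1
      rw [add_sub_assoc, sub_eq_add_neg (-(i : ℤ) • P), ← sub_one_zsmul] at this
      exact this
  have hDle := disc_le (fun n => ((F (Q + n • P)).natDegree : ℤ)) (fun n => by
      have h3 := (hst _ (hgood n)).2.2
      rw [add_assoc, ← add_one_zsmul, add_sub_assoc, sub_eq_add_neg (n • P), ← sub_one_zsmul] at h3
      exact_mod_cast h3) (fun n => by positivity) (fun n h0 h1 => by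
      have e0 := eq_zero_of_rep (hFG _) (hgood n) (by exact_mod_cast h0)
      have e1 := eq_zero_of_rep (hFG _) (hgood (n + 1)) (by exact_mod_cast h1)
      rw [add_one_zsmul, ← add_assoc, e0, zero_add] at e1
      exact hP0 e1)
  have hD0 : (F (Q + (0 : ℤ) • P)).natDegree = Fintype.card k := by
    rw [zero_zsmul, add_zero, natDegree_eq_of_degree_eq hd1, natDegree_X_pow]
  have hg1 := hgood 1
  have hgm1 := hgood (-1)
  have hsum := (hst _ hQgood).2.2
  rw [natDegree_eq_of_degree_eq hd1, natDegree_X_pow] at hsum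
  rw [one_zsmul] at hg1
  rw [neg_one_zsmul] at hgm1
  have hDm1 : (F (Q + (-1 : ℤ) • P)).natDegree = s + 1 := by
    rw [neg_one_zsmul]
    have hr1 := hFG (Q + P)
    have hr2 := hFG (Q + -P)
    have hne1 : F (Q + P) ≠ 0 := by
      intro h; rw [h] at hg1; simp at hg1
    have hne2 : F (Q + -P) ≠ 0 := by
      intro h; rw [h] at hgm1; simp at hgm1
    have b1 := hs1 _ _ hr1.1 hne1 (add_cross (FractionRing k[X]) hQns hPns hr1)
    rw [hnegP] at hr2
    have b2 := hs2 _ _ hr2.1 (by rw [← hnegP]; exact hne2) (add_cross (FractionRing k[X]) hQns hPns' hr2)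
    rw [← hnegP, ← sub_eq_add_neg] at b2
    rw [← sub_eq_add_neg]
    omega
  rw [hD0, hDm1] at hDle
  push_cast at hDle
  exact hDle

end main

end Pool.Agent.MPfb225e.HasseProof
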