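import Mathlib
import Pool.Agent.Lib.MP_fb225e_nt.Hasse6
import Pool.Agent.Lib.MP_fb225e_nt.Interface

namespace Pool.Agent.MPfb225e.HasseProof

open Polynomial WeierstrassCurve WeierstrassCurve.Affine

/-- Affine solutions. -/
theorem card_point {k : Type*} [Field k] [Finite k] (W : WeierstrassCurve k) (hΔ : W.Δ ≠ 0) :
    Nat.card W.toAffine.Point = Nat.card {xy : k × k // W.toAffine.Equation xy.1 xy.2} + 1 := by
  have e := nonsingularPointEquiv W.toAffine
  have e2 : {xy : k × k // W.toAffine.Nonsingular xy.1 xy.2} ≃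
      {xy : k × k // W.toAffine.Equation xy.1 xy.2} :=
    Equiv.subtypeEquivRight fun xy => (equation_iff_nonsingular_of_Δ_ne_zero hΔ).symm
  rw [Nat.card_congr e, ← Nat.card_congr e2]
  exact Finite.card_option

theorem card_short {k : Type*} [Field k] [Fintype k] (a b : k) :
    Nat.card {xy : k × k // (short a b).toAffine.Equation xy.1 xy.2} =
      ∑ c : k, Nat.card {y : k // y ^ 2 = (lam a b).eval c} := by
  classical
  have e : {xy : k × k // (short a b).toAffine.Equation xy.1 xy.2} ≃
      (Σ c : k, {y : k // y ^ 2 = (lam a b).eval c}) :=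
    { toFun := fun p => ⟨p.1.1, p.1.2, by
        have := (short_eq_iff a b _ _).1 p.2
        simp [lam, this]⟩
      invFun := fun p => ⟨(p.1, p.2.1), by
        have := p.2.2
        rw [short_eq_iff]
        simpa [lam] using this⟩
      left_inv := fun p => by simp
      right_inv := fun p => by simp }
  rw [Nat.card_congr e, Nat.card_sigma]

theorem hasse_short {k : Type*} [Field k] [Fintype k] (h2 : (2 : k) ≠ 0) {a b : k}
    (hΔ : 4 * a ^ 3 + 27 * b ^ 2 ≠ 0) :
    ((Nat.card k : ℤ) + 1 -
      ((Nat.card {xy : k × k // (short a b).toAffine.Equation xy.1 xy.2} : ℤ) + 1)) ^ 2 ≤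
      4 * (Nat.card k : ℤ) := by
  classical
  have hchar : ringChar k ≠ 2 := by
    intro h
    have := ringChar.Nat.cast_ringChar (R := k)
    rw [h] at this
    exact h2 (by exact_mod_cast this)
  have hodd := FiniteField.odd_card_of_char_ne_two hchar
  set m := Fintype.card k / 2 with hm
  have hq : Fintype.card k = 2 * m + 1 := by omega
  have hm1 : 1 ≤ m := by
    have := Fintype.one_lt_card (α := k)
    omega
  have hlam := lam_pow_card a b
  have hXX : ((X ^ Fintype.card k - X : k[X])) ^ 2 ≠ 0 := 
    pow_ne_zero 2 (FiniteField.X_pow_card_sub_X_ne_zero k (Fintype.one_lt_card))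
  have hs : ∑ c : k, Nat.card {y : k // y ^ 2 = (lam a b).eval c} = ∑ c : k, nu a b 1 m c :=
    Finset.sum_congr rfl fun c _ => (nu_one h2 a b c).symm
  have hsum : ∑ c : k, nu a b 1 m c + ∑ c : k, nu a b (-1) m c = 2 * Fintype.card k := by
    rw [← Finset.sum_add_distrib, Finset.sum_congr rfl fun c _ => nu_add_nu h2 a b c,
      Finset.sum_const, Finset.card_univ]
    simp [mul_comm]
  rw [card_short, hs, Nat.card_eq_fintype_card]
  apply frob_bound a b h2 hΔ hq
  · intro f g hfg hf h
    have h1 := common_factor hfg hf hXX h (prod_dvd a b 1).1 (prod_dvd a b 1).2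
    rw [natDegree_prod_nu] at h1
    exact h1.trans (natDegree_Neps hq (by ring) hm1 hlam)
  · intro f g hfg hf h
    have h1 := common_factor hfg hf hXX h (prod_dvd a b (-1)).1 (prod_dvd a b (-1)).2
    rw [natDegree_prod_nu] at h1
    have h3 := h1.trans (natDegree_Neps hq (by ring) hm1 hlam)
    omega
  · omega

theorem equation_variableChange {k : Type*} [Field k] (W : WeierstrassCurve k)
    (D : VariableChange k) (x y : k) : (D • W).toAffine.Equation x y ↔
      W.toAffine.Equation ((D.u : k) ^ 2 * x + D.r) ((D.u : k) ^ 3 * y + D.s * (D.u : k) ^ 2 * x + D.t) := by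
  rw [equation_iff', equation_iff']
  have hu : (D.u : k) ≠ 0 := D.u.ne_zero
  have hu' : ((D.u⁻¹ : kˣ) : k) = (D.u : k)⁻¹ := by simp
  rw [variableChange_a₁, variableChange_a₂, variableChange_a₃, variableChange_a₄,
    variableChange_a₆, hu']
  constructor
  · intro h
    have h6 := congrArg (fun z => (D.u : k) ^ 6 * z) h
    simp only [mul_zero] at h6
    rw [← h6]
    field_simp
    ring
  · intro h
    apply mul_left_cancel₀ (pow_ne_zero 6 hu)
    rw [mul_zero, ← h]
    field_simp
    ring

theorem card_variableChange {k : Type*} [Field k] (W : WeierstrassCurve k)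
    (D : VariableChange k) : Nat.card {xy : k × k // (D • W).toAffine.Equation xy.1 xy.2} =
      Nat.card {xy : k × k // W.toAffine.Equation xy.1 xy.2} := by
  have hu : (D.u : k) ≠ 0 := D.u.ne_zero
  let e : k × k ≃ k × k :=
    { toFun := fun p => ((D.u : k) ^ 2 * p.1 + D.r,
        (D.u : k) ^ 3 * p.2 + D.s * (D.u : k) ^ 2 * p.1 + D.t)
      invFun := fun p => ((p.1 - D.r) / (D.u : k) ^ 2,
        (p.2 - D.s * (p.1 - D.r) - D.t) / (D.u : k) ^ 3)
      left_inv := fun p => by
        ext
        · field_simp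
          ring
        · field_simp
          ring
      right_inv := fun p => by
        ext
        · field_simp
          ring
        · field_simp
          ring }
  exact Nat.card_congr (Equiv.subtypeEquiv e fun p => equation_variableChange W D p.1 p.2)

/-- **Hasse's theorem** over finite fields of characteristic `≥ 5`. -/
theorem hasse {k : Type*} [Field k] [Finite k] (h2 : (2 : k) ≠ 0) (h3 : (3 : k) ≠ 0)
    (W : WeierstrassCurve k) [W.IsElliptic] :
    ((Nat.card k : ℤ) + 1 - (Nat.card W.toAffine.Point : ℤ)) ^ 2 ≤ 4 * (Nat.card k : ℤ) := by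
  classical
  have := Fintype.ofFinite k
  letI : Invertible (2 : k) := invertibleOfNonzero h2
  letI : Invertible (3 : k) := invertibleOfNonzero h3
  obtain ⟨D, hD⟩ := W.exists_variableChange_isShortNF
  have hΔ0 : (D • W).Δ ≠ 0 := by
    rw [variableChange_Δ]
    exact mul_ne_zero (pow_ne_zero _ (by simp)) (W.coe_Δ' ▸ W.Δ'.ne_zero)
  have hWs : D • W = short (D • W).a₄ (D • W).a₆ := by
    ext
    · exact (D • W).a₁_of_isShortNF
    · exact (D • W).a₂_of_isShortNF
    · exact (D • W).a₃_of_isShortNF
    · rfl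
    · rfl
  have hΔ : 4 * (D • W).a₄ ^ 3 + 27 * (D • W).a₆ ^ 2 ≠ 0 := by
    intro h
    apply hΔ0
    rw [(D • W).Δ_of_isShortNF, h, mul_zero]
  have h := hasse_short h2 hΔ
  rw [← hWs, card_variableChange] at h
  rw [card_point W (W.coe_Δ' ▸ W.Δ'.ne_zero)]
  push_cast
  exact h

end Pool.Agent.MPfb225e.HasseProof

namespace Pool.Agent.MPfb225e

universe u

/-- MODULE C. -/
theorem hasse_module : Hasse.{u} := by
  intro k _ _ h2 h3 W _
  exact HasseProof.hasse h2 h3 W

end Pool.Agent.MPfb225e
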